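import Pool.Agent.Lib.MP_422011_al.Junc

/-!
# JOB Auto (about 120 lines): the generating function of good words converges
-/

open scoped ENNReal

namespace Pool.Agent.Lib.MP_422011_al

variable {N : ℕ}

/-- the set of differences `x - y`, `x ∈ A`, `y ∈ B` -/
def dif (A B : Finset ℤ) : Finset ℤ := (A ×ˢ B).image fun p => p.1 - p.2

/-- The numbers of differences (`decide +kernel` or `rfl`). -/
theorem card_dif_SS : (dif DD DD).card = 51 := by
  decide +kernel

theorem card_dif_SE : (dif TT DD).card = 48 := by
  decide +kernel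

theorem card_dif_ES : (dif DD TT).card = 48 := by
  decide +kernel

theorem card_dif_EE : (dif TT TT).card = 13 := by
  decide +kernel

/-- terminal elements: ends of good words -/
def Fin0 (N : ℕ) : Blk → Set (FG N)
  | none => {g | ∃ x : Ltr N, ∃ b ∈ DD, g = xx x * zz ^ (-b)}
  | some i => {g | (∃ x : Ltr N, g = xx x * zz ^ (-ee i)) ∨
      ∃ x y : Ltr N, ∃ b ∈ TT, g = xx x * zz ^ (ee (!i) - ee i) * xx y * zz ^ (-b)}

/-- the generating function with at most `n` steps; `p none`, `p (some i)` are the weights of
the blocks -/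
noncomputable def ff (p : Blk → ℝ≥0∞) : ℕ → Blk → FG N → ℝ≥0∞
  | 0, _, _ => 0
  | n + 1, none, g => (Fin0 N none).indicator 1 g +
      ∑ x : Ltr N, ∑ b' : Blk, ∑ δ ∈ dif (ctx b') DD,
        p none * ff p n b' ((xx x * zz ^ δ)⁻¹ * g)
  | n + 1, some i, g => (Fin0 N (some i)).indicator 1 g +
      ∑ x : Ltr N, ∑ y : Ltr N, ∑ b' : Blk, ∑ δ ∈ dif (ctx b') TT,
        p (some i) * ff p n b' ((xx x * zz ^ (ee (!i) - ee i) * xx y * zz ^ δ)⁻¹ * g)

/-- The set of terminal elements is finite (a finite union of images of finite sets). -/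
theorem fin0_finite (b : Blk) : (Fin0 N b).Finite := by
  classical
  cases b with
  | none =>
    refine Set.Finite.subset (((Finset.univ : Finset (Ltr N)) ×ˢ DD).image
      fun q => (xx q.1 * zz ^ (-q.2) : FG N)).finite_toSet ?_
    rintro g ⟨x, b, hb, rfl⟩
    rw [Finset.mem_coe, Finset.mem_image]
    exact ⟨(x, b), Finset.mem_product.2 ⟨Finset.mem_univ _, hb⟩, rfl⟩
  | some i =>
    have h1 : ({g : FG N | ∃ x : Ltr N, g = xx x * zz ^ (-ee i)}).Finite := by
      refine Set.Finite.subset ((Finset.univ : Finset (Ltr N)).image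
        fun q => (xx q * zz ^ (-ee i) : FG N)).finite_toSet ?_
      rintro g ⟨x, rfl⟩
      rw [Finset.mem_coe, Finset.mem_image]
      exact ⟨x, Finset.mem_univ _, rfl⟩
    have h2 : ({g : FG N | ∃ x y : Ltr N, ∃ b ∈ TT,
        g = xx x * zz ^ (ee (!i) - ee i) * xx y * zz ^ (-b)}).Finite := by
      refine Set.Finite.subset (((Finset.univ : Finset (Ltr N)) ×ˢ
        ((Finset.univ : Finset (Ltr N)) ×ˢ TT)).image
        fun q => (xx q.1 * zz ^ (ee (!i) - ee i) * xx q.2.1 * zz ^ (-q.2.2) : FG N)).finite_toSet ?_
      rintro g ⟨x, y, b, hb, rfl⟩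
      rw [Finset.mem_coe, Finset.mem_image]
      exact ⟨(x, y, b), Finset.mem_product.2 ⟨Finset.mem_univ _,
        Finset.mem_product.2 ⟨Finset.mem_univ _, hb⟩⟩, rfl⟩
    exact h1.union h2

theorem Auto_shift (f : FG N → ℝ≥0∞) (h : FG N) : ∑' g : FG N, f (h⁻¹ * g) = ∑' g : FG N, f g :=
  (Equiv.mulLeft h⁻¹).tsum_eq f

theorem Auto_card : (Finset.univ : Finset (Ltr N)).card = 2 * N := by
  rw [Finset.card_univ, Fintype.card_prod, Fintype.card_fin, Fintype.card_bool, mul_comm]

theorem Auto_none (p : Blk → ℝ≥0∞) (n : ℕ) :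
    ∑' g : FG N, ff p (n + 1) none g = (∑' g : FG N, (Fin0 N none).indicator 1 g) +
      ((2 * N : ℕ) : ℝ≥0∞) * (51 * (p none * ∑' g : FG N, ff p n none g) +
        (48 * (p none * ∑' g : FG N, ff p n (some true) g) +
          48 * (p none * ∑' g : FG N, ff p n (some false) g))) := by
  simp only [ff]
  rw [ENNReal.tsum_add]
  congr 1
  rw [Summable.tsum_finsetSum fun _ _ => ENNReal.summable]
  have h1 : ∀ x : Ltr N, ∑' g : FG N, ∑ b' : Blk, ∑ δ ∈ dif (ctx b') DD,
      p none * ff p n b' ((xx x * zz ^ δ)⁻¹ * g) = 51 * (p none * ∑' g : FG N, ff p n none g) +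
        (48 * (p none * ∑' g : FG N, ff p n (some true) g) +
          48 * (p none * ∑' g : FG N, ff p n (some false) g)) := by
    intro x
    rw [Summable.tsum_finsetSum fun _ _ => ENNReal.summable]
    have h2 : ∀ b' : Blk, ∑' g : FG N, ∑ δ ∈ dif (ctx b') DD,
        p none * ff p n b' ((xx x * zz ^ δ)⁻¹ * g) =
        ((dif (ctx b') DD).card : ℝ≥0∞) * (p none * ∑' g : FG N, ff p n b' g) := by
      intro b'
      rw [Summable.tsum_finsetSum fun _ _ => ENNReal.summable]
      have h3 : ∀ δ ∈ dif (ctx b') DD, ∑' g : FG N, p none * ff p n b' ((xx x * zz ^ δ)⁻¹ * g) =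
          p none * ∑' g : FG N, ff p n b' g := by
        intro δ _
        rw [ENNReal.tsum_mul_left, Auto_shift (fun g => ff p n b' g)]
      rw [Finset.sum_congr rfl h3, Finset.sum_const, nsmul_eq_mul]
    rw [Finset.sum_congr rfl fun b' _ => h2 b', Fintype.sum_option, Fintype.sum_bool]
    simp only [ctx, card_dif_SS, card_dif_SE]
    norm_num
  rw [Finset.sum_congr rfl fun x _ => h1 x, Finset.sum_const, Auto_card, nsmul_eq_mul]

theorem Auto_some (p : Blk → ℝ≥0∞) (n : ℕ) (i : Bool) :
    ∑' g : FG N, ff p (n + 1) (some i) g = (∑' g : FG N, (Fin0 N (some i)).indicator 1 g) +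
      ((2 * N : ℕ) : ℝ≥0∞) * (((2 * N : ℕ) : ℝ≥0∞) *
        (48 * (p (some i) * ∑' g : FG N, ff p n none g) +
        (13 * (p (some i) * ∑' g : FG N, ff p n (some true) g) +
          13 * (p (some i) * ∑' g : FG N, ff p n (some false) g)))) := by
  simp only [ff]
  rw [ENNReal.tsum_add]
  congr 1
  rw [Summable.tsum_finsetSum fun _ _ => ENNReal.summable]
  have h1 : ∀ x : Ltr N, ∑' g : FG N, ∑ y : Ltr N, ∑ b' : Blk, ∑ δ ∈ dif (ctx b') TT,
      p (some i) * ff p n b' ((xx x * zz ^ (ee (!i) - ee i) * xx y * zz ^ δ)⁻¹ * g) =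
      ((2 * N : ℕ) : ℝ≥0∞) * (48 * (p (some i) * ∑' g : FG N, ff p n none g) +
        (13 * (p (some i) * ∑' g : FG N, ff p n (some true) g) +
          13 * (p (some i) * ∑' g : FG N, ff p n (some false) g))) := by
    intro x
    rw [Summable.tsum_finsetSum fun _ _ => ENNReal.summable]
    have h0 : ∀ y : Ltr N, ∑' g : FG N, ∑ b' : Blk, ∑ δ ∈ dif (ctx b') TT,
        p (some i) * ff p n b' ((xx x * zz ^ (ee (!i) - ee i) * xx y * zz ^ δ)⁻¹ * g) =
        48 * (p (some i) * ∑' g : FG N, ff p n none g) +
        (13 * (p (some i) * ∑' g : FG N, ff p n (some true) g) +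
          13 * (p (some i) * ∑' g : FG N, ff p n (some false) g)) := by
      intro y
      rw [Summable.tsum_finsetSum fun _ _ => ENNReal.summable]
      have h2 : ∀ b' : Blk, ∑' g : FG N, ∑ δ ∈ dif (ctx b') TT,
          p (some i) * ff p n b' ((xx x * zz ^ (ee (!i) - ee i) * xx y * zz ^ δ)⁻¹ * g) =
          ((dif (ctx b') TT).card : ℝ≥0∞) * (p (some i) * ∑' g : FG N, ff p n b' g) := by
        intro b'
        rw [Summable.tsum_finsetSum fun _ _ => ENNReal.summable]
        have h3 : ∀ δ ∈ dif (ctx b') TT, ∑' g : FG N,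
            p (some i) * ff p n b' ((xx x * zz ^ (ee (!i) - ee i) * xx y * zz ^ δ)⁻¹ * g) =
            p (some i) * ∑' g : FG N, ff p n b' g := by
          intro δ _
          rw [ENNReal.tsum_mul_left, Auto_shift (fun g => ff p n b' g)]
        rw [Finset.sum_congr rfl h3, Finset.sum_const, nsmul_eq_mul]
      rw [Finset.sum_congr rfl fun b' _ => h2 b', Fintype.sum_option, Fintype.sum_bool]
      simp only [ctx, card_dif_ES, card_dif_EE]
      norm_num
    rw [Finset.sum_congr rfl fun x _ => h0 x, Finset.sum_const, Auto_card, nsmul_eq_mul]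
  rw [Finset.sum_congr rfl fun x _ => h1 x, Finset.sum_const, Auto_card, nsmul_eq_mul]

/-- The total mass of the generating function is bounded uniformly in `n`.

Proof. `Z n b = ∑' g, ff p n b g`. Exchanging finite sums and `tsum` (`ENNReal.summable`,
`tsum_finsetSum`, `ENNReal.tsum_mul_left`) and reindexing by the bijection `g ↦ h⁻¹ * g`
(`Equiv.tsum_eq (Equiv.mulLeft h⁻¹)`):
`Z (n+1) none = T none + 2 N * p none * (51 * Z n none + 48 * (Z n (some false) + Z n (some true)))` and
`Z (n+1) (some i) = T (some i) + (2 N)^2 * p (some i) * (48 * Z n none + 13 * (Z n (some false) + Z n (some true)))`,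
with `T b = ∑' g, (Fin0 N b).indicator 1 g < ∞` (`fin0_finite`). With
`T b ≤ ofReal (T0 * φ b)` for a real `T0 ≥ 0` one shows by induction on `n`:
`Z n b ≤ ofReal (C0 * φ b)`, `C0 = T0 / (1 - lam)` : `T0 φ b + C0 * lam * φ b = C0 φ b`.
(`p b = ofReal (P b)`.) -/
theorem ff_bound (P φ : Blk → ℝ) (hP : ∀ b, 0 ≤ P b) (hφ : ∀ b, 0 < φ b) {lam : ℝ}
    (hl0 : 0 ≤ lam) (hl : lam < 1)
    (hS : 2 * N * P none * (51 * φ none + 48 * (φ (some false) + φ (some true))) ≤
      lam * φ none)
    (hE : ∀ i, (2 * N) ^ 2 * P (some i) * (48 * φ none + 13 * (φ (some false) + φ (some true))) ≤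
      lam * φ (some i)) :
    ∃ C : ℝ≥0∞, C ≠ ⊤ ∧ ∀ n b, ∑' g : FG N, ff (fun b => ENNReal.ofReal (P b)) n b g ≤ C := by
  classical
  set p : Blk → ℝ≥0∞ := fun b => ENNReal.ofReal (P b) with hp
  have hT : ∀ b : Blk, ∑' g : FG N, (Fin0 N b).indicator (1 : FG N → ℝ≥0∞) g ≠ ⊤ := by
    intro b
    rw [tsum_eq_sum (s := (fin0_finite (N := N) b).toFinset)
      (fun g hg => Set.indicator_of_notMem (fun h => hg ((fin0_finite b).mem_toFinset.2 h)) _)]
    refine ENNReal.sum_ne_top.2 fun g _ => ?_
    by_cases h : g ∈ Fin0 N b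
    · rw [Set.indicator_of_mem h]; exact ENNReal.one_ne_top
    · rw [Set.indicator_of_notMem h]; exact ENNReal.zero_ne_top
  -- a common constant
  obtain ⟨T0, hT00, hT0⟩ : ∃ T0 : ℝ, 0 ≤ T0 ∧ ∀ b : Blk,
      ∑' g : FG N, (Fin0 N b).indicator (1 : FG N → ℝ≥0∞) g ≤ ENNReal.ofReal (T0 * φ b) := by
    refine ⟨∑ b : Blk, (∑' g : FG N, (Fin0 N b).indicator (1 : FG N → ℝ≥0∞) g).toReal / φ b,
      Finset.sum_nonneg fun b _ => div_nonneg ENNReal.toReal_nonneg (hφ b).le, fun b => ?_⟩
    rw [← ENNReal.ofReal_toReal (hT b)]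
    apply ENNReal.ofReal_le_ofReal
    rw [← div_le_iff₀ (hφ b)]
    have h1 := Finset.single_le_sum (f := fun b : Blk =>
      (∑' g : FG N, (Fin0 N b).indicator (1 : FG N → ℝ≥0∞) g).toReal / φ b)
      (fun b _ => div_nonneg ENNReal.toReal_nonneg (hφ b).le) (Finset.mem_univ b)
    exact h1
  have h1l : 0 < 1 - lam := by linarith
  set C0 : ℝ := T0 / (1 - lam) with hC0
  have hC00 : 0 ≤ C0 := div_nonneg hT00 h1l.le
  have hC1 : T0 + C0 * lam = C0 := by
    rw [hC0]
    field_simp
    ring
  have key : ∀ n b, ∑' g : FG N, ff p n b g ≤ ENNReal.ofReal (C0 * φ b) := by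
    intro n
    induction n with
    | zero =>
      intro b
      simp [ff]
    | succ n ih =>
      intro b
      cases b with
      | none =>
        rw [Auto_none]
        calc _ ≤ ENNReal.ofReal (T0 * φ none) + ((2 * N : ℕ) : ℝ≥0∞) *
              (51 * (p none * ENNReal.ofReal (C0 * φ none)) +
              (48 * (p none * ENNReal.ofReal (C0 * φ (some true))) +
              48 * (p none * ENNReal.ofReal (C0 * φ (some false))))) := by
              gcongr
              · exact hT0 none
              · exact ih _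
              · exact ih _
              · exact ih _
          _ = ENNReal.ofReal (T0 * φ none + ((2 * N : ℕ) : ℝ) *
              (51 * (P none * (C0 * φ none)) +
              (48 * (P none * (C0 * φ (some true))) +
              48 * (P none * (C0 * φ (some false)))))) := by
              have h0 := hP none
              have h1 := (hφ none).le
              have h2 := (hφ (some true)).le
              have h3 := (hφ (some false)).le
              rw [ENNReal.ofReal_add (by positivity) (by positivity),
                ENNReal.ofReal_mul (p := ((2 * N : ℕ) : ℝ)) (by positivity), ENNReal.ofReal_natCast,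
                ENNReal.ofReal_add (by positivity) (by positivity),
                ENNReal.ofReal_add (by positivity) (by positivity),
                ENNReal.ofReal_mul (p := 51) (by norm_num), ENNReal.ofReal_mul (p := 48) (by norm_num),
                ENNReal.ofReal_mul (p := 48) (by norm_num),
                ENNReal.ofReal_mul (p := P none) (q := C0 * φ none) h0,
                ENNReal.ofReal_mul (p := P none) (q := C0 * φ (some true)) h0,
                ENNReal.ofReal_mul (p := P none) (q := C0 * φ (some false)) h0,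
                ENNReal.ofReal_ofNat, ENNReal.ofReal_ofNat]
          _ ≤ ENNReal.ofReal (C0 * φ none) := by
              apply ENNReal.ofReal_le_ofReal
              have h4 := mul_le_mul_of_nonneg_left hS hC00
              push_cast
              have h6 : T0 * φ none + C0 * (lam * φ none) = C0 * φ none := by
                linear_combination φ none * hC1
              nlinarith [hC1]
      | some i =>
        rw [Auto_some]
        calc _ ≤ ENNReal.ofReal (T0 * φ (some i)) + ((2 * N : ℕ) : ℝ≥0∞) * (((2 * N : ℕ) : ℝ≥0∞) *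
              (48 * (p (some i) * ENNReal.ofReal (C0 * φ none)) +
              (13 * (p (some i) * ENNReal.ofReal (C0 * φ (some true))) +
              13 * (p (some i) * ENNReal.ofReal (C0 * φ (some false)))))) := by
              gcongr
              · exact hT0 (some i)
              · exact ih _
              · exact ih _
              · exact ih _
          _ = ENNReal.ofReal (T0 * φ (some i) + ((2 * N : ℕ) : ℝ) * (((2 * N : ℕ) : ℝ) *
              (48 * (P (some i) * (C0 * φ none)) +
              (13 * (P (some i) * (C0 * φ (some true))) +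
              13 * (P (some i) * (C0 * φ (some false))))))) := by
              have h0 := hP (some i)
              have h1 := (hφ none).le
              have h2 := (hφ (some true)).le
              have h3 := (hφ (some false)).le
              have h5 := (hφ (some i)).le
              rw [ENNReal.ofReal_add (by positivity) (by positivity),
                ENNReal.ofReal_mul (p := ((2 * N : ℕ) : ℝ)) (by positivity),
                ENNReal.ofReal_mul (p := ((2 * N : ℕ) : ℝ)) (by positivity),
                ENNReal.ofReal_natCast,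
                ENNReal.ofReal_add (by positivity) (by positivity),
                ENNReal.ofReal_add (by positivity) (by positivity),
                ENNReal.ofReal_mul (p := 48) (by norm_num), ENNReal.ofReal_mul (p := 13) (by norm_num),
                ENNReal.ofReal_mul (p := 13) (by norm_num),
                ENNReal.ofReal_mul (p := P (some i)) (q := C0 * φ none) h0,
                ENNReal.ofReal_mul (p := P (some i)) (q := C0 * φ (some true)) h0,
                ENNReal.ofReal_mul (p := P (some i)) (q := C0 * φ (some false)) h0,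
                ENNReal.ofReal_ofNat, ENNReal.ofReal_ofNat]
          _ ≤ ENNReal.ofReal (C0 * φ (some i)) := by
              apply ENNReal.ofReal_le_ofReal
              have h4 := mul_le_mul_of_nonneg_left (hE i) hC00
              push_cast
              have h6 : T0 * φ (some i) + C0 * (lam * φ (some i)) = C0 * φ (some i) := by
                linear_combination φ (some i) * hC1
              nlinarith [hC1]
  refine ⟨∑ b : Blk, ENNReal.ofReal (C0 * φ b), ENNReal.sum_ne_top.2 fun _ _ =>
    ENNReal.ofReal_ne_top, fun n b => (key n b).trans ?_⟩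
  exact Finset.single_le_sum (f := fun b : Blk => ENNReal.ofReal (C0 * φ b))
    (fun _ _ => bot_le) (Finset.mem_univ b)

/-- `ff` is monotone in `n` (induction on `n`, all `b`, `g`). -/
theorem ff_mono (p : Blk → ℝ≥0∞) (b : Blk) (g : FG N) (n : ℕ) :
    ff p n b g ≤ ff p (n + 1) b g := by
  induction n generalizing b g with
  | zero =>
    simp only [ff]
    exact bot_le
  | succ n ih =>
    cases b with
    | none =>
      rw [ff, ff]
      gcongr
      exact ih _ _
    | some i =>
      rw [ff, ff]
      gcongr
      exact ih _ _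

end Pool.Agent.Lib.MP_422011_al
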