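import Pool.Agent.Lib.MP_422011_al.Auto

/-!
# JOB AutoW (about 130 lines): good words are counted by the generating function
-/

open scoped ENNReal

namespace Pool.Agent.Lib.MP_422011_al

variable {N : ℕ}

/-- the two-valued class weight: `c` on `D × D`, `g` on the other pairs -/
noncomputable def th0 (c g : ℝ) (p : ℤ × ℤ) : ℝ := if p.1 ∈ DD ∧ p.2 ∈ DD then c else g

theorem AutoW_none (p : Blk → ℝ≥0∞) (n : ℕ) (b' : Blk) (x : Ltr N) {δ : ℤ}
    (hδ : δ ∈ dif (ctx b') DD) (g : FG N) :
    p none * ff p n b' ((xx x * zz ^ δ)⁻¹ * g) ≤ ff p (n + 1) none g := by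
  rw [ff]
  refine le_trans ?_ le_add_self
  refine le_trans ?_ (Finset.single_le_sum (f := fun x : Ltr N => ∑ b' : Blk,
    ∑ δ ∈ dif (ctx b') DD, p none * ff p n b' ((xx x * zz ^ δ)⁻¹ * g))
    (fun _ _ => bot_le) (Finset.mem_univ x))
  refine le_trans ?_ (Finset.single_le_sum (f := fun b' : Blk =>
    ∑ δ ∈ dif (ctx b') DD, p none * ff p n b' ((xx x * zz ^ δ)⁻¹ * g))
    (fun _ _ => bot_le) (Finset.mem_univ b'))
  exact Finset.single_le_sum (f := fun δ => p none * ff p n b' ((xx x * zz ^ δ)⁻¹ * g))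
    (fun _ _ => bot_le) hδ

theorem AutoW_some (p : Blk → ℝ≥0∞) (n : ℕ) (i : Bool) (b' : Blk) (x y : Ltr N) {δ : ℤ}
    (hδ : δ ∈ dif (ctx b') TT) (g : FG N) :
    p (some i) * ff p n b' ((xx x * zz ^ (ee (!i) - ee i) * xx y * zz ^ δ)⁻¹ * g) ≤
      ff p (n + 1) (some i) g := by
  rw [ff]
  refine le_trans ?_ le_add_self
  refine le_trans ?_ (Finset.single_le_sum (f := fun x : Ltr N => ∑ y : Ltr N, ∑ b' : Blk,
    ∑ δ ∈ dif (ctx b') TT,
      p (some i) * ff p n b' ((xx x * zz ^ (ee (!i) - ee i) * xx y * zz ^ δ)⁻¹ * g))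
    (fun _ _ => bot_le) (Finset.mem_univ x))
  refine le_trans ?_ (Finset.single_le_sum (f := fun y : Ltr N => ∑ b' : Blk,
    ∑ δ ∈ dif (ctx b') TT,
      p (some i) * ff p n b' ((xx x * zz ^ (ee (!i) - ee i) * xx y * zz ^ δ)⁻¹ * g))
    (fun _ _ => bot_le) (Finset.mem_univ y))
  refine le_trans ?_ (Finset.single_le_sum (f := fun b' : Blk =>
    ∑ δ ∈ dif (ctx b') TT,
      p (some i) * ff p n b' ((xx x * zz ^ (ee (!i) - ee i) * xx y * zz ^ δ)⁻¹ * g))
    (fun _ _ => bot_le) (Finset.mem_univ b'))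
  exact Finset.single_le_sum (f := fun δ =>
      p (some i) * ff p n b' ((xx x * zz ^ (ee (!i) - ee i) * xx y * zz ^ δ)⁻¹ * g))
    (fun _ _ => bot_le) hδ

theorem AutoW_fin (p : Blk → ℝ≥0∞) (n : ℕ) (b : Blk) {g : FG N} (hg : g ∈ Fin0 N b) {t : ℝ}
    (ht : 0 ≤ t) : ENNReal.ofReal (Real.exp (-t)) ≤ ff p (n + 1) b g := by
  have h1 : ENNReal.ofReal (Real.exp (-t)) ≤ 1 := by
    rw [ENNReal.ofReal_le_one]
    exact Real.exp_le_one_iff.2 (by linarith)
  refine h1.trans ?_
  cases b with
  | none =>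
    rw [ff, Set.indicator_of_mem hg]
    exact le_self_add
  | some i =>
    rw [ff, Set.indicator_of_mem hg]
    exact le_self_add

theorem AutoW_ee {i j : Bool} (h : ee i = ee j) : i = j := by
  revert h
  cases i <;> cases j <;> simp [ee]

theorem AutoW_dif {A B : Finset ℤ} {x y : ℤ} (hx : x ∈ A) (hy : y ∈ B) : x - y ∈ dif A B :=
  Finset.mem_image.2 ⟨(x, y), Finset.mem_product.2 ⟨hx, hy⟩, rfl⟩

theorem AutoW_GJ {b a : ℤ} (h : GJ b a) (hb : b ∈ DD) : a ∈ DD := by
  rcases h with h | ⟨i, hi, _⟩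
  · exact h.2
  · exact absurd (hi ▸ hb) (ee_not_mem i)

theorem AutoW_GJe {k : Bool} {a : ℤ} (h : GJ (ee k) a) : a = ee (!k) := by
  rcases h with h | ⟨i, hi, h⟩
  · exact absurd h.1 (ee_not_mem k)
  · rw [h, AutoW_ee hi]

theorem AutoW_cost_nonneg {c g : ℝ} (hc : 0 ≤ c) (hg : 0 ≤ g) (l : List (Idx N)) :
    0 ≤ wcost (cw (th0 c g)) l := by
  apply wcost_nonneg
  intro i
  unfold cw th0
  split_ifs <;> assumption

/-- A good word whose first left context `a` is in `D` is counted.

Proof. Strong induction on the length of `l` (or: recursion on the list `i :: l`, resp.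
`i :: j :: l`). Let `p b = ofReal (exp (-(s cost)))`, cost `c` for `none`, `2 g` for `some i`;
let `(a, b)` be the pair and `x` the letter of the first piece `i`.
* `b ∈ D`, `l = []`: `zz^(-a) * gen i = xx x * zz^(-b) ∈ Fin0 none`, `exp (..) ≤ 1`.
* `b ∈ D`, `l ≠ []`: the next left context `a2` is in `D` (good junction, `ee_not_mem`); by
  induction `a2 ∈ ctx b'` and `exp (-(s cost l)) ≤ ff p l.length b' (zz^(-a2) * wval gen l)`;
  `zz^(-a) * wval gen (i :: l) = (xx x * zz^(a2 - b)) * (zz^(-a2) * wval gen l)`, the difference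
  `a2 - b ∈ dif (ctx b') DD`; keep only this term of the sum in `ff p (l.length + 1) none`.
* `b = ee k` (then `a ∈ T`): `l = []`: `xx x * zz^(-ee k) ∈ Fin0 (some k)`.
  `l = j :: l'`: the left context of `j` is `ee (!k)`, its right context `b2 ∈ T`; let `y` be its
  letter. `l' = []`: `zz^(-a) * gen i * gen j = xx x * zz^(ee (!k) - ee k) * xx y * zz^(-b2)` is in
  `Fin0 (some k)`. `l' ≠ []`: the left context `a3` of its head is in `D` (`b2 ∈ T ⊆ D`); by
  induction `exp (-(s cost l')) ≤ ff p l'.length b' (zz^(-a3) * wval gen l')`; the element is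
  `(xx x * zz^(ee (!k) - ee k) * xx y * zz^(a3 - b2)) * (zz^(-a3) * wval gen l')`,
  `a3 - b2 ∈ dif (ctx b') TT`; use `ff_mono` to go from `l'.length` to `l'.length + 1` steps.
The conclusion for `b = none` needs `a ∈ DD`, for `b = some k` it needs `a ∈ TT`. -/
theorem ff_word {c g s : ℝ} (hc : 0 ≤ c) (hg : 0 ≤ g) (hs : 0 ≤ s) (i : Idx N)
    (l : List (Idx N)) (hG : GW (i :: l)) (hi : i.2.1.1 ∈ DD) :
    ∃ b : Blk, i.2.1.1 ∈ ctx b ∧
      ENNReal.ofReal (Real.exp (-(s * wcost (cw (th0 c g)) (i :: l)))) ≤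
        ff (fun b => ENNReal.ofReal (Real.exp (-(s * b.elim c fun _ => 2 * g)))) (l.length + 1) b
          (zz ^ (-i.2.1.1) * wval gen (i :: l)) := by
  obtain ⟨n, hn⟩ : ∃ n, l.length < n := ⟨_, Nat.lt_succ_self _⟩
  induction n generalizing i l with
  | zero => exact absurd hn (Nat.not_lt_zero _)
  | succ n ih =>
    set Q : Blk → ℝ≥0∞ := fun b => ENNReal.ofReal (Real.exp (-(s * b.elim c fun _ => 2 * g)))
      with hQ
    obtain ⟨x, ⟨⟨a, b⟩, hab⟩⟩ := i
    simp only at hi ⊢
    have hcn : ∀ l : List (Idx N), 0 ≤ s * wcost (cw (th0 c g)) l := fun l =>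
      mul_nonneg hs (AutoW_cost_nonneg hc hg l)
    rcases mem_PP.1 hab with ⟨ha, hb⟩ | ⟨ha, hb⟩ | ⟨ha, hb⟩
    · -- an ordinary block
      refine ⟨none, ha, ?_⟩
      cases l with
      | nil =>
        refine AutoW_fin Q _ none ?_ (hcn _)
        refine ⟨x, b, hb, ?_⟩
        rw [wval_cons, wval_nil, gen]
        group
      | cons j l =>
        have hG' : GJ b j.2.1.1 ∧ GW (j :: l) := List.isChain_cons_cons.1 hG
        have ha2 : j.2.1.1 ∈ DD := AutoW_GJ hG'.1 hb
        have hn' : l.length < n := by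
          simp only [List.length_cons] at hn; omega
        obtain ⟨b', hb', hle⟩ := ih j l hG'.2 ha2 hn'
        have h1 := AutoW_none Q (l.length + 1) b' x (AutoW_dif hb' hb)
          (zz ^ (-a) * wval gen ((x, ⟨(a, b), hab⟩) :: j :: l))
        have h2 : (xx x * zz ^ (j.2.1.1 - b))⁻¹ *
            (zz ^ (-a) * wval gen ((x, ⟨(a, b), hab⟩) :: j :: l)) =
            zz ^ (-j.2.1.1) * wval gen (j :: l) := by
          rw [wval_cons gen (x, ⟨(a, b), hab⟩), gen]
          group
        rw [h2] at h1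
        have h3 : ENNReal.ofReal (Real.exp (-(s * wcost (cw (th0 c g))
            ((x, ⟨(a, b), hab⟩) :: j :: l)))) = Q none *
            ENNReal.ofReal (Real.exp (-(s * wcost (cw (th0 c g)) (j :: l)))) := by
          rw [hQ, ← ENNReal.ofReal_mul (Real.exp_pos _).le, ← Real.exp_add,
            wcost_cons (cw (th0 c g)) ((x, ⟨(a, b), hab⟩) : Idx N)]
          have : cw (th0 c g) ((x, ⟨(a, b), hab⟩) : Idx N) = c := by
            simp [cw, th0, ha, hb]
          rw [this]
          congr 2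
          simp only [Option.elim]
          ring
        rw [h3]
        exact (mul_le_mul_right hle _).trans h1
    · -- an exceptional block
      obtain ⟨k, rfl⟩ := mem_EE.1 hb
      refine ⟨some k, ha, ?_⟩
      cases l with
      | nil =>
        refine AutoW_fin Q _ (some k) ?_ (hcn _)
        refine Or.inl ⟨x, ?_⟩
        rw [wval_cons, wval_nil, gen]
        group
      | cons j l =>
        have hG' : GJ (ee k) j.2.1.1 ∧ GW (j :: l) := List.isChain_cons_cons.1 hG
        obtain ⟨y, ⟨⟨a2, b2⟩, hab2⟩⟩ := j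
        have ha2 : a2 = ee (!k) := AutoW_GJe hG'.1
        subst ha2
        have hb2 : b2 ∈ TT := by
          rcases mem_PP.1 hab2 with h | h | h
          · exact absurd h.1 (ee_not_mem _)
          · exact absurd (TT_sub_DD h.1) (ee_not_mem _)
          · exact h.2
        cases l with
        | nil =>
          refine AutoW_fin Q _ (some k) ?_ (hcn _)
          refine Or.inr ⟨x, y, b2, hb2, ?_⟩
          rw [wval_cons, wval_cons, wval_nil, gen, gen]
          group
        | cons m l =>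
          have hG2 : GJ b2 m.2.1.1 ∧ GW (m :: l) := List.isChain_cons_cons.1 hG'.2
          have ha3 : m.2.1.1 ∈ DD := AutoW_GJ hG2.1 (TT_sub_DD hb2)
          have hn' : l.length < n := by
            simp only [List.length_cons] at hn; omega
          obtain ⟨b', hb', hle⟩ := ih m l hG2.2 ha3 hn'
          have h1 := AutoW_some Q (l.length + 1 + 1) k b' x y (AutoW_dif hb' hb2)
            (zz ^ (-a) * wval gen ((x, ⟨(a, ee k), hab⟩) :: (y, ⟨(ee (!k), b2), hab2⟩) :: m :: l))
          have h2 : (xx x * zz ^ (ee (!k) - ee k) * xx y * zz ^ (m.2.1.1 - b2))⁻¹ *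
              (zz ^ (-a) * wval gen
                ((x, ⟨(a, ee k), hab⟩) :: (y, ⟨(ee (!k), b2), hab2⟩) :: m :: l)) =
              zz ^ (-m.2.1.1) * wval gen (m :: l) := by
            rw [wval_cons gen (x, ⟨(a, ee k), hab⟩), wval_cons gen (y, ⟨(ee (!k), b2), hab2⟩),
              gen, gen]
            group
          rw [h2] at h1
          have h3 : ENNReal.ofReal (Real.exp (-(s * wcost (cw (th0 c g))
              ((x, ⟨(a, ee k), hab⟩) :: (y, ⟨(ee (!k), b2), hab2⟩) :: m :: l)))) = Q (some k) *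
              ENNReal.ofReal (Real.exp (-(s * wcost (cw (th0 c g)) (m :: l)))) := by
            rw [hQ, ← ENNReal.ofReal_mul (Real.exp_pos _).le, ← Real.exp_add,
              wcost_cons (cw (th0 c g)) ((x, ⟨(a, ee k), hab⟩) : Idx N),
              wcost_cons (cw (th0 c g)) ((y, ⟨(ee (!k), b2), hab2⟩) : Idx N)]
            have e1 : cw (th0 c g) ((x, ⟨(a, ee k), hab⟩) : Idx N) = g := by
              simp [cw, th0, ee_not_mem]
            have e2 : cw (th0 c g) ((y, ⟨(ee (!k), b2), hab2⟩) : Idx N) = g := by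
              simp [cw, th0, ee_not_mem]
            rw [e1, e2]
            congr 2
            simp only [Option.elim]
            ring
          rw [h3]
          exact (mul_le_mul_right (hle.trans (ff_mono Q b' _ _)) _).trans h1
    · obtain ⟨k, rfl⟩ := mem_EE.1 ha
      exact absurd hi (ee_not_mem k)

end Pool.Agent.Lib.MP_422011_al
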