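import Pool.Agent.Lib.MP_422011_al.Gen

/-!
# JOB Avg (about 60 lines): averaging a weight over automorphisms does not increase the entropy
-/

namespace Pool.Agent.Lib.MP_422011_al

variable {G : Type*} [Group G] {ι : Type*} [Finite ι]

/-- Averaging. `φ k` are automorphisms of `G` mapping the generator `u i` to the generator
`u (σ k i)`, and `wb` is the average of the weights `w ∘ σ k`.

Proof. For `g : G` let `l` be a minimal word of `g` for the weight `wb` (`exists_min`; `wb > 0`).
`wlen wb g = wcost wb l = (∑ k, wcost w (l.map (σ k))) / card κ ≥ (∑ k, wlen w (φ k g)) / card κ`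
because `l.map (σ k)` spells `φ k g` (`map_list_prod`). Hence
`exp (-s wlen wb g) ≤ exp (∑ k, (1 / card κ) * (-s wlen w (φ k g)))
  ≤ (∑ k, exp (-s wlen w (φ k g))) / card κ` by convexity of `exp`
(`convexOn_exp.map_sum_le`). The right hand side is summable over `g`: a finite sum of summable
families reindexed by the bijections `φ k` (`(φ k).toEquiv.summable_iff` or
`Summable.comp_injective`). Conclude with `Summable.of_nonneg_of_le`. -/
theorem conv_avg {u : ι → G} {w : ι → ℝ} (hu : Gens u) (hw : ∀ i, 0 < w i)
    {κ : Type*} [Fintype κ] [Nonempty κ] (φ : κ → G ≃* G) (σ : κ → ι → ι)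
    (hσ : ∀ k i, u (σ k i) = φ k (u i)) (wb : ι → ℝ)
    (hwb : ∀ i, wb i = (∑ k, w (σ k i)) / Fintype.card κ) {s : ℝ} (hs : 0 ≤ s)
    (h : Conv u w s) : Conv u wb s := by
  have hc : (0 : ℝ) < Fintype.card κ := by exact_mod_cast Fintype.card_pos
  have hwb0 : ∀ i, 0 < wb i := fun i => by
    rw [hwb]
    exact div_pos (Finset.sum_pos (fun k _ => hw _) Finset.univ_nonempty) hc
  have e1 : ∀ l : List ι, wcost wb l = (∑ k, wcost w (l.map (σ k))) / Fintype.card κ := by
    intro l
    induction l with
    | nil => simp [wcost]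
    | cons i l ih =>
      rw [wcost_cons, ih, hwb, ← add_div, ← Finset.sum_add_distrib]
      congr 1
  have e2 : ∀ (k : κ) (l : List ι), wval u (l.map (σ k)) = φ k (wval u l) := by
    intro k l
    induction l with
    | nil => simp [wval]
    | cons i l ih => rw [List.map_cons, wval_cons, wval_cons, ih, hσ, map_mul]
  have hsum : Summable fun g : G => ∑ k, (1 / (Fintype.card κ : ℝ)) * Real.exp (-(s * wlen u w (φ k g))) := by
    apply summable_sum
    intro k _
    apply Summable.mul_left
    exact (φ k).toEquiv.summable_iff.2 h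
  refine Summable.of_nonneg_of_le (fun g => (Real.exp_pos _).le) (fun g => ?_) hsum
  obtain ⟨l, hl, hl'⟩ := exists_min hu hwb0 g
  have h1 : (∑ k, (1 / (Fintype.card κ : ℝ)) * wlen u w (φ k g)) ≤ wlen u wb g := by
    rw [← hl', e1, Finset.sum_div]
    apply Finset.sum_le_sum
    intro k _
    have h2 : wlen u w (φ k g) ≤ wcost w (l.map (σ k)) :=
      wlen_le (fun i => (hw i).le) (by rw [e2, hl])
    rw [one_div, inv_mul_eq_div]
    exact div_le_div_of_nonneg_right h2 hc.le
  have h3 := convexOn_exp.map_sum_le (t := (Finset.univ : Finset κ))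
    (w := fun _ => (1 / (Fintype.card κ : ℝ))) (p := fun k => -(s * wlen u w (φ k g)))
    (fun k _ => by positivity) (by
      rw [Finset.sum_const, Finset.card_univ, nsmul_eq_mul]
      field_simp) (fun k _ => Set.mem_univ _)
  simp only [smul_eq_mul] at h3
  refine le_trans (Real.exp_le_exp.2 ?_) h3
  have h4 : (∑ k : κ, (1 / (Fintype.card κ : ℝ)) * -(s * wlen u w (φ k g))) =
      -(s * ∑ k : κ, (1 / (Fintype.card κ : ℝ)) * wlen u w (φ k g)) := by
    rw [Finset.mul_sum, ← Finset.sum_neg_distrib]
    apply Finset.sum_congr rfl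
    intro k _
    ring
  rw [h4]
  have := mul_le_mul_of_nonneg_left h1 hs
  linarith

end Pool.Agent.Lib.MP_422011_al
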