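import Pool.Agent.Lib.MP_422011_al.Grp
import Pool.Agent.Lib.MP_422011_al.Avg

/-!
# JOB Cls (about 100 lines): averaging over the signed letters
-/

namespace Pool.Agent.Lib.MP_422011_al

variable {N : ℕ}

attribute [local irreducible] PP

/-- the endomorphism which shifts the letters -/
private noncomputable def clsF [NeZero N] (j : Fin N) (e : Bool) : FG N →* FG N :=
  FreeGroup.lift (fun o => o.elim zz (fun i => xx (i + j, e)))

private theorem clsF_zz [NeZero N] (j : Fin N) (e : Bool) : clsF j e zz = zz := by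
  unfold clsF
  exact FreeGroup.lift_apply_of

private theorem cls_xx_true (i : Fin N) : xx (i, true) = (FreeGroup.of (some i) : FG N) := rfl

private theorem cls_xx_false (i : Fin N) : xx (i, false) = (xx (i, true) : FG N)⁻¹ := by
  rw [← xx_linv]
  rfl

private theorem clsF_xx_true [NeZero N] (j : Fin N) (e : Bool) (i : Fin N) :
    clsF j e (xx (i, true)) = xx (i + j, e) := by
  rw [cls_xx_true]
  unfold clsF
  exact FreeGroup.lift_apply_of

private theorem clsF_xx [NeZero N] (j : Fin N) (e : Bool) (i : Fin N) (b : Bool) :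
    clsF j e (xx (i, b)) = xx (i + j, b == e) := by
  cases b with
  | true =>
    rw [clsF_xx_true]
    cases e <;> rfl
  | false =>
    rw [cls_xx_false, map_inv, clsF_xx_true, ← xx_linv]
    cases e <;> rfl

private theorem clsF_comp [NeZero N] (j j' : Fin N) (e : Bool) (h : j' + j = 0) :
    (clsF j e).comp (clsF j' e) = MonoidHom.id (FG N) := by
  refine FreeGroup.ext_hom _ _ fun o => ?_
  rw [MonoidHom.comp_apply, MonoidHom.id_apply]
  cases o with
  | none =>
    show clsF j e (clsF j' e zz) = zz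
    rw [clsF_zz, clsF_zz]
  | some i =>
    rw [← cls_xx_true, clsF_xx_true, clsF_xx, add_assoc, h, add_zero]
    cases e <;> rfl

/-- A simply transitive family of automorphisms. For `k = (j, e) : ZMod N × Bool`
(`haveI : NeZero N`) or simply `k : Fin N × Bool` with addition of `Fin N`
(`haveI : NeZero N := ⟨by omega⟩`), `φ k` fixes `z` and sends the letter `(i, true)` to
`(i + j, e)`, hence `xx (i, b)` to `xx (i + j, if e then b else !b)`. Construct `φ k` as a
`MulEquiv` with `FreeGroup.lift` in both directions (`MonoidHom.toMulEquiv`,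
`FreeGroup.ext_hom`), or as the composition of `FreeGroup.freeGroupCongr` of a permutation with the
involution `lift (fun o => o.elim (of none) (fun i => (of (some i))⁻¹))`.
`σ k x` is the induced permutation of the signed letters; for fixed `x`, `k ↦ σ k x` is a bijection
`Fin N × Bool → Ltr N`; for fixed `k`, `σ k (linv x) = linv (σ k x)`. -/
theorem exists_aut (hN : 1 ≤ N) : ∃ (φ : Ltr N → FG N ≃* FG N) (σ : Ltr N → Ltr N → Ltr N),
    (∀ k, φ k zz = zz) ∧ (∀ k x, φ k (xx x) = xx (σ k x)) ∧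
      ∀ x, Function.Bijective fun k => σ k x := by
  haveI : NeZero N := ⟨by omega⟩
  refine ⟨fun k => MonoidHom.toMulEquiv (clsF k.1 k.2) (clsF (-k.1) k.2)
    (clsF_comp _ _ _ (by simp)) (clsF_comp _ _ _ (by simp)),
    fun k x => (x.1 + k.1, x.2 == k.2), fun k => clsF_zz k.1 k.2, fun k x => clsF_xx k.1 k.2 x.1 x.2,
    fun x => ?_⟩
  constructor
  · rintro ⟨j, e⟩ ⟨j', e'⟩ h
    simp only [Prod.mk.injEq] at h
    have h1 : j = j' := add_left_cancel h.1
    have h2 : e = e' := by
      have := h.2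
      revert this
      cases x.2 <;> cases e <;> cases e' <;> decide
    rw [h1, h2]
  · rintro ⟨j, e⟩
    refine ⟨(j - x.1, x.2 == e), ?_⟩
    simp only [Prod.mk.injEq]
    refine ⟨by simp, ?_⟩
    cases x.2 <;> cases e <;> decide

/-- Averaging over letters. Proof: `θ p = (∑ x, w (x, p)) / (2 N)` for `p ∈ PP`, `θ p = 1`
otherwise. `θ` is symmetric because `w (x, (a, b)) = w (linv x, (b, a))` (`hsym`, `iinv`) and
`linv` is a bijection of `Ltr N`. The sum formula: `Fintype.sum_prod_type` (right), the sum over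
the subtype `{p // p ∈ PP}` is `∑ p ∈ PP` (`Finset.sum_coe_sort` or `Finset.sum_attach`),
`Fintype.card (Ltr N) = 2 N`. Convergence: `conv_avg` with `κ = Ltr N`, `φ` from `exists_aut`,
`σ' k (x, p) = (σ k x, p)`: `gen (σ' k i) = φ k (gen i)` since `φ k` fixes `zz` (`map_zpow`), and
`(∑ k, w (σ k x, p)) / (2 N) = θ p` by the bijectivity of `k ↦ σ k x` (`Function.Bijective.sum_comp`). -/
theorem class_avg (hN : 1 ≤ N) (w : Idx N → ℝ) (hw : ∀ i, 0 < w i)
    (hsym : ∀ i, w (iinv i) = w i) :
    ∃ θ : ℤ × ℤ → ℝ, Sym θ ∧ (∀ p ∈ PP, 0 < θ p) ∧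
      (∑ i, w i = 2 * N * ∑ p ∈ PP, θ p) ∧
      ∀ s, 0 ≤ s → Conv gen w s → Conv (gen (N := N)) (cw θ) s := by
  classical
  obtain ⟨φ, σ, h1, h2, h3⟩ := exists_aut hN
  haveI : Nonempty (Ltr N) := ⟨(⟨0, hN⟩, true)⟩
  have hN0 : (0 : ℝ) < 2 * N := by
    have : (0 : ℝ) < N := by exact_mod_cast hN
    linarith
  have hpos : ∀ (y : {p : ℤ × ℤ // p ∈ PP}), 0 < (∑ x : Ltr N, w (x, y)) / (2 * N) := fun y =>
    div_pos (Finset.sum_pos (fun x _ => hw _) Finset.univ_nonempty) hN0
  set θ : ℤ × ℤ → ℝ := fun p => if h : p ∈ PP then (∑ x : Ltr N, w (x, ⟨p, h⟩)) / (2 * N) else 1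
    with hθ
  have hval : ∀ (y : {p : ℤ × ℤ // p ∈ PP}), θ y.1 = (∑ x : Ltr N, w (x, y)) / (2 * N) := by
    intro y
    simp only [hθ]
    rw [dif_pos y.2]
  refine ⟨θ, ?_, ?_, ?_, ?_⟩
  · intro a b
    by_cases hab : (a, b) ∈ PP
    · have hba := pair_swap hab
      have e1 := hval ⟨(a, b), hab⟩
      have e2 := hval ⟨(b, a), hba⟩
      simp only at e1 e2
      rw [e1, e2]
      congr 1
      have hinv : Function.Involutive (linv : Ltr N → Ltr N) := fun x => by simp [linv]
      rw [← Equiv.sum_comp hinv.toPerm (fun x => w (x, ⟨(b, a), hba⟩))]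
      refine Finset.sum_congr rfl fun x _ => ?_
      exact (hsym (x, ⟨(a, b), hab⟩)).symm
    · have hba : (b, a) ∉ PP := fun h => hab (pair_swap h)
      simp only [hθ]
      rw [dif_neg hab, dif_neg hba]
  · intro p hp
    have := hpos ⟨p, hp⟩
    rw [← hval] at this
    exact this
  · rw [Fintype.sum_prod_type_right, Finset.sum_subtype PP (p := fun p => p ∈ PP) (fun x => Iff.rfl) θ,
      Finset.mul_sum]
    refine Finset.sum_congr rfl fun y _ => ?_
    rw [hval y]
    field_simp
  · intro s hs hc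
    refine conv_avg (gens_gen hN) hw φ (fun k i => (σ k i.1, i.2)) ?_ (cw θ) ?_ hs hc
    · intro k i
      simp only [gen, map_mul, map_zpow, h1, h2]
    · intro i
      show θ i.2.1 = _
      rw [hval]
      have e1 : (Fintype.card (Ltr N) : ℝ) = 2 * N := by
        simp [mul_comm]
      rw [e1]
      congr 1
      exact ((h3 i.1).sum_comp (fun x => w (x, i.2))).symm

end Pool.Agent.Lib.MP_422011_al
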