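import Pool.Agent.Lib.MP_422011_al.Grp

/-!
# JOB Coer (about 80 lines): lower bound for the weights
-/

namespace Pool.Agent.Lib.MP_422011_al

variable {N : ℕ}

theorem coer_reduce {α : Type*} [DecidableEq α] (l : List α) :
    FreeGroup.reduce (l.map fun x => (x, true)) = l.map fun x => (x, true) := by
  induction l with
  | nil => rfl
  | cons x l ih =>
    rw [List.map_cons, FreeGroup.reduce.cons, ih]
    cases l with
    | nil => rfl
    | cons y l => simp

theorem coer_mk {α : Type*} (l : List α) :
    (l.map fun x => FreeGroup.of x).prod = FreeGroup.mk (l.map fun x => (x, true)) := by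
  induction l with
  | nil => rfl
  | cons x l ih =>
    rw [List.map_cons, List.prod_cons, ih, List.map_cons, FreeGroup.of, FreeGroup.mul_mk]
    rfl

theorem coer_inj {α : Type*} : Function.Injective fun l : List α =>
    (l.map fun x => FreeGroup.of x).prod := by
  classical
  intro l m h
  simp only [coer_mk] at h
  have h2 := congrArg FreeGroup.toWord h
  rw [FreeGroup.toWord_mk, FreeGroup.toWord_mk, coer_reduce, coer_reduce] at h2
  exact List.map_injective_iff.2 (fun x y hxy => (Prod.mk.inj hxy).1) h2

/-- the homomorphism that kills `z` -/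
def coer_psi (N : ℕ) : FG N →* FreeGroup (Fin N) :=
  FreeGroup.lift (fun o => o.elim 1 (fun i => FreeGroup.of i))

theorem coer_psi_gen {a b : ℤ} (h : (a, b) ∈ PP) (i : Fin N) :
    coer_psi N (gen (ix (i, true) h)) = FreeGroup.of i := by
  have hz : coer_psi N zz = 1 := by
    simp [coer_psi, zz]
  have hx : coer_psi N (xx (i, true)) = FreeGroup.of i := by
    have : (xx (i, true) : FG N) = FreeGroup.of (some i) := rfl
    rw [this]
    simp [coer_psi]
  rw [gen_ix, map_mul, map_mul, map_zpow, map_zpow, hz, hx]
  simp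

/-- The `2^k` products of `k` factors from the two generators `z^a x_0 z^(-b)`, `z^a x_1 z^(-b)` are
distinct. Proof: apply the homomorphism `FreeGroup.lift` to `FreeGroup (Fin 2)`-like target which
kills `z` and keeps the letters (e.g. `FreeGroup.lift (fun o => o.elim 1 (fun i => FreeGroup.of i))`):
the image of the product is `mk` of the positive word `[(x_{i1}, true), …]`, and positive words are
reduced (`FreeGroup.IsReduced`, `FreeGroup.IsReduced.reduce_eq`, `FreeGroup.toWord_mk`), so the
word is recovered from the product. -/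
theorem pos_inj (hN : 2 ≤ N) {a b : ℤ} (h : (a, b) ∈ PP) :
    Function.Injective fun l : List Bool =>
      wval (gen (N := N)) (l.map fun c => ix ((if c then ⟨1, hN⟩ else ⟨0, by omega⟩ : Fin N), true) h) := by
  intro l m hlm
  have key : ∀ l : List Bool, coer_psi N (wval (gen (N := N))
      (l.map fun c => ix ((if c then ⟨1, hN⟩ else ⟨0, by omega⟩ : Fin N), true) h))
      = ((l.map fun c => (if c then ⟨1, hN⟩ else ⟨0, by omega⟩ : Fin N)).map
          fun x => FreeGroup.of x).prod := by
    intro l
    induction l with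
    | nil => simp [wval]
    | cons c l ih =>
      rw [List.map_cons, wval_cons, map_mul, ih, coer_psi_gen, List.map_cons, List.map_cons,
        List.prod_cons]
  have h1 := congrArg (coer_psi N) hlm
  simp only [key] at h1
  have h2 := coer_inj h1
  refine List.map_injective_iff.2 ?_ h2
  intro c d hcd
  cases c <;> cases d <;> simp_all [Fin.ext_iff]

/-- Coercivity.

Proof. Let `C = ∑' g, exp (-(s wlen g))`. For `k : ℕ` the `2^k` elements of `pos_inj` with
`l : List.Vector Bool k` (or `l = List.ofFn f`, `f : Fin k → Bool`) satisfy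
`wlen g ≤ k * θ (a, b)` (`wlen_le`), so
`2^k * exp (-(s k θ(a,b))) ≤ C` (`Summable.sum_le_tsum` over the image finset, or injective
`tsum` comparison). If `s θ(a,b) < log 2` then `2 exp (-(s θ(a,b))) > 1` and the powers are
unbounded (`tendsto_pow_atTop_atTop_of_one_lt`), a contradiction. -/
theorem coer (hN : 2 ≤ N) {θ : ℤ × ℤ → ℝ} (hθ : ∀ p ∈ PP, 0 < θ p) {s : ℝ} (hs : 0 < s)
    (h : Conv (gen (N := N)) (cw θ) s) : ∀ p ∈ PP, Real.log 2 ≤ s * θ p := by
  classical
  rintro ⟨a, b⟩ hp
  by_contra hc
  push Not at hc
  set x : ℝ := s * θ (a, b) with hx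
  set C : ℝ := ∑' g : FG N, Real.exp (-(s * wlen (gen (N := N)) (cw θ) g)) with hC
  have hr : 1 < 2 * Real.exp (-x) := by
    have h1 : Real.exp x < 2 := by
      calc Real.exp x < Real.exp (Real.log 2) := Real.exp_lt_exp.2 hc
        _ = 2 := Real.exp_log (by norm_num)
    have h2 : Real.exp (-x) * Real.exp x = 1 := by rw [← Real.exp_add]; simp
    nlinarith [Real.exp_pos (-x)]
  let W : List Bool → FG N := fun l =>
      wval (gen (N := N)) (l.map fun c => ix ((if c then ⟨1, hN⟩ else ⟨0, by omega⟩ : Fin N), true) hp)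
  have hW : Function.Injective W := pos_inj hN hp
  have hlen : ∀ l : List Bool, wlen (gen (N := N)) (cw θ) (W l) ≤ l.length * θ (a, b) := by
    intro l
    have h1 : wcost (cw θ) (l.map fun c =>
        ix ((if c then ⟨1, hN⟩ else ⟨0, by omega⟩ : Fin N), true) hp) = l.length * θ (a, b) := by
      induction l with
      | nil => simp [wcost]
      | cons c l ih =>
        rw [List.map_cons, wcost_cons, ih, cw_ix, List.length_cons]
        push_cast
        ring
    rw [← h1]
    exact wlen_le (fun i => cw_nonneg hθ i) rfl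
  have hbound : ∀ k : ℕ, (2 * Real.exp (-x)) ^ k ≤ C := by
    intro k
    let F : (Fin k → Bool) → FG N := fun f => W (List.ofFn f)
    have hF : Function.Injective F := hW.comp List.ofFn_injective
    have h1 : ∑ g ∈ Finset.univ.image F, Real.exp (-(s * wlen (gen (N := N)) (cw θ) g)) ≤ C :=
      h.sum_le_tsum _ (fun g _ => (Real.exp_pos _).le)
    rw [Finset.sum_image (fun f _ f' _ e => hF e)] at h1
    refine le_trans ?_ h1
    have h2 : ∀ f ∈ (Finset.univ : Finset (Fin k → Bool)), Real.exp (-x) ^ k
        ≤ Real.exp (-(s * wlen (gen (N := N)) (cw θ) (F f))) := by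
      intro f _
      rw [← Real.exp_nat_mul]
      apply Real.exp_le_exp.2
      have h3 := hlen (List.ofFn f)
      rw [List.length_ofFn] at h3
      have h4 : s * wlen (gen (N := N)) (cw θ) (F f) ≤ s * (k * θ (a, b)) :=
        mul_le_mul_of_nonneg_left h3 hs.le
      have h5 : (k : ℝ) * -x = -(s * (k * θ (a, b))) := by rw [hx]; ring
      rw [h5]
      linarith
    have h6 := Finset.card_nsmul_le_sum _ _ _ h2
    rw [Finset.card_univ, Fintype.card_fun, Fintype.card_bool, Fintype.card_fin, nsmul_eq_mul] at h6
    rw [mul_pow]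
    push_cast at h6
    exact h6
  have ht := tendsto_pow_atTop_atTop_of_one_lt hr
  obtain ⟨k, hk⟩ := (ht.eventually_gt_atTop C).exists
  exact absurd (hbound k) (not_le.2 hk)

/-- For good class weights all values are at least `log 2` (let `s → 1` in `coer`). -/
theorem good_ge (hN : 2 ≤ N) {θ : ℤ × ℤ → ℝ} (h : Good N θ) : ∀ p ∈ PP, Real.log 2 ≤ θ p := by
  intro p hp
  apply le_of_forall_pos_le_add
  intro ε hε
  have hpos : 0 < θ p := h.2.1 p hp
  have hs : 1 < 1 + ε / θ p := by
    have : 0 < ε / θ p := div_pos hε hpos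
    linarith
  have h1 := coer hN h.2.1 (by linarith) (h.2.2 _ hs) p hp
  have h2 : (1 + ε / θ p) * θ p = θ p + ε := by
    field_simp
  linarith

end Pool.Agent.Lib.MP_422011_al
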