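import Pool.Agent.Lib.MP_422011_al.CplD

/-!
# Properties of the coupling matrices

The integer identities are in `Tab.lean`; they are cast to `ℝ` here.
-/

namespace Pool.Agent.Lib.MP_422011_al

/-- There are parameters: the explicit square root. -/
theorem exists_par : ∃ r β : ℝ, Par r β := by
  have hs : Real.sqrt 2299008 ^ 2 = 2299008 := Real.sq_sqrt (by norm_num)
  have h1 : (1515 : ℝ) < Real.sqrt 2299008 := by
    rw [Real.lt_sqrt (by norm_num)]; norm_num
  have h2 : Real.sqrt 2299008 < 1518 := by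
    rw [Real.sqrt_lt' (by norm_num)]; norm_num
  set q := Real.sqrt 2299008 with hq
  refine ⟨(1488 + q) / 3264, 1 / (1536 * ((1488 + q) / 3264) + 13), ?_, ?_, ?_, ?_⟩
  · rw [lt_div_iff₀ (by norm_num)]; norm_num; linarith
  · rw [div_lt_iff₀ (by norm_num)]; norm_num; linarith
  · have : 1632 * ((1488 + q) / 3264) ^ 2 - 1488 * ((1488 + q) / 3264) - 13 =
        (q ^ 2 - 2299008) / 6528 := by ring
    rw [this, hs]; norm_num
  · apply one_div_mul_cancel
    have : 0 < 1536 * ((1488 + q) / 3264) + 13 := by linarith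
    exact this.ne'

variable {r β : ℝ}

theorem Par.beta_pos (h : Par r β) : 0 < β := by
  have h1 : 0 < 1536 * r + 13 := by linarith [h.h1]
  by_contra hb
  push Not at hb
  have := mul_nonpos_of_nonpos_of_nonneg hb h1.le
  linarith [h.h4]

/-- `51 α + 48 β r = 1` (from `h3`, `h4`; `α = 32 β r^2`). -/
theorem Par.e1 (h : Par r β) : 51 * (32 * β * r ^ 2) + 48 * (β * r) = 1 := by
  have h3 := h.h3
  have h4 := h.h4
  have : 51 * (32 * β * r ^ 2) + 48 * (β * r) =
      β * (1632 * r ^ 2 - 1488 * r - 13) + β * (1536 * r + 13) := by ring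
  rw [this, h3, h4]; ring

theorem Par.beta_ge (h : Par r β) : 1 / 1428 ≤ β := by
  have hb := h.beta_pos
  have h4 := h.h4
  have h2 := h.h2
  nlinarith

/-- `qq > 0`. -/
theorem qq_pos (h : Par r β) (b b' : Blk) : 0 < qq r β b b' := by
  have hb := h.beta_pos
  have hr : 0 < r := by linarith [h.h1]
  cases b <;> cases b' <;> simp only [qq] <;> positivity

theorem MM_nonneg (h : Par r β) (b b' : Blk) (y x : ℤ) : 0 ≤ MM r β b b' y x := by
  have hb := h.beta_pos
  have hr : 0 < r := by linarith [h.h1]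
  have hr2 : 0 ≤ r ^ 2 - r / 17 := by nlinarith [h.h1]
  cases b <;> cases b' <;> simp only [MM]
  · positivity
  · positivity
  · positivity
  · split_ifs <;> positivity

theorem cls_real (A B : Finset ℤ) (F : ℤ → ℤ → ℕ) (δ : ℤ) :
    ∑ y ∈ A, ∑ x ∈ B, (if x - y = δ then (F y x : ℝ) else 0) =
      ((∑ y ∈ A, ∑ x ∈ B, (if x - y = δ then F y x else 0) : ℕ) : ℝ) := by
  push_cast
  rfl

/-- Outside the range of differences the sum vanishes. -/
theorem cls_zero {A B : Finset ℤ} (hA : ∀ y ∈ A, y ∈ DD) (hB : ∀ x ∈ B, x ∈ DD)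
    (F : ℤ → ℤ → ℝ) {δ : ℤ} (hδ : δ ∉ Finset.Icc (-26 : ℤ) 26) :
    ∑ y ∈ A, ∑ x ∈ B, (if x - y = δ then F y x else 0) = 0 := by
  refine Finset.sum_eq_zero fun y hy => Finset.sum_eq_zero fun x hx => ?_
  rw [if_neg]
  intro h
  exact hδ (h ▸ diff_range y (hA y hy) x (hB x hx))

theorem cls_U1 (δ : ℤ) :
    ∑ y ∈ DD, ∑ x ∈ DD, (if x - y = δ then (U1 y x : ℝ) else 0) ≤ 32 := by
  by_cases hδ : δ ∈ Finset.Icc (-26 : ℤ) 26
  · rw [cls_real]; exact_mod_cast U1_cls δ hδ
  · rw [cls_zero (fun _ h => h) (fun _ h => h) (fun y x => (U1 y x : ℝ)) hδ]; norm_num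

theorem cls_U2 (δ : ℤ) :
    ∑ y ∈ DD, ∑ x ∈ DD, (if x - y = δ then (U2 y x : ℝ) else 0) ≤ 32 := by
  by_cases hδ : δ ∈ Finset.Icc (-26 : ℤ) 26
  · rw [cls_real]; exact_mod_cast U2_cls δ hδ
  · rw [cls_zero (fun _ h => h) (fun _ h => h) (fun y x => (U2 y x : ℝ)) hδ]; norm_num

theorem cls_VV (δ : ℤ) :
    ∑ y ∈ DD, ∑ x ∈ TT, (if x - y = δ then (VV y x : ℝ) else 0) ≤ 1 := by
  by_cases hδ : δ ∈ Finset.Icc (-26 : ℤ) 26
  · rw [cls_real]; exact_mod_cast VV_cls δ hδ
  · rw [cls_zero (fun _ h => h) TT_range (fun y x => (VV y x : ℝ)) hδ]; norm_num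

theorem EE_cls : ∀ δ ∈ Finset.Icc (-26 : ℤ) 26,
    ∑ y ∈ TT, ∑ x ∈ TT, (if x - y = δ then (if x = y then 1 else 4) else 0) ≤ 4 := by
  decide +kernel

theorem cls_EE (δ : ℤ) :
    ∑ y ∈ TT, ∑ x ∈ TT, (if x - y = δ then (if x = y then (1 : ℝ) else 4) else 0) ≤ 4 := by
  by_cases hδ : δ ∈ Finset.Icc (-26 : ℤ) 26
  · have h := cls_real TT TT (fun y x => if x = y then 1 else 4) δ
    push_cast at h
    rw [h]
    exact_mod_cast EE_cls δ hδ
  · rw [cls_zero TT_range TT_range (fun y x => if x = y then (1 : ℝ) else 4) hδ]; norm_num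

/-- (F1). -/
theorem cpl_F1 (h : Par r β) (b b' : Blk) (δ : ℤ) :
    ∑ y ∈ ctx b, ∑ x ∈ ctx b', (if x - y = δ then MM r β b b' y x else 0) ≤ qq r β b b' := by
  have hb := h.beta_pos
  have hr : 0 < r := by linarith [h.h1]
  have hr2 : 0 ≤ r ^ 2 - r / 17 := by nlinarith [h.h1]
  cases b with
  | none =>
    cases b' with
    | none =>
      have e : ∑ y ∈ ctx none, ∑ x ∈ ctx none,
          (if x - y = δ then MM r β none none y x else 0) =
          β * (r ^ 2 - r / 17) *
            (∑ y ∈ DD, ∑ x ∈ DD, (if x - y = δ then (U1 y x : ℝ) else 0)) +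
          β * (r / 17) *
            (∑ y ∈ DD, ∑ x ∈ DD, (if x - y = δ then (U2 y x : ℝ) else 0)) := by
        rw [Finset.mul_sum, Finset.mul_sum, ← Finset.sum_add_distrib]
        refine Finset.sum_congr rfl fun y _ => ?_
        rw [Finset.mul_sum, Finset.mul_sum, ← Finset.sum_add_distrib]
        refine Finset.sum_congr rfl fun x _ => ?_
        split_ifs
        · simp only [MM]; ring
        · ring
      rw [e]
      have h1 := mul_le_mul_of_nonneg_left (cls_U1 δ) (show 0 ≤ β * (r ^ 2 - r / 17) by positivity)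
      have h2 := mul_le_mul_of_nonneg_left (cls_U2 δ) (show 0 ≤ β * (r / 17) by positivity)
      simp only [qq]
      calc _ ≤ β * (r ^ 2 - r / 17) * 32 + β * (r / 17) * 32 := add_le_add h1 h2
        _ = 32 * β * r ^ 2 := by ring
        _ ≤ _ := le_rfl
    | some i =>
      have e : ∑ y ∈ ctx none, ∑ x ∈ ctx (some i),
          (if x - y = δ then MM r β none (some i) y x else 0) =
          β * r / 2 *
            (∑ y ∈ DD, ∑ x ∈ TT, (if x - y = δ then (VV y x : ℝ) else 0)) := by
        rw [Finset.mul_sum]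
        refine Finset.sum_congr rfl fun y _ => ?_
        rw [Finset.mul_sum]
        refine Finset.sum_congr rfl fun x _ => ?_
        split_ifs
        · simp only [MM]
        · ring
      rw [e]
      have h1 := mul_le_mul_of_nonneg_left (cls_VV δ) (show 0 ≤ β * r / 2 by positivity)
      simp only [qq]
      linarith
  | some i =>
    cases b' with
    | none =>
      have e : ∑ y ∈ ctx (some i), ∑ x ∈ ctx none,
          (if x - y = δ then MM r β (some i) none y x else 0) =
          32 * β * r *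
            (∑ y ∈ DD, ∑ x ∈ TT, (if x - y = -δ then (VV y x : ℝ) else 0)) := by
        rw [Finset.sum_comm, Finset.mul_sum]
        refine Finset.sum_congr rfl fun y _ => ?_
        rw [Finset.mul_sum]
        refine Finset.sum_congr rfl fun x _ => ?_
        have hiff : (y - x = δ) ↔ (x - y = -δ) := by constructor <;> intro hh <;> linarith
        simp only [hiff]
        split_ifs
        · simp only [MM]
        · ring
      rw [e]
      have h1 := mul_le_mul_of_nonneg_left (cls_VV (-δ)) (show 0 ≤ 32 * β * r by positivity)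
      simp only [qq]
      linarith
    | some j =>
      have e : ∑ y ∈ ctx (some i), ∑ x ∈ ctx (some j),
          (if x - y = δ then MM r β (some i) (some j) y x else 0) =
          β / 8 * (∑ y ∈ TT, ∑ x ∈ TT,
            (if x - y = δ then (if x = y then (1 : ℝ) else 4) else 0)) := by
        rw [Finset.mul_sum]
        refine Finset.sum_congr rfl fun y _ => ?_
        rw [Finset.mul_sum]
        refine Finset.sum_congr rfl fun x _ => ?_
        simp only [MM]
        split_ifs <;> ring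
      rw [e]
      have h1 := mul_le_mul_of_nonneg_left (cls_EE δ) (show 0 ≤ β / 8 by positivity)
      simp only [qq]
      linarith

/-- Row sums of `MM none none`. -/
theorem row_SS {y : ℤ} (hy : y ∈ DD) : ∑ x ∈ DD, MM r β none none y x =
    β * ((r ^ 2 - r / 17) * 102 + r / 17 * (153 - 17 * rV y)) := by
  have h1 : (∑ x ∈ DD, (U1 y x : ℝ)) = 102 := by exact_mod_cast U1_row y hy
  have h2 : (∑ x ∈ DD, (U2 y x : ℝ)) + 17 * rV y = 153 := by exact_mod_cast U2_row y hy
  have h2' : (∑ x ∈ DD, (U2 y x : ℝ)) = 153 - 17 * rV y := by linarith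
  simp only [MM]
  rw [← Finset.mul_sum, Finset.sum_add_distrib, ← Finset.mul_sum, ← Finset.mul_sum, h1, h2']

theorem row_SE (i : Bool) (y : ℤ) : ∑ x ∈ TT, MM r β none (some i) y x =
    β * r / 2 * rV y := by
  simp only [MM, rV]
  rw [← Finset.mul_sum]
  push_cast
  rfl

theorem row_ES (i : Bool) {y : ℤ} (hy : y ∈ TT) : ∑ x ∈ DD, MM r β (some i) none y x =
    32 * β * r * 12 := by
  have h1 : (∑ x ∈ DD, (VV x y : ℝ)) = 12 := by exact_mod_cast VV_col y hy
  simp only [MM]
  rw [← Finset.mul_sum, h1]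

theorem row_EE (i j : Bool) {y : ℤ} (hy : y ∈ TT) : ∑ x ∈ TT, MM r β (some i) (some j) y x =
    13 * β / 8 := by
  simp only [MM]
  simp only [TT, Finset.mem_insert, Finset.mem_singleton] at hy
  rcases hy with rfl | rfl | rfl | rfl <;>
  · rw [TT, Finset.sum_insert (by decide), Finset.sum_insert (by decide),
      Finset.sum_insert (by decide), Finset.sum_singleton]
    norm_num
    ring

theorem col_EE (i j : Bool) {x : ℤ} (hx : x ∈ TT) : ∑ y ∈ TT, MM r β (some i) (some j) y x =
    13 * β / 8 := by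
  rw [← row_EE (r := r) (β := β) i j hx]
  refine Finset.sum_congr rfl fun y _ => ?_
  simp only [MM, eq_comm]

theorem col_SS {x : ℤ} (hx : x ∈ DD) : ∑ y ∈ DD, MM r β none none y x =
    β * ((r ^ 2 - r / 17) * 102 + r / 17 * (153 - 17 * rV x)) := by
  rw [← row_SS hx]
  refine Finset.sum_congr rfl fun y hy => ?_
  simp only [MM]
  rw [U1_sym y hy x hx, U2_sym y hy x hx]

theorem sum_blk (f : Blk → ℝ) : ∑ b : Blk, f b = f none + (f (some false) + f (some true)) := by
  rw [Fintype.sum_option, Fintype.sum_bool]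
  ring

theorem base_id (h : Par r β) : β * (102 * r ^ 2 + 3 * r) = 1 / 16 := by
  have := h.e1
  linarith

/-- (F2) for `none`. -/
theorem cpl_F2S (h : Par r β) {y : ℤ} (hy : y ∈ DD) :
    ∑ b' : Blk, ∑ x ∈ ctx b', MM r β none b' y x = 1 / 16 := by
  rw [sum_blk]
  simp only [ctx]
  rw [row_SS hy, row_SE, row_SE, ← base_id h]
  ring

/-- (F2) for `some i`. -/
theorem cpl_F2E (h : Par r β) (i : Bool) {y : ℤ} (hy : y ∈ TT) :
    ∑ b' : Blk, ∑ x ∈ ctx b', MM r β (some i) b' y x = 1 / 4 := by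
  rw [sum_blk]
  simp only [ctx]
  rw [row_ES i hy, row_EE _ _ hy, row_EE _ _ hy]
  linarith [h.h4]

/-- (F3): balance. -/
theorem cpl_F3 (h : Par r β) (b' : Blk) {x : ℤ} (hx : x ∈ ctx b') :
    ∑ b : Blk, pb b * ∑ y ∈ ctx b, MM r β b b' y x = pc b' := by
  rw [sum_blk]
  cases b' with
  | none =>
    have hx' : x ∈ DD := hx
    simp only [ctx, pb, pc]
    rw [col_SS hx']
    have h1 : ∀ i, ∑ y ∈ TT, MM r β (some i) none y x = 32 * β * r * rV x := by
      intro i
      simp only [MM, rV]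
      rw [← Finset.mul_sum]
      push_cast
      rfl
    rw [h1, h1, ← base_id h]
    ring
  | some j =>
    have hx' : x ∈ TT := hx
    simp only [ctx, pb, pc]
    rw [col_EE _ _ hx', col_EE _ _ hx']
    have h1 : ∑ y ∈ DD, MM r β none (some j) y x = β * r / 2 * 12 := by
      have h1 : (∑ y ∈ DD, (VV y x : ℝ)) = 12 := by exact_mod_cast VV_col x hx'
      simp only [MM]
      rw [← Finset.mul_sum, h1]
    rw [h1]
    linarith [h.h4]

/-- (F4): the diagonal entries are bounded below. -/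
theorem cpl_F4S (h : Par r β) {x : ℤ} (hx : x ∈ DD) : 1 / 12000 ≤ MM r β none none x x := by
  have hb := h.beta_ge
  have hr := h.h1
  have h1 : (1 : ℝ) ≤ U1 x x := by exact_mod_cast U1_diag x hx
  have h2 : (0 : ℝ) ≤ U2 x x := by positivity
  have h3 : 1 / 2 ≤ r ^ 2 - r / 17 := by nlinarith [h.h2]
  have h4 : 1 / 2 ≤ (r ^ 2 - r / 17) * U1 x x + r / 17 * U2 x x := by
    have : 0 ≤ r / 17 * U2 x x := by positivity
    nlinarith
  simp only [MM]
  have hb0 := h.beta_pos
  calc (1 : ℝ) / 12000 ≤ 1 / 1428 * (1 / 2) := by norm_num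
    _ ≤ β * ((r ^ 2 - r / 17) * U1 x x + r / 17 * U2 x x) :=
      mul_le_mul hb h4 (by norm_num) hb0.le

theorem cpl_F4E (h : Par r β) (i j : Bool) (x : ℤ) :
    1 / 12000 ≤ MM r β (some i) (some j) x x := by
  have hb := h.beta_ge
  simp only [MM, if_true]
  linarith

/-- (F5): the entropy. -/
theorem cpl_F5 (h : Par r β) :
    ∑ b : Blk, ∑ b' : Blk, ∑ y ∈ ctx b, ∑ x ∈ ctx b',
      pb b * MM r β b b' y x * (-Real.log (qq r β b b')) = cc0 r β + gg0 β / 16 := by
  have hb := h.beta_pos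
  have hr : 0 < r := by linarith [h.h1]
  have hfac : ∀ b b' : Blk, ∑ y ∈ ctx b, ∑ x ∈ ctx b',
      pb b * MM r β b b' y x * (-Real.log (qq r β b b')) =
      pb b * (∑ y ∈ ctx b, ∑ x ∈ ctx b', MM r β b b' y x) * (-Real.log (qq r β b b')) := by
    intro b b'
    rw [Finset.mul_sum, Finset.sum_mul]
    refine Finset.sum_congr rfl fun y _ => ?_
    rw [Finset.mul_sum, Finset.sum_mul]
  simp only [hfac, sum_blk]
  have hrV : (∑ y ∈ DD, (rV y : ℝ)) = 48 := by
    have : ∑ y ∈ DD, rV y = 48 := by decide +kernel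
    exact_mod_cast this
  have hcD : (DD.card : ℝ) = 16 := by
    have : DD.card = 16 := by decide
    exact_mod_cast this
  have hcT : (TT.card : ℝ) = 4 := by
    have : TT.card = 4 := by decide
    exact_mod_cast this
  have tSS : ∑ y ∈ ctx none, ∑ x ∈ ctx none, MM r β none none y x = 51 * (32 * β * r ^ 2) := by
    simp only [ctx]
    rw [Finset.sum_congr rfl fun y hy => row_SS (r := r) (β := β) hy, ← Finset.mul_sum,
      Finset.sum_add_distrib, Finset.sum_const, nsmul_eq_mul, ← Finset.mul_sum,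
      Finset.sum_sub_distrib, ← Finset.mul_sum, hrV, Finset.sum_const, nsmul_eq_mul, hcD]
    ring
  have tSE : ∀ i, ∑ y ∈ ctx none, ∑ x ∈ ctx (some i), MM r β none (some i) y x =
      24 * (β * r) := by
    intro i
    simp only [ctx]
    rw [Finset.sum_congr rfl fun y _ => row_SE (r := r) (β := β) i y, ← Finset.mul_sum, hrV]
    ring
  have tES : ∀ i, ∑ y ∈ ctx (some i), ∑ x ∈ ctx none, MM r β (some i) none y x =
      1536 * (β * r) := by
    intro i
    simp only [ctx]
    rw [Finset.sum_congr rfl fun y hy => row_ES (r := r) (β := β) i hy, Finset.sum_const,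
      nsmul_eq_mul, hcT]
    ring
  have tEE : ∀ i j, ∑ y ∈ ctx (some i), ∑ x ∈ ctx (some j), MM r β (some i) (some j) y x =
      13 * β / 2 := by
    intro i j
    simp only [ctx]
    rw [Finset.sum_congr rfl fun y hy => row_EE (r := r) (β := β) i j hy, Finset.sum_const,
      nsmul_eq_mul, hcT]
    ring
  rw [tSS, tSE, tSE, tES, tES, tEE, tEE, tEE, tEE]
  have l1 : Real.log (β * r / 2) = Real.log (β / 2) + Real.log r := by
    rw [← Real.log_mul (by positivity) hr.ne']
    congr 1; ring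
  have l2 : Real.log (32 * β * r) = Real.log (32 * β * r ^ 2) - Real.log r := by
    rw [← Real.log_div (by positivity) hr.ne']
    congr 1; field_simp
  simp only [pb, qq, cc0, gg0]
  rw [l1, l2]
  have e1 := h.e1
  have e2 := h.h4
  have e3 : 51 * (32 * β * r ^ 2) = 1 - 48 * (β * r) := by linarith
  have e4 : 1536 * (β * r) = 1 - 13 * β := by linarith
  rw [e3, e4]
  have e5 : β * r = (1 - 13 * β) / 1536 := by linarith
  rw [e5]
  ring

/-- The gap. -/
theorem cpl_gap (h : Par r β) : cc0 r β + 1 / 100 ≤ gg0 β := by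
  have hb := h.beta_pos
  have hr : 0 < r := by linarith [h.h1]
  have h4 := h.h4
  have hX : 0 < 2048 * β * r ^ 4 := by positivity
  have key : 1 - (2048 * β * r ^ 4)⁻¹ ≤ Real.log (2048 * β * r ^ 4) :=
    Real.one_sub_inv_le_log_of_pos hX
  have hlog : Real.log (2048 * β * r ^ 4) =
      2 * Real.log (32 * β * r ^ 2) - Real.log (β / 2) := by
    have : 2048 * β * r ^ 4 = (32 * β * r ^ 2) ^ 2 / (β / 2) := by
      field_simp; ring
    rw [this, Real.log_div (by positivity) (by positivity), Real.log_pow]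
    push_cast
    ring
  have hbig : 1 / 0.98 ≤ 2048 * β * r ^ 4 := by
    have h1 := h.h1
    have hr2 : 0.8464 ≤ r ^ 2 := by nlinarith
    have hr4 : r ^ 4 = r ^ 2 * r ^ 2 := by ring
    have h5 : 1536 * r + 13 ≤ 0.98 * (2048 * r ^ 4) := by
      rw [hr4]
      nlinarith [h.h2]
    have h6 := mul_le_mul_of_nonneg_left h5 hb.le
    rw [h4] at h6
    rw [div_le_iff₀ (by norm_num)]
    linarith
  have hinv : (2048 * β * r ^ 4)⁻¹ ≤ 0.98 := by
    rw [inv_le_comm₀ hX (by norm_num)]
    simpa using hbig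
  rw [hlog] at key
  simp only [cc0, gg0]
  linarith

/-- `cc0 > 0` since `32 β r^2 < 1`. -/
theorem cc0_pos (h : Par r β) : 0 < cc0 r β := by
  have hb := h.beta_pos
  have hr : 0 < r := by linarith [h.h1]
  have h1 := h.e1
  have h2 : 32 * β * r ^ 2 < 1 := by
    have : 0 < β * r := by positivity
    have : 0 < 32 * β * r ^ 2 := by positivity
    linarith
  have h3 : Real.log (32 * β * r ^ 2) < 0 := Real.log_neg (by positivity) h2
  simp only [cc0]
  linarith

end Pool.Agent.Lib.MP_422011_al
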