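import Pool.Agent.Lib.MP_422011_al.Tab

/-!
# The base chain and the coupling matrices: definitions
-/

namespace Pool.Agent.Lib.MP_422011_al

/-- the parameters of the base chain -/
structure Par (r β : ℝ) : Prop where
  h1 : 0.92 < r
  h2 : r < 0.921
  h3 : 1632 * r ^ 2 - 1488 * r - 13 = 0
  h4 : β * (1536 * r + 13) = 1

/-- probability of each admissible difference in a transition -/
noncomputable def qq (r β : ℝ) : Blk → Blk → ℝ
  | none, none => 32 * β * r ^ 2
  | none, some _ => β * r / 2
  | some _, none => 32 * β * r
  | some _, some _ => β / 2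

/-- total mass of a block type -/
noncomputable def pb : Blk → ℝ
  | none => 1
  | some _ => 1 / 64

/-- mass of a state (block type, entry context) -/
noncomputable def pc : Blk → ℝ
  | none => 1 / 16
  | some _ => 1 / 256

/-- the coupling matrices: exit context `b`, next entry context `a` -/
noncomputable def MM (r β : ℝ) : Blk → Blk → ℤ → ℤ → ℝ
  | none, none, b, a => β * ((r ^ 2 - r / 17) * U1 b a + r / 17 * U2 b a)
  | none, some _, b, a => β * r / 2 * VV b a
  | some _, none, b, a => 32 * β * r * VV a b
  | some _, some _, b, a => if a = b then β / 8 else β / 2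

/-- `c0 = -log α`, `α = 32 β r^2` -/
noncomputable def cc0 (r β : ℝ) : ℝ := -Real.log (32 * β * r ^ 2)

/-- `g0 = -(1/2) log (β / 2)` -/
noncomputable def gg0 (β : ℝ) : ℝ := -(Real.log (β / 2) / 2)

end Pool.Agent.Lib.MP_422011_al
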