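import Pool.Agent.Lib.MP_422011_al.Coer

/-!
# JOB Cpt (about 120 lines): a good class weight with minimal sum exists
-/

namespace Pool.Agent.Lib.MP_422011_al

variable {N : ℕ}

attribute [local irreducible] PP

/-- Limits of good class weights are good.

Proof. Symmetry passes to the limit. By `good_ge` `θn k p ≥ log 2` on `PP`, so `θ p ≥ log 2 > 0`.
Let `s > 1`; choose `e > 0` with `s (1 - e) > 1` (`e < 1`), i.e. `e = (1 - 1/s)/2`. As `θn k p → θ p > 0`
for the finitely many `p ∈ PP`, for some `k`: `(1 - e) θn k p ≤ θ p` for all `p ∈ PP`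
(`Filter.eventually_all_finset`, `Filter.Eventually.exists`). `wlen_smul`, `wlen_mono`:
`(1 - e) wlen (cw (θn k)) g ≤ wlen (cw θ) g`. `Conv (cw (θn k)) (s (1 - e))` gives
`Conv (cw θ) s` by comparison (`Summable.of_nonneg_of_le`), or use `conv_smul` and `conv_of_le`
with `C = 0`. -/
theorem good_closed (hN : 2 ≤ N) (θn : ℕ → ℤ × ℤ → ℝ) (θ : ℤ × ℤ → ℝ)
    (hg : ∀ k, Good N (θn k)) (hl : ∀ p, Filter.Tendsto (fun k => θn k p) Filter.atTop (nhds (θ p))) :
    Good N θ := by
  have hge : ∀ p ∈ PP, Real.log 2 ≤ θ p := fun p hp =>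
    ge_of_tendsto' (hl p) fun k => good_ge hN (hg k) p hp
  have hpos : ∀ p ∈ PP, 0 < θ p := fun p hp => (Real.log_pos one_lt_two).trans_le (hge p hp)
  refine ⟨fun a b => ?_, hpos, fun s hs => ?_⟩
  · refine tendsto_nhds_unique (hl (a, b)) ?_
    refine (hl (b, a)).congr fun k => ?_
    exact ((hg k).1 a b).symm
  · have hs0 : 0 < s := by linarith
    set c : ℝ := (s + 1) / (2 * s) with hc
    have hc0 : 0 < c := by positivity
    have hc1 : c < 1 := by
      rw [hc, div_lt_one (by positivity)]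
      linarith
    have hcs : c * s = (s + 1) / 2 := by
      rw [hc]
      field_simp
    have hev : ∀ᶠ k in Filter.atTop, ∀ p ∈ PP, c * θn k p < θ p := by
      rw [Filter.eventually_all_finset]
      intro p hp
      have h1 : Filter.Tendsto (fun k => c * θn k p) Filter.atTop (nhds (c * θ p)) :=
        (hl p).const_mul c
      exact h1.eventually_lt_const (by nlinarith [hpos p hp])
    obtain ⟨k, hk⟩ := hev.exists
    have hw' : ∀ i : Idx N, 0 < cw (θn k) i := cw_pos (hg k).2.1
    have hw : ∀ i : Idx N, 0 < cw θ i := cw_pos hpos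
    have h2 : Conv (gen (N := N)) (fun i => c * cw (θn k) i) s := by
      rw [conv_smul (gens_gen (by omega)) hw' hc0, hcs]
      exact (hg k).2.2 _ (by linarith)
    refine conv_of_le (C := 0) (fun g => ?_) hs0.le h2
    rw [add_zero]
    exact wlen_mono (gens_gen (by omega)) (fun i => mul_pos hc0 (hw' i)) hw
      (fun i => (hk _ i.2.2).le) g

/-- Goodness only depends on the values on `PP` except for symmetry: replace `θ` by `1` outside `PP`.
(`PP` is symmetric by `pair_swap`; `cw` only uses values on `PP`.) -/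
theorem good_norm {θ : ℤ × ℤ → ℝ} (h : Good N θ) :
    Good N (fun p => if p ∈ PP then θ p else 1) := by
  refine ⟨fun a b => ?_, fun p hp => ?_, fun s hs => ?_⟩
  · by_cases hab : (a, b) ∈ PP
    · have hba := pair_swap hab
      simp only [hab, hba, if_true]
      exact h.1 a b
    · have hba : (b, a) ∉ PP := fun h => hab (pair_swap h)
      simp only [hab, hba, if_false]
  · simp only [hp, if_true]
    exact h.2.1 p hp
  · have e : cw (N := N) (fun p => if p ∈ PP then θ p else 1) = cw θ := by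
      funext i
      exact if_pos i.2.2
    rw [e]
    exact h.2.2 s hs

/-- Existence of a good class weight with minimal sum.

Proof. Let `B = ∑ p ∈ PP, θ0 p` and let `m` be the infimum of `∑ p ∈ PP, θ p` over good `θ`
(bounded below by `0`). Choose good `θn k` with sums tending to `m` and `≤ B + 1`
(`exists_seq_tendsto_sInf`), normalised by `good_norm`: all values lie in `[0, max 1 (B + 1)]`
(for `p ∈ PP`: `0 < θ p ≤` the sum). The set `Set.pi univ (fun _ => Icc 0 (B + 2))` in
`ℤ × ℤ → ℝ` is compact (`isCompact_univ_pi`); `ℤ × ℤ` is countable, so the product is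
first countable and `IsCompact.tendsto_subseq` gives a subsequence converging pointwise
(`tendsto_pi_nhds`) to some `θ`. By `good_closed` `θ` is good, its sum is `m` by continuity
(`tendsto_finset_sum`). -/
theorem exists_best (hN : 2 ≤ N) {θ0 : ℤ × ℤ → ℝ} (h0 : Good N θ0) :
    ∃ θ, Good N θ ∧ ∀ θ', Good N θ' → ∑ p ∈ PP, θ p ≤ ∑ p ∈ PP, θ' p := by
  classical
  set S : Set ℝ := {r | ∃ θ, Good N θ ∧ r = ∑ p ∈ PP, θ p} with hS
  have hSn : S.Nonempty := ⟨_, θ0, h0, rfl⟩
  have hSb : BddBelow S := by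
    refine ⟨0, ?_⟩
    rintro _ ⟨θ, hθ, rfl⟩
    exact Finset.sum_nonneg fun p hp => (hθ.2.1 p hp).le
  obtain ⟨u, hu1, hu2, hu3⟩ := exists_seq_tendsto_sInf hSn hSb
  choose θn hθn hun using hu3
  set θm : ℕ → ℤ × ℤ → ℝ := fun k p => if p ∈ PP then θn k p else 1 with hθm
  have hgm : ∀ k, Good N (θm k) := fun k => good_norm (hθn k)
  have hsm : ∀ k, ∑ p ∈ PP, θm k p = u k := by
    intro k
    rw [hun k]
    exact Finset.sum_congr rfl fun p hp => if_pos hp
  set K : Set (ℤ × ℤ → ℝ) := Set.pi Set.univ (fun _ => Set.Icc 0 (max 1 (u 0))) with hK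
  have hKc : IsCompact K := isCompact_univ_pi fun _ => isCompact_Icc
  have hmem : ∀ k, θm k ∈ K := by
    intro k p _
    by_cases hp : p ∈ PP
    · refine ⟨((hgm k).2.1 p hp).le, ?_⟩
      have h1 : θm k p ≤ ∑ p ∈ PP, θm k p :=
        Finset.single_le_sum (fun q hq => ((hgm k).2.1 q hq).le) hp
      rw [hsm k] at h1
      exact h1.trans ((hu1 (Nat.zero_le k)).trans (le_max_right _ _))
    · have e : θm k p = 1 := if_neg hp
      rw [e]
      exact ⟨zero_le_one, le_max_left _ _⟩
  obtain ⟨θ, -, f, hf, hlim⟩ := hKc.tendsto_subseq hmem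
  rw [tendsto_pi_nhds] at hlim
  have hG : Good N θ := good_closed hN (fun k => θm (f k)) θ (fun k => hgm (f k)) hlim
  have hsum : ∑ p ∈ PP, θ p = sInf S := by
    have h1 : Filter.Tendsto (fun k => ∑ p ∈ PP, θm (f k) p) Filter.atTop
        (nhds (∑ p ∈ PP, θ p)) := tendsto_finset_sum _ fun p _ => hlim p
    have h2 : Filter.Tendsto (fun k => ∑ p ∈ PP, θm (f k) p) Filter.atTop (nhds (sInf S)) := by
      simp only [hsm]
      exact hu2.comp hf.tendsto_atTop
    exact tendsto_nhds_unique h1 h2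
  refine ⟨θ, hG, fun θ' hθ' => ?_⟩
  rw [hsum]
  exact csInf_le hSb ⟨θ', hθ', rfl⟩

end Pool.Agent.Lib.MP_422011_al
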