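import Pool.Agent.Lib.MP_422011_al.One

/-!
# JOB DC (about 130 lines): the block inequality for the partition functions
-/

open scoped ENNReal

namespace Pool.Agent.Lib.MP_422011_al

variable {N : ℕ}

/-- the sets of elements belonging to the block types -/
def WB (N : ℕ) : Blk → Set (FG N)
  | none => {g | ∃ δ : ℤ, δ ≠ 19 ∧ δ ≠ -19 ∧ g ∈ XX δ (WW N)}
  | some i => XX (ee (!i) - ee i) (WW N)

/-- one block in front of the elements of `A`, followed by the exponent `δ` -/
def stp : Blk → ℤ → Set (FG N) → Set (FG N)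
  | none, δ, A => XX δ A
  | some i, δ, A => XX (ee (!i) - ee i) (XX δ A)

private theorem XX_mono {δ : ℤ} {A B : Set (FG N)} (h : A ⊆ B) : XX δ A ⊆ XX δ B := by
  rintro _ ⟨x, g', h1, h2, rfl⟩
  exact ⟨x, g', h h1, h2, rfl⟩

/-- `WB b ⊆ WW` (`XX_sub`). -/
theorem WB_sub (b : Blk) : WB N b ⊆ WW N := by
  cases b with
  | none =>
    rintro g ⟨δ, _, _, h⟩
    exact XX_sub le_rfl h
  | some i => exact XX_sub le_rfl

private theorem ee_diff (i : Bool) : ee (!i) - ee i = 19 ∨ ee (!i) - ee i = -19 := by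
  cases i <;> decide

/-- The three sets are pairwise disjoint (`XX_disj`; `ee true - ee false = 19`). -/
theorem WB_disj {b b' : Blk} (h : b ≠ b') : Disjoint (WB N b) (WB N b') := by
  have key : ∀ i : Bool, Disjoint (WB N none) (WB N (some i)) := by
    intro i
    rw [Set.disjoint_left]
    rintro g ⟨δ, h1, h2, h3⟩ h4
    have hne : δ ≠ ee (!i) - ee i := by
      intro h5
      rcases ee_diff i with h6 | h6
      · exact h1 (h5.trans h6)
      · exact h2 (h5.trans h6)
    exact (Set.disjoint_left.1 (XX_disj le_rfl le_rfl (Or.inl hne))) h3 h4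
  cases b with
  | none =>
    cases b' with
    | none => exact absurd rfl h
    | some i => exact key i
  | some i =>
    cases b' with
    | none => exact (key i).symm
    | some j =>
      refine XX_disj le_rfl le_rfl (Or.inl ?_)
      cases i <;> cases j
      · exact absurd rfl h
      · decide
      · decide
      · exact absurd rfl h

/-- All three sets are nonempty (`N ≥ 1`): take `g' = xx x ∈ WW` (`xx_mem_WW`), with `δ = 1`,
or `δ = ±19`. -/
theorem WB_nonempty (hN : 1 ≤ N) (b : Blk) : (WB N b).Nonempty := by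
  have x : Ltr N := (⟨0, hN⟩, true)
  cases b with
  | none =>
    refine ⟨xx x * zz ^ (1 : ℤ) * xx x, 1, by decide, by decide, x, xx x, xx_mem_WW x, ?_, rfl⟩
    exact Or.inl (by decide)
  | some i =>
    refine ⟨xx x * zz ^ (ee (!i) - ee i) * xx x, x, xx x, xx_mem_WW x, ?_, rfl⟩
    refine Or.inl ?_
    cases i <;> decide

/-- Differences of contexts in `D` are never `±19`; `T ⊆ D` (`decide`). -/
theorem ctx_diff {b b' : Blk} {x y : ℤ} (hy : y ∈ ctx b) (hx : x ∈ ctx b') :
    x - y ≠ 19 ∧ x - y ≠ -19 := by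
  have h1 : ∀ (b : Blk) (z : ℤ), z ∈ ctx b → z ∈ DD := by
    intro b z hz
    cases b with
    | none => exact hz
    | some i => exact TT_sub_DD hz
  have h2 : ∀ y ∈ DD, ∀ x ∈ DD, x - y ≠ 19 ∧ x - y ≠ -19 := by decide
  exact h2 y (h1 b y hy) x (h1 b' x hx)

/-- For `b = none` by `ctx_diff`; for `b = some i` by `XX_sub`. -/
theorem stp_sub {b b' : Blk} {x y : ℤ} (hy : y ∈ ctx b) (hx : x ∈ ctx b') :
    stp b (x - y) (WB N b') ⊆ WB N b := by
  cases b with
  | none =>
    intro g hg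
    obtain ⟨h1, h2⟩ := ctx_diff hy hx
    exact ⟨x - y, h1, h2, XX_mono (WB_sub b') hg⟩
  | some i => exact XX_mono (XX_sub (WB_sub b'))

/-- Disjointness of the pieces (`XX_disj`, `WB_disj`). -/
theorem stp_disj {b b1 b2 : Blk} {δ1 δ2 : ℤ} (h : (b1, δ1) ≠ (b2, δ2)) :
    Disjoint (stp b δ1 (WB N b1)) (stp b δ2 (WB N b2)) := by
  have h1 : Disjoint (XX δ1 (WB N b1)) (XX δ2 (WB N b2)) := by
    refine XX_disj (WB_sub b1) (WB_sub b2) ?_
    by_cases hδ : δ1 = δ2
    · refine Or.inr (WB_disj ?_)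
      rintro rfl
      exact h (by rw [hδ])
    · exact Or.inl hδ
  cases b with
  | none => exact h1
  | some i => exact XX_disj (XX_sub (WB_sub b1)) (XX_sub (WB_sub b2)) (Or.inr h1)

/-- The inequality for one block: `one_step` once for `b = none` (pair `(a, y)`), twice for
`b = some i`: first pair `(a, ee i)` with `δ = ee (!i) - ee i` (so the next context is `ee (!i)`),
then pair `(ee (!i), y)` with `δ = x - y`. `pair_DD`, `pair_TE`, `pair_ET`. -/
theorem blk_step (hN : 1 ≤ N) {θ : ℤ × ℤ → ℝ} (hθ : ∀ p ∈ PP, 0 < θ p) {s : ℝ} (hs : 0 ≤ s)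
    {b b' : Blk} {a y x : ℤ} (ha : a ∈ ctx b) (hy : y ∈ ctx b) (hx : x ∈ ctx b') :
    ENNReal.ofReal (Real.exp (-(s * bcost θ b a y) + nb b * Real.log (2 * N - 1))) *
      pf θ s (WB N b') x ≤ pf θ s (stp b (x - y) (WB N b')) a := by
  have hN' : (0 : ℝ) < 2 * (N : ℝ) - 1 := by
    have : (1 : ℝ) ≤ N := by exact_mod_cast hN
    linarith
  have hyx : y + (x - y) = x := by ring
  cases b with
  | none =>
    have h1 := one_step hN hθ hs (WB_sub b') (pair_DD ha hy) (x - y)
    rw [hyx] at h1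
    have h2 : Real.exp (-(s * bcost θ none a y) + nb none * Real.log (2 * N - 1)) =
        (2 * N - 1) * Real.exp (-(s * θ (a, y))) := by
      simp only [bcost, nb, one_mul]
      rw [Real.exp_add, Real.exp_log hN', mul_comm]
    rw [h2]
    exact h1
  | some i =>
    have h1 := one_step hN hθ hs (WB_sub b') (pair_ET (!i) hy) (x - y)
    rw [hyx] at h1
    have h3 := one_step hN hθ hs (XX_sub (δ := x - y) (WB_sub b')) (pair_TE ha i)
      (ee (!i) - ee i)
    have he : ee i + (ee (!i) - ee i) = ee (!i) := by ring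
    rw [he] at h3
    have h2 : ENNReal.ofReal
        (Real.exp (-(s * bcost θ (some i) a y) + nb (some i) * Real.log (2 * N - 1))) =
        ENNReal.ofReal ((2 * N - 1) * Real.exp (-(s * θ (a, ee i)))) *
        ENNReal.ofReal ((2 * N - 1) * Real.exp (-(s * θ (ee (!i), y)))) := by
      rw [← ENNReal.ofReal_mul (mul_pos hN' (Real.exp_pos _)).le]
      congr 1
      simp only [bcost, nb]
      rw [Real.exp_add, two_mul (Real.log _), Real.exp_add, Real.exp_log hN', mul_add, neg_add,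
        Real.exp_add]
      ring
    rw [h2, mul_assoc]
    exact (mul_le_mul_right h1 _).trans h3

/-- The block inequality.

Proof. Put `v b a = (pf θ s (WB N b) a).toReal > 0` (`pf_pos`, `pf_lt_top`, `WB_nonempty`) and
`V b a = log (v b a)`. By `blk_step` each term
`K b' y x * exp (-(s cost) + nb b log (2N-1)) * v b' x ≤ K b' y x * (pf (stp b (x-y) (WB b')) a).toReal`.
Sum over `y, x` and group by `δ = x - y` (the finite set `J` of differences,
`Finset.image` of `ctx b' ×ˢ ctx b`, or insert `∑ δ ∈ J, if x - y = δ then .. else 0` and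
exchange the sums): since `∑ (x - y = δ) K ≤ 1`, the sum over `y, x` is at most
`∑ δ ∈ J, (pf (stp b δ (WB b')) a).toReal`. Sum over `b'` and use `pf_sum_le` with the index set
`(b', δ)`, `stp_sub`, `stp_disj`: the total is `≤ v b a`. Divide by `v b a = exp (V b a)`. -/
theorem dc (hN : 2 ≤ N) {θ : ℤ × ℤ → ℝ} (hθ : ∀ p ∈ PP, 0 < θ p) {s : ℝ} (hs : 0 ≤ s)
    (hc : Conv (gen (N := N)) (cw θ) s) :
    ∃ V : Blk → ℤ → ℝ, ∀ b : Blk, ∀ a ∈ ctx b, ∀ K : Blk → ℤ → ℤ → ℝ,
      (∀ b', ∀ y ∈ ctx b, ∀ x ∈ ctx b', 0 ≤ K b' y x) →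
      (∀ b', ∀ δ : ℤ, ∑ y ∈ ctx b, ∑ x ∈ ctx b', (if x - y = δ then K b' y x else 0) ≤ 1) →
      ∑ b' : Blk, ∑ y ∈ ctx b, ∑ x ∈ ctx b', K b' y x *
        Real.exp (-(s * bcost θ b a y) + nb b * Real.log (2 * N - 1) + V b' x - V b a) ≤ 1 := by
  have hN1 : 1 ≤ N := le_trans (by decide) hN
  have hfin : ∀ (A : Set (FG N)) (a : ℤ), pf θ s A a ≠ ⊤ := fun A a => pf_lt_top hc A a
  have hpos : ∀ (b : Blk) (a : ℤ), 0 < (pf θ s (WB N b) a).toReal := fun b a =>
    ENNReal.toReal_pos (pf_pos (WB_nonempty hN1 b) a) (hfin _ _)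
  refine ⟨fun b a => Real.log (pf θ s (WB N b) a).toReal, ?_⟩
  intro b a ha K hK hK1
  set v : Blk → ℤ → ℝ := fun b a => (pf θ s (WB N b) a).toReal with hv
  set Q : Blk → ℤ → ℝ := fun b' δ => (pf θ s (stp b δ (WB N b')) a).toReal with hQ
  have hQ0 : ∀ b' δ, 0 ≤ Q b' δ := fun b' δ => ENNReal.toReal_nonneg
  -- the block inequality in the reals
  have hstep : ∀ b' : Blk, ∀ y ∈ ctx b, ∀ x ∈ ctx b',
      Real.exp (-(s * bcost θ b a y) + nb b * Real.log (2 * N - 1)) * v b' x ≤ Q b' (x - y) := by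
    intro b' y hy x hx
    have h1 := ENNReal.toReal_mono (hfin _ _) (blk_step hN1 hθ hs ha hy hx)
    rw [ENNReal.toReal_mul, ENNReal.toReal_ofReal (Real.exp_pos _).le] at h1
    exact h1
  have hva : 0 < v b a := hpos b a
  -- termwise bound
  have h2 : ∑ b' : Blk, ∑ y ∈ ctx b, ∑ x ∈ ctx b', K b' y x *
        Real.exp (-(s * bcost θ b a y) + nb b * Real.log (2 * N - 1) +
          Real.log (v b' x) - Real.log (v b a)) ≤
      (∑ b' : Blk, ∑ y ∈ ctx b, ∑ x ∈ ctx b', K b' y x * Q b' (x - y)) / v b a := by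
    rw [Finset.sum_div]
    refine Finset.sum_le_sum fun b' _ => ?_
    rw [Finset.sum_div]
    refine Finset.sum_le_sum fun y hy => ?_
    rw [Finset.sum_div]
    refine Finset.sum_le_sum fun x hx => ?_
    rw [mul_div_assoc]
    refine mul_le_mul_of_nonneg_left ?_ (hK b' y hy x hx)
    rw [Real.exp_sub, Real.exp_log hva, Real.exp_add _ (Real.log (v b' x)),
      Real.exp_log (hpos b' x)]
    exact div_le_div_of_nonneg_right (hstep b' y hy x hx) hva.le
  refine h2.trans ?_
  rw [div_le_one hva]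
  -- grouping
  set J : Blk → Finset ℤ := fun b' =>
    (ctx b ×ˢ ctx b').image (fun p : ℤ × ℤ => p.2 - p.1) with hJ
  have h3 : ∀ b' : Blk, ∑ y ∈ ctx b, ∑ x ∈ ctx b', K b' y x * Q b' (x - y) ≤
      ∑ δ ∈ J b', Q b' δ := by
    intro b'
    have h4 : ∑ y ∈ ctx b, ∑ x ∈ ctx b', K b' y x * Q b' (x - y) =
        ∑ δ ∈ J b', (∑ y ∈ ctx b, ∑ x ∈ ctx b', (if x - y = δ then K b' y x else 0)) * Q b' δ := by
      simp only [Finset.sum_mul]
      symm
      rw [Finset.sum_comm]
      refine Finset.sum_congr rfl fun y hy => ?_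
      rw [Finset.sum_comm]
      refine Finset.sum_congr rfl fun x hx => ?_
      rw [Finset.sum_eq_single_of_mem (x - y)]
      · rw [if_pos rfl]
      · exact Finset.mem_image.2 ⟨(y, x), Finset.mem_product.2 ⟨hy, hx⟩, rfl⟩
      · intro δ _ hδ
        rw [if_neg (fun h => hδ h.symm), zero_mul]
    rw [h4]
    refine Finset.sum_le_sum fun δ _ => ?_
    have h5 := mul_le_mul_of_nonneg_right (hK1 b' δ) (hQ0 b' δ)
    rw [one_mul] at h5
    exact h5
  refine (Finset.sum_le_sum fun b' _ => h3 b').trans ?_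
  rw [Finset.sum_sigma']
  have h6 := pf_sum_le (θ := θ) (s := s) ((Finset.univ : Finset Blk).sigma J)
    (fun k => stp b k.2 (WB N k.1)) (WB N b) (by
      rintro ⟨b', δ⟩ hk
      obtain ⟨_, hk2⟩ := Finset.mem_sigma.1 hk
      obtain ⟨⟨y, x⟩, hyx, hd⟩ := Finset.mem_image.1 hk2
      obtain ⟨hy, hx⟩ := Finset.mem_product.1 hyx
      simp only at hd hy hx ⊢
      rw [← hd]
      exact stp_sub hy hx) (by
      rintro ⟨b1, δ1⟩ _ ⟨b2, δ2⟩ _ hne
      refine stp_disj fun h => hne ?_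
      have e1 : b1 = b2 := congrArg Prod.fst h
      have e2 : δ1 = δ2 := congrArg Prod.snd h
      subst e1
      subst e2
      rfl) a
  have h7 := ENNReal.toReal_mono (hfin _ _) h6
  rw [ENNReal.toReal_sum (fun _ _ => hfin _ _)] at h7
  exact h7

end Pool.Agent.Lib.MP_422011_al
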