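import Mathlib

/-!
# MP_422011_al: definitions for the example

Weighted word lengths for a finite family of generators `u : ι → G` with weights `w : ι → ℝ`,
and the concrete family of generators `z^a x z^(-b)` of a free group.
-/

namespace Pool.Agent.Lib.MP_422011_al

/-- cost of a word (list of indices) -/
def wcost {ι : Type*} (w : ι → ℝ) (l : List ι) : ℝ := (l.map w).sum

/-- the group element spelled by a word -/
def wval {G : Type*} [Group G] {ι : Type*} (u : ι → G) (l : List ι) : G := (l.map u).prod

/-- the weighted word length -/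
noncomputable def wlen {G : Type*} [Group G] {ι : Type*} (u : ι → G) (w : ι → ℝ) (g : G) : ℝ :=
  sInf (wcost w '' {l : List ι | wval u l = g})

/-- the family `u` generates `G` as a monoid -/
def Gens {G : Type*} [Group G] {ι : Type*} (u : ι → G) : Prop :=
  ∀ g : G, ∃ l : List ι, wval u l = g

/-- the Poincare series of the weighted word length converges at `s` -/
def Conv {G : Type*} [Group G] {ι : Type*} (u : ι → G) (w : ι → ℝ) (s : ℝ) : Prop :=
  Summable fun g : G => Real.exp (-(s * wlen u w g))

/-- `h` is the volume entropy of the weighted word length -/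
def IsEnt {G : Type*} [Group G] {ι : Type*} (u : ι → G) (w : ι → ℝ) (h : ℝ) : Prop :=
  Filter.Tendsto (fun R : ℝ => Real.log (Nat.card {g : G // wlen u w g ≤ R}) / R)
    Filter.atTop (nhds h)

/-! ### the concrete example -/

/-- the free group on `z` (the index `none`) and `N` further generators -/
abbrev FG (N : ℕ) := FreeGroup (Option (Fin N))

/-- signed letters -/
abbrev Ltr (N : ℕ) := Fin N × Bool

/-- the generator `z` -/
def zz {N : ℕ} : FG N := FreeGroup.of none

/-- the signed letter `x` as a group element -/
def xx {N : ℕ} (x : Ltr N) : FG N := FreeGroup.mk [(some x.1, x.2)]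

/-- inverse signed letter -/
def linv {N : ℕ} (x : Ltr N) : Ltr N := (x.1, !x.2)

/-- the contexts `D` -/
def DD : Finset ℤ := {0, 1, 2, 5, 8, 9, 10, 11, 14, 15, 16, 17, 18, 23, 25, 26}

/-- the contexts `T` -/
def TT : Finset ℤ := {1, 5, 23, 25}

/-- the two exceptional contexts `3` and `22` -/
def ee (i : Bool) : ℤ := if i then 22 else 3

/-- the set `E` of exceptional contexts -/
def EE : Finset ℤ := {3, 22}

/-- the admissible pairs -/
def PP : Finset (ℤ × ℤ) := DD ×ˢ DD ∪ (TT ×ˢ EE ∪ EE ×ˢ TT)

/-- indices of generators: a signed letter and an admissible pair -/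
abbrev Idx (N : ℕ) := Ltr N × {p : ℤ × ℤ // p ∈ PP}

/-- the generator `z^a x z^(-b)` -/
def gen {N : ℕ} (i : Idx N) : FG N := zz ^ i.2.1.1 * xx i.1 * zz ^ (-i.2.1.2)

/-- the class weight given by a function on pairs -/
def cw {N : ℕ} (θ : ℤ × ℤ → ℝ) (i : Idx N) : ℝ := θ i.2.1

/-- symmetric functions on pairs -/
def Sym (θ : ℤ × ℤ → ℝ) : Prop := ∀ a b, θ (a, b) = θ (b, a)

/-- good class weights: positive, symmetric, convergence for all `s > 1` -/
def Good (N : ℕ) (θ : ℤ × ℤ → ℝ) : Prop :=
  Sym θ ∧ (∀ p ∈ PP, 0 < θ p) ∧ ∀ s : ℝ, 1 < s → Conv (gen (N := N)) (cw θ) s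

/-! ### blocks -/

/-- block types: `none` is the ordinary block, `some i` the exceptional block number `i` -/
abbrev Blk := Option Bool

/-- contexts allowed at a block -/
def ctx : Blk → Finset ℤ
  | none => DD
  | some _ => TT

/-- cost of a block with left context `a` and right context `b` -/
def bcost (θ : ℤ × ℤ → ℝ) : Blk → ℤ → ℤ → ℝ
  | none, a, b => θ (a, b)
  | some i, a, b => θ (a, ee i) + θ (ee (!i), b)

/-- number of letters of a block -/
def nb : Blk → ℝ
  | none => 1
  | some _ => 2

end Pool.Agent.Lib.MP_422011_al
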