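import Pool.Agent.Lib.MP_422011_al.Gen

/-!
# JOB Ent (about 150 lines): the volume entropy exists and is the critical exponent

Everything about `wlen` that is needed is in `Gen.lean` (`exists_min`, `wlen_le`, `wlen_nonneg`,
`finite_ball`, `wcost_cons`, `wcost_append`, `wval_append`).
-/

namespace Pool.Agent.Lib.MP_422011_al

open Filter

variable {G : Type*} [Group G] {ι : Type*} [Finite ι]

/-- A word of cost `≤ R + R'` (`R, R' ≥ 0`) splits as `l1 ++ l2` with `cost l1 ≤ R` and
`cost l2 ≤ R' + M`, `M ≥ w`. Proof: induction on the list `l` (generalising `R`): if `l = []`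
trivial; if `l = i :: l'` and `w i ≤ R` use the induction hypothesis with `R - w i`; if `w i > R`
take `l1 = []`, `l2 = l`, `cost l ≤ R + R' < M + R'`. -/
theorem split_word {w : ι → ℝ} (hw : ∀ i, 0 < w i) {M : ℝ} (hM : ∀ i, w i ≤ M) (hM0 : 0 ≤ M)
    (l : List ι)
    (R R' : ℝ) (hR : 0 ≤ R) (hR' : 0 ≤ R') (h : wcost w l ≤ R + R') :
    ∃ l1 l2, l = l1 ++ l2 ∧ wcost w l1 ≤ R ∧ wcost w l2 ≤ R' + M := by
  induction l generalizing R with
  | nil => exact ⟨[], [], rfl, by rw [wcost_nil]; exact hR, by rw [wcost_nil]; positivity⟩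
  | cons i l ih =>
    by_cases hi : w i ≤ R
    · rw [wcost_cons] at h
      obtain ⟨l1, l2, h1, h2, h3⟩ := ih (R - w i) (by linarith) (by linarith)
      refine ⟨i :: l1, l2, by rw [h1]; rfl, ?_, h3⟩
      rw [wcost_cons]
      linarith
    · push Not at hi
      refine ⟨[], i :: l, rfl, by rw [wcost_nil]; exact hR, ?_⟩
      linarith [hM i]

/-- Submultiplicativity of the ball sizes. Proof: by `exists_min` and `split_word` every element of
the big ball is a product of an element of the first ball and one of the second ball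
(`wlen_le` bounds the lengths of the two factors), so the big ball is contained in the image of the
product of the two finite balls (`finite_ball`, `Set.Finite`, `Nat.card_prod`,
`Nat.card_le_card_of_surjective` or `Set.ncard_image_le`). -/
theorem ball_mul_le {u : ι → G} {w : ι → ℝ} (hu : Gens u) (hw : ∀ i, 0 < w i) {M : ℝ}
    (hM : ∀ i, w i ≤ M) (hM0 : 0 ≤ M) (R R' : ℝ) (hR : 0 ≤ R) (hR' : 0 ≤ R') :
    Nat.card {g : G // wlen u w g ≤ R + R'} ≤
      Nat.card {g : G // wlen u w g ≤ R} * Nat.card {g : G // wlen u w g ≤ R' + M} := by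
  have f1 := finite_ball hu hw R
  have f2 := finite_ball hu hw (R' + M)
  have hsub : {g : G | wlen u w g ≤ R + R'} ⊆
      (fun q : G × G => q.1 * q.2) '' ({g : G | wlen u w g ≤ R} ×ˢ {g : G | wlen u w g ≤ R' + M}) := by
    intro g hg
    have hg' : wlen u w g ≤ R + R' := hg
    obtain ⟨l, hl, hl'⟩ := exists_min hu hw g
    obtain ⟨l1, l2, h1, h2, h3⟩ := split_word hw hM hM0 l R R' hR hR' (by rw [hl']; exact hg')
    refine ⟨(wval u l1, wval u l2), ⟨?_, ?_⟩, ?_⟩
    · exact (wlen_le (fun i => (hw i).le) rfl).trans h2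
    · exact (wlen_le (fun i => (hw i).le) rfl).trans h3
    · show wval u l1 * wval u l2 = g
      rw [← wval_append, ← h1, hl]
  have h4 := Set.ncard_le_ncard hsub ((f1.prod f2).image _)
  have h5 := Set.ncard_image_le (f := fun q : G × G => q.1 * q.2) (f1.prod f2)
  have h6 : ({g : G | wlen u w g ≤ R} ×ˢ {g : G | wlen u w g ≤ R' + M}).ncard =
      {g : G | wlen u w g ≤ R}.ncard * {g : G | wlen u w g ≤ R' + M}.ncard := Set.ncard_prod
  rw [h6] at h5
  exact h4.trans h5

/-- the ball sizes -/
noncomputable def Ent_B (u : ι → G) (w : ι → ℝ) (R : ℝ) : ℕ := Nat.card {g : G // wlen u w g ≤ R}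

theorem Ent_B_mono {u : ι → G} {w : ι → ℝ} (hu : Gens u) (hw : ∀ i, 0 < w i) {R R' : ℝ}
    (h : R ≤ R') : Ent_B u w R ≤ Ent_B u w R' :=
  Nat.card_mono (finite_ball hu hw R') fun _ hg => le_trans hg h

theorem Ent_B_pos {u : ι → G} {w : ι → ℝ} (hu : Gens u) (hw : ∀ i, 0 < w i) {R : ℝ}
    (h : 0 ≤ R) : 1 ≤ Ent_B u w R := by
  have hfin := finite_ball hu hw R
  have h1 : (1 : G) ∈ {g : G | wlen u w g ≤ R} := by
    have h2 : wlen u w (1 : G) ≤ wcost w [] := wlen_le (fun i => (hw i).le) (wval_nil u)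
    rw [wcost_nil] at h2
    exact h2.trans h
  exact (Set.ncard_pos hfin).2 ⟨1, h1⟩

/-- Existence of the entropy and its relation with the Poincare series.

Proof. Take `M > 0`, `M ≥ w i` for all `i` (finite type). Put `a n = log |B(n + M)|`, `n : ℕ`.
`ball_mul_le` with `R = m + M`, `R' = n` gives `Subadditive a`; `a n ≥ 0` (`1` is in every ball,
`wlen 1 ≤ 0` by the empty word), so `Subadditive.tendsto_lim` gives `a n / n → h := lim`, `h ≥ 0`.
For real `R ≥ M + 1` put `n = ⌊R - M⌋₊`: `a n ≤ log |B(R)| ≤ a (n + 1)` and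
`a n / R = (a n / n) (n / R) → h`, `a (n+1) / R → h`: squeeze (`tendsto_nat_floor_atTop`,
`tendsto_nat_floor_div_atTop`-type lemmas, or direct estimates).

If `h < s`: choose `h < t < s`, `t > 0`; eventually `|B(n)| ≤ exp (t n)`. For `g` put
`n = ⌈wlen g⌉₊`: `wlen g ≤ n` and `exp (-s wlen g) ≤ exp (-s (n - 1))` as `wlen g ≥ n - 1`, `s > 0`.
In `ENNReal`: `∑ g, exp (-s wlen g) ≤ ∑ n, |B(n)| exp (-s (n-1)) < ∞` (`ENNReal.tsum_comm`); or use
`summable_of_sum_le` with a fibrewise bound.

If `0 < s` and `Conv s` with sum `C`: `|B(R)| exp (-s R) ≤ C` (`Summable.sum_le_tsum` on the finite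
ball), so `log |B(R)| / R ≤ s + (log C) / R` for `R > 0`, and the limit is `≤ s`
(`le_of_tendsto_of_tendsto`). -/
theorem exists_ent {u : ι → G} {w : ι → ℝ} (hu : Gens u) (hw : ∀ i, 0 < w i) :
    ∃ h : ℝ, 0 ≤ h ∧ IsEnt u w h ∧ (∀ s, h < s → Conv u w s) ∧
      ∀ s, 0 < s → Conv u w s → h ≤ s := by
  have hwn : ∀ i, 0 ≤ w i := fun i => (hw i).le
  obtain ⟨M, hM0, hM⟩ : ∃ M : ℝ, 0 < M ∧ ∀ i, w i ≤ M := by
    obtain ⟨M, hM⟩ := (Set.finite_range w).bddAbove
    exact ⟨max M 1, lt_max_of_lt_right one_pos, fun i => (hM ⟨i, rfl⟩).trans (le_max_left _ _)⟩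
  have hpos : ∀ {R : ℝ}, 0 ≤ R → (0 : ℝ) < Ent_B u w R := fun h => by
    exact_mod_cast Ent_B_pos hu hw h
  set a : ℕ → ℝ := fun n => Real.log (Ent_B u w (n + M)) with ha
  have ha0 : ∀ n, 0 ≤ a n := fun n => Real.log_nonneg (by
    exact_mod_cast Ent_B_pos hu hw (by positivity))
  have hsub : Subadditive a := by
    intro m n
    have h1 := ball_mul_le hu hw hM hM0.le (m + M) n (by positivity) (by positivity)
    have h2 : ((m + n : ℕ) : ℝ) + M = (m + M) + n := by push_cast; ring
    have h3 : (Ent_B u w (((m + n : ℕ) : ℝ) + M) : ℝ) ≤ Ent_B u w (m + M) * Ent_B u w (n + M) := by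
      rw [h2]
      exact_mod_cast h1
    have p1 := hpos (R := (m : ℝ) + M) (by positivity)
    have p2 := hpos (R := (n : ℝ) + M) (by positivity)
    have p3 := hpos (R := ((m + n : ℕ) : ℝ) + M) (by positivity)
    show Real.log _ ≤ Real.log _ + Real.log _
    rw [← Real.log_mul p1.ne' p2.ne']
    exact Real.log_le_log p3 h3
  have hbdd : BddBelow (Set.range fun n => a n / n) :=
    ⟨0, by rintro _ ⟨n, rfl⟩; exact div_nonneg (ha0 n) (Nat.cast_nonneg n)⟩
  have hlim := hsub.tendsto_lim hbdd
  set h := hsub.lim with hh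
  have hh0 : 0 ≤ h := ge_of_tendsto' hlim fun n => div_nonneg (ha0 n) (Nat.cast_nonneg n)
  -- the limit over the reals
  have hfl : Tendsto (fun R : ℝ => (⌊R - M⌋₊ : ℝ) / R) atTop (nhds 1) := by
    have t1 : Tendsto (fun R : ℝ => R - M) atTop atTop := tendsto_atTop_add_const_right _ _ tendsto_id
    have t2 := (tendsto_nat_floor_div_atTop (R := ℝ)).comp t1
    have t3 : Tendsto (fun R : ℝ => 1 - M / R) atTop (nhds 1) := by
      have := (tendsto_const_nhds (x := M)).div_atTop tendsto_id (α := ℝ)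
      simpa using this.const_sub 1
    have t4 := t2.mul t3
    rw [one_mul] at t4
    refine t4.congr' ?_
    filter_upwards [eventually_gt_atTop M, eventually_gt_atTop 0] with R h1 h2
    have h3 : R - M ≠ 0 := by linarith [sub_pos.2 h1] |> fun (h : 0 < R - M) => h.ne'
    simp only [Function.comp]
    field_simp
  have hN : Tendsto (fun R : ℝ => ⌊R - M⌋₊) atTop atTop :=
    tendsto_nat_floor_atTop.comp (tendsto_atTop_add_const_right _ _ tendsto_id)
  have hlow : Tendsto (fun R : ℝ => a ⌊R - M⌋₊ / R) atTop (nhds h) := by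
    have t1 := (hlim.comp hN).mul hfl
    rw [mul_one] at t1
    refine t1.congr' ?_
    filter_upwards [eventually_ge_atTop (M + 1)] with R h1
    have h2 : 1 ≤ ⌊R - M⌋₊ := by
      rw [Nat.le_floor_iff (by linarith)]
      push_cast
      linarith
    have h3 : ((⌊R - M⌋₊ : ℕ) : ℝ) ≠ 0 := by
      have : (1 : ℝ) ≤ (⌊R - M⌋₊ : ℕ) := by exact_mod_cast h2
      linarith
    have h4 : R ≠ 0 := by linarith
    simp only [Function.comp]
    field_simp
  have hup : Tendsto (fun R : ℝ => a (⌊R - M⌋₊ + 1) / R) atTop (nhds h) := by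
    have t0 : Tendsto (fun n : ℕ => a (n + 1) / ((n + 1 : ℕ) : ℝ)) atTop (nhds h) :=
      hlim.comp (tendsto_add_atTop_nat 1)
    have t2 : Tendsto (fun R : ℝ => ((⌊R - M⌋₊ + 1 : ℕ) : ℝ) / R) atTop (nhds 1) := by
      have t3 : Tendsto (fun R : ℝ => 1 / R) atTop (nhds 0) := by
        simpa using (tendsto_inv_atTop_zero (𝕜 := ℝ))
      have t4 := hfl.add t3
      rw [add_zero] at t4
      refine t4.congr fun R => ?_
      push_cast
      ring
    have t1 := (t0.comp hN).mul t2
    rw [mul_one] at t1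
    refine t1.congr' ?_
    filter_upwards [eventually_ge_atTop (M + 1)] with R h1
    have h3 : ((⌊R - M⌋₊ + 1 : ℕ) : ℝ) ≠ 0 := by positivity
    have h4 : R ≠ 0 := by linarith
    simp only [Function.comp]
    field_simp
  have hent : IsEnt u w h := by
    refine tendsto_of_tendsto_of_tendsto_of_le_of_le' hlow hup ?_ ?_
    · filter_upwards [eventually_ge_atTop (M + 1)] with R h1
      have h2 : (⌊R - M⌋₊ : ℝ) ≤ R - M := Nat.floor_le (by linarith)
      have h3 : a ⌊R - M⌋₊ ≤ Real.log (Ent_B u w R) := by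
        refine Real.log_le_log (hpos (by positivity)) ?_
        exact_mod_cast Ent_B_mono hu hw (by linarith)
      exact div_le_div_of_nonneg_right h3 (by linarith)
    · filter_upwards [eventually_ge_atTop (M + 1)] with R h1
      have h2 : R - M < (⌊R - M⌋₊ : ℝ) + 1 := Nat.lt_floor_add_one _
      have h3 : Real.log (Ent_B u w R) ≤ a (⌊R - M⌋₊ + 1) := by
        refine Real.log_le_log (hpos (by linarith)) ?_
        have h4 : R ≤ ((⌊R - M⌋₊ + 1 : ℕ) : ℝ) + M := by push_cast; linarith
        exact_mod_cast Ent_B_mono hu hw h4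
      exact div_le_div_of_nonneg_right h3 (by linarith)
  refine ⟨h, hh0, hent, ?_, ?_⟩
  · intro s hs
    obtain ⟨t, ht1, ht2⟩ := exists_between hs
    have ht0 : 0 < t := lt_of_le_of_lt hh0 ht1
    have hs0 : 0 < s := ht0.trans ht2
    set b : ℕ → ℝ := fun n => Ent_B u w n * Real.exp (-(s * ((n : ℝ) - 1))) with hb
    have hb0 : ∀ n, 0 ≤ b n := fun n => mul_nonneg (Nat.cast_nonneg _) (Real.exp_pos _).le
    have hbs : Summable b := by
      have g1 : Summable fun n : ℕ => Real.exp s * Real.exp (-(s - t)) ^ n :=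
        (summable_geometric_of_lt_one (Real.exp_pos _).le
          (Real.exp_lt_one_iff.2 (by linarith))).mul_left _
      refine Summable.of_norm_bounded_eventually_nat g1 ?_
      have e1 : Tendsto (fun n : ℕ => Real.log (Ent_B u w (n : ℝ)) / (n : ℝ)) atTop (nhds h) :=
        hent.comp tendsto_natCast_atTop_atTop
      filter_upwards [e1.eventually (gt_mem_nhds ht1), eventually_gt_atTop 0] with n h1 h2
      have h3 : (0 : ℝ) < n := by exact_mod_cast h2
      rw [div_lt_iff₀ h3] at h1
      have h4 : (Ent_B u w (n : ℝ) : ℝ) ≤ Real.exp (t * n) := by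
        rw [← Real.log_le_iff_le_exp (hpos h3.le)]
        exact h1.le
      rw [Real.norm_of_nonneg (hb0 n)]
      calc b n ≤ Real.exp (t * n) * Real.exp (-(s * ((n : ℝ) - 1))) :=
            mul_le_mul_of_nonneg_right h4 (Real.exp_pos _).le
        _ = Real.exp s * Real.exp (-(s - t)) ^ n := by
            rw [← Real.exp_nat_mul, ← Real.exp_add, ← Real.exp_add]
            congr 1
            ring
    refine summable_of_sum_le (c := ∑' n, b n) (fun g => (Real.exp_pos _).le) fun F => ?_
    classical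
    have h5 : ∑ g ∈ F, Real.exp (-(s * wlen u w g)) =
        ∑ n ∈ F.image (fun g => ⌈wlen u w g⌉₊), ∑ g ∈ F with ⌈wlen u w g⌉₊ = n,
          Real.exp (-(s * wlen u w g)) :=
      (Finset.sum_fiberwise_of_maps_to (fun g hg => Finset.mem_image_of_mem _ hg) _).symm
    rw [h5]
    refine (Finset.sum_le_sum fun n _ => ?_).trans (hbs.sum_le_tsum _ fun n _ => hb0 n)
    have h6 : ∑ g ∈ F with ⌈wlen u w g⌉₊ = n, Real.exp (-(s * wlen u w g)) ≤
        ∑ g ∈ F with ⌈wlen u w g⌉₊ = n, Real.exp (-(s * ((n : ℝ) - 1))) := by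
      refine Finset.sum_le_sum fun g hg => ?_
      rw [Finset.mem_filter] at hg
      rw [Real.exp_le_exp]
      have h7 : (n : ℝ) < wlen u w g + 1 := by
        rw [← hg.2]
        exact Nat.ceil_lt_add_one (wlen_nonneg hwn g)
      nlinarith
    refine h6.trans ?_
    rw [Finset.sum_const, nsmul_eq_mul]
    refine mul_le_mul_of_nonneg_right ?_ (Real.exp_pos _).le
    have h8 : ((F.filter fun g => ⌈wlen u w g⌉₊ = n) : Finset G).card ≤ Ent_B u w n := by
      rw [← Set.ncard_coe_finset]
      refine Set.ncard_le_ncard ?_ (finite_ball hu hw n)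
      intro g hg
      rw [Finset.mem_coe, Finset.mem_filter] at hg
      show wlen u w g ≤ n
      rw [← hg.2]
      exact Nat.le_ceil _
    exact_mod_cast h8
  · intro s hs hconv
    set C : ℝ := ∑' g : G, Real.exp (-(s * wlen u w g)) with hC
    have hconv' : Summable fun g : G => Real.exp (-(s * wlen u w g)) := hconv
    have hC0 : 0 < C := by
      have h1 := hconv'.sum_le_tsum {(1 : G)} fun g _ => (Real.exp_pos _).le
      rw [Finset.sum_singleton] at h1
      exact lt_of_lt_of_le (Real.exp_pos _) h1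
    have hbd : ∀ R : ℝ, 0 < R → Real.log (Ent_B u w R) / R ≤ s + Real.log C / R := by
      intro R hR
      have h1 := hconv'.sum_le_tsum (finite_ball hu hw R).toFinset fun g _ => (Real.exp_pos _).le
      have h2 : (Ent_B u w R : ℝ) * Real.exp (-(s * R)) ≤ C := by
        refine le_trans ?_ h1
        have h3 : ∑ g ∈ (finite_ball hu hw R).toFinset, Real.exp (-(s * R)) ≤
            ∑ g ∈ (finite_ball hu hw R).toFinset, Real.exp (-(s * wlen u w g)) := by
          refine Finset.sum_le_sum fun g hg => ?_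
          rw [Set.Finite.mem_toFinset] at hg
          have hg' : wlen u w g ≤ R := hg
          rw [Real.exp_le_exp]
          nlinarith
        rw [Finset.sum_const, nsmul_eq_mul] at h3
        refine le_trans (le_of_eq ?_) h3
        congr 2
        exact Set.ncard_eq_toFinset_card _ (finite_ball hu hw R)
      have h4 : Real.log (Ent_B u w R) ≤ s * R + Real.log C := by
        have h5 : (Ent_B u w R : ℝ) ≤ C * Real.exp (s * R) := by
          rw [Real.exp_neg] at h2
          rwa [← div_eq_mul_inv, div_le_iff₀ (Real.exp_pos _)] at h2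
        have h6 := Real.log_le_log (hpos hR.le) h5
        rw [Real.log_mul hC0.ne' (Real.exp_pos _).ne', Real.log_exp] at h6
        linarith
      rw [div_le_iff₀ hR]
      have h7 : (s + Real.log C / R) * R = s * R + Real.log C := by
        field_simp
      rw [h7]
      exact h4
    have t1 : Tendsto (fun R : ℝ => s + Real.log C / R) atTop (nhds s) := by
      have := (tendsto_const_nhds (x := Real.log C)).div_atTop tendsto_id (α := ℝ)
      simpa using this.const_add s
    refine le_of_tendsto_of_tendsto hent t1 ?_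
    filter_upwards [eventually_gt_atTop 0] with R hR
    exact hbd R hR

end Pool.Agent.Lib.MP_422011_al
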