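import Pool.Agent.Lib.MP_422011_al.Key
import Pool.Agent.Lib.MP_422011_al.Cls
import Pool.Agent.Lib.MP_422011_al.Ent

/-!
# Two distinct minimisers, in terms of the indexed family of generators
-/

namespace Pool.Agent.Lib.MP_422011_al

variable {N : ℕ}

theorem pc_mem00 : ((0 : ℤ), (0 : ℤ)) ∈ PP := pair_DD (by decide) (by decide)

/-- the value of the minimal entropy is `2 N` times the minimal sum of a good class weight: lower
bound for every normalised weight -/
theorem ent_lower (hN : 2 ≤ N) {m : ℝ} (hm : ∀ θ', Good N θ' → m ≤ ∑ p ∈ PP, θ' p)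
    (w : Idx N → ℝ) (hw : ∀ i, 0 < w i) (hsym : ∀ i, w (iinv i) = w i) (h1 : ∑ i, w i = 1)
    {h : ℝ} (hh : IsEnt gen w h) : 2 * N * m ≤ h := by
  have hg := gens_gen (N := N) (by omega)
  obtain ⟨h', _, hent, hconv, _⟩ := exists_ent hg hw
  have : h' = h := tendsto_nhds_unique hent hh
  subst this
  obtain ⟨θ, hθs, hθp, hθsum, hθc⟩ := class_avg (by omega) w hw hsym
  have hNr : (0 : ℝ) < 2 * N := by positivity
  have hsum : ∑ p ∈ PP, θ p = 1 / (2 * N) := by
    rw [h1] at hθsum
    field_simp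
    linarith
  have hpos : 0 < h' := by
    by_contra hcon
    push Not at hcon
    have hth := hθp _ pc_mem00
    have h2 : 0 < Real.log 2 / (2 * θ (0, 0)) := div_pos (Real.log_pos (by norm_num)) (by linarith)
    have h3 := coer hN hθp (s := Real.log 2 / (2 * θ (0, 0))) h2
      (hθc _ h2.le (hconv _ (by linarith))) _ pc_mem00
    have h4 : Real.log 2 / (2 * θ (0, 0)) * θ (0, 0) = Real.log 2 / 2 := by
      field_simp
    rw [h4] at h3
    have : 0 < Real.log 2 := Real.log_pos (by norm_num)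
    linarith
  have hgood : Good N (fun p => h' * θ p) := by
    refine ⟨fun a b => by simp only [hθs a b], fun p hp => mul_pos hpos (hθp p hp), ?_⟩
    intro s hs
    have h2 := (conv_smul hg (cw_pos hθp) hpos s).2
      (hθc (h' * s) (mul_pos hpos (by linarith)).le (hconv _ (by nlinarith)))
    exact h2
  have h3 := hm _ hgood
  rw [← Finset.mul_sum, hsum] at h3
  have h4 : h' * (1 / (2 * N)) = h' / (2 * N) := by ring
  rw [h4, le_div_iff₀ hNr] at h3
  linarith

/-- upper bound for the entropy of the normalisation of a good class weight -/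
theorem ent_upper (hN : 2 ≤ N) {θ : ℤ × ℤ → ℝ} (hθ : Good N θ) {m : ℝ}
    (hm : ∑ p ∈ PP, θ p = m) :
    ∃ h, IsEnt (gen (N := N)) (fun i => 1 / (2 * N * m) * cw θ i) h ∧ h ≤ 2 * N * m := by
  obtain ⟨hsym, hpos, hconv⟩ := hθ
  have hg := gens_gen (N := N) (by omega)
  have hNr : (0 : ℝ) < 2 * N := by positivity
  have hmpos : 0 < m := by
    rw [← hm]
    exact Finset.sum_pos hpos ⟨(0, 0), pc_mem00⟩
  have hc : 0 < 1 / (2 * N * m) := div_pos one_pos (mul_pos hNr hmpos)
  obtain ⟨h, h0, hent, _, hle⟩ := exists_ent hg (w := fun i : Idx N => 1 / (2 * N * m) * cw θ i)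
    (fun i => mul_pos hc (cw_pos hpos i))
  refine ⟨h, hent, ?_⟩
  refine le_of_forall_gt_imp_ge_of_dense fun s hs => ?_
  have hs0 : 0 < s := lt_trans (by positivity) hs
  refine hle s hs0 ?_
  rw [conv_smul hg (cw_pos hpos) hc]
  apply hconv
  rw [one_div, ← div_eq_inv_mul, one_lt_div (by positivity)]
  exact hs

/-- Two distinct normalised symmetric weights minimise the entropy. -/
theorem main_idx {N : ℕ} (hN : 10 ^ 14 ≤ N) : ∃ w0 w1 : Idx N → ℝ, w0 ≠ w1 ∧
    ((∀ i, 0 < w0 i) ∧ (∀ i, w0 (iinv i) = w0 i) ∧ ∑ i, w0 i = 1) ∧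
    ((∀ i, 0 < w1 i) ∧ (∀ i, w1 (iinv i) = w1 i) ∧ ∑ i, w1 i = 1) ∧
    ∃ h, IsEnt gen w0 h ∧ IsEnt gen w1 h ∧
      ∀ w : Idx N → ℝ, (∀ i, 0 < w i) → (∀ i, w (iinv i) = w i) → ∑ i, w i = 1 →
        ∀ h', IsEnt gen w h' → h ≤ h' := by
  have hN2 : 2 ≤ N := le_trans (by norm_num) hN
  have hNr : (0 : ℝ) < 2 * N := by positivity
  obtain ⟨r, β, hpar⟩ := exists_par
  obtain ⟨θ, hθ, hmin⟩ := exists_best hN2 (ref_good hN2 hpar)
  obtain ⟨c, g, η, hD, hE, hlt⟩ := key_shape hN hpar hθ (hmin _ (ref_good hN2 hpar))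
  set m := ∑ p ∈ PP, θ p with hm
  set A := (g false + g true) / 2 with hA
  set t := (g true - g false) / 2 with ht
  set σ := (A - c - 4 * η) / 2 with hσ
  have hσpos : 0 < σ := by rw [hσ, hA]; linarith
  have hη : 0 ≤ η := (abs_nonneg _).trans (hD 1 (by decide) 1 (by decide))
  have hc : -η < c := by
    have h1 := abs_le.1 (hD 1 (by decide) 1 (by decide))
    have h2 := hθ.2.1 (1, 1) (pair_DD (by decide) (by decide))
    linarith [h1.2]
  -- the two weights
  have hval : ∀ τ : ℝ, 0 ≤ τ → τ ≤ σ →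
      Sym (fun p => θ p + (t + τ) * vv p) ∧ (∀ p ∈ PP, 0 < θ p + (t + τ) * vv p) ∧
      Region (fun p => θ p + (t + τ) * vv p) c (fun i => if i then A - τ else A + τ) η := by
    intro τ hτ0 hτ
    have hEt : ∀ i, ∀ y ∈ TT, |θ (y, ee i) + (t + τ) * vv (y, ee i) -
        (if i then A - τ else A + τ)| ≤ η := by
      intro i y hy
      have h1 := hE i y hy
      rw [vv_TE hy]
      cases i
      · have : θ (y, ee false) + (t + τ) * (if false = true then -1 else 1) -
            (if false = true then A - τ else A + τ) = θ (y, ee false) - g false := by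
          simp only [Bool.false_eq_true, if_false]
          rw [hA, ht]; ring
        rw [this]; exact h1
      · have : θ (y, ee true) + (t + τ) * (if true = true then -1 else 1) -
            (if true = true then A - τ else A + τ) = θ (y, ee true) - g true := by
          simp only [if_true]
          rw [hA, ht]; ring
        rw [this]; exact h1
    have hsy : Sym (fun p => θ p + (t + τ) * vv p) := by
      intro a b
      simp only [hθ.1 a b, vv_sym a b]
    have hTEpos : ∀ i, ∀ y ∈ TT, 0 < θ (y, ee i) + (t + τ) * vv (y, ee i) := by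
      intro i y hy
      have h1 := abs_le.1 (hEt i y hy)
      have h2 : c + 4 * η < (if i then A - τ else A + τ) := by
        split_ifs <;> rw [hσ] at hτ <;> linarith
      linarith [h1.1]
    refine ⟨hsy, ?_, ?_, hEt, ?_⟩
    · rintro ⟨a, b⟩ hp
      rcases mem_PP.1 hp with ⟨h1, h2⟩ | ⟨h1, h2⟩ | ⟨h1, h2⟩
      · rw [vv_DD h1 h2]
        have := hθ.2.1 _ hp
        linarith
      · obtain ⟨i, rfl⟩ := mem_EE.1 h2
        exact hTEpos i a h1
      · obtain ⟨i, rfl⟩ := mem_EE.1 h1
        have := hTEpos i b h2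
        rw [hθ.1, vv_sym]
        exact this
    · intro a ha b hb
      simp only [vv_DD ha hb]
      simpa using hD a ha b hb
    · intro i
      dsimp only
      split_ifs <;> rw [hσ] at hτ <;> linarith
  obtain ⟨hs0, hp0, hr0⟩ := hval 0 le_rfl hσpos.le
  obtain ⟨hs1, hp1, hr1⟩ := hval σ hσpos.le le_rfl
  have hgood0 : Good N (fun p => θ p + (t + 0) * vv p) :=
    good_flat (by omega) hs0 hp0 hr0 (-(t + 0)) (fun p _ => by ring) hθ
  have hgood1 : Good N (fun p => θ p + (t + σ) * vv p) :=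
    good_flat (by omega) hs1 hp1 hr1 (-(t + σ)) (fun p _ => by ring) hθ
  have hsum : ∀ τ : ℝ, ∑ p ∈ PP, (θ p + (t + τ) * vv p) = m := by
    intro τ
    rw [Finset.sum_add_distrib, ← Finset.mul_sum, sum_vv, mul_zero, add_zero]
  have hmpos : 0 < m := Finset.sum_pos hθ.2.1 ⟨(0, 0), pc_mem00⟩
  have hkpos : 0 < 1 / (2 * N * m) := div_pos one_pos (mul_pos hNr hmpos)
  -- normalised versions
  have hnorm : ∀ θ' : ℤ × ℤ → ℝ, Good N θ' → ∑ p ∈ PP, θ' p = m →
      ((∀ i : Idx N, 0 < 1 / (2 * N * m) * cw θ' i) ∧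
        (∀ i : Idx N, 1 / (2 * N * m) * cw θ' (iinv i) = 1 / (2 * N * m) * cw θ' i) ∧
        ∑ i : Idx N, 1 / (2 * N * m) * cw θ' i = 1) ∧
      IsEnt gen (fun i : Idx N => 1 / (2 * N * m) * cw θ' i) (2 * N * m) := by
    intro θ' hθ' hm'
    have hA1 : ∀ i : Idx N, 0 < 1 / (2 * N * m) * cw θ' i :=
      fun i => mul_pos hkpos (cw_pos hθ'.2.1 i)
    have hA2 : ∀ i : Idx N, 1 / (2 * N * m) * cw θ' (iinv i) = 1 / (2 * N * m) * cw θ' i := by
      intro i
      have : cw θ' (iinv i) = cw θ' i := hθ'.1 _ _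
      rw [this]
    have hA3 : ∑ i : Idx N, 1 / (2 * N * m) * cw θ' i = 1 := by
      rw [← Finset.mul_sum]
      have h2 : ∑ i : Idx N, cw θ' i = 2 * N * m := by
        rw [Fintype.sum_prod_type]
        simp only [cw]
        rw [Finset.sum_coe_sort PP (fun p => θ' p), hm']
        simp only [Finset.sum_const, Finset.card_univ, Fintype.card_prod, Fintype.card_fin,
          Fintype.card_bool, nsmul_eq_mul]
        push_cast; ring
      rw [h2]
      field_simp
    refine ⟨⟨hA1, hA2, hA3⟩, ?_⟩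
    obtain ⟨h, hent, hle⟩ := ent_upper hN2 hθ' hm'
    have hge := ent_lower hN2 (m := m) hmin _ hA1 hA2 hA3 hent
    have : h = 2 * N * m := le_antisymm hle hge
    rw [this] at hent
    exact hent
  obtain ⟨hn0, he0⟩ := hnorm _ hgood0 (hsum 0)
  obtain ⟨hn1, he1⟩ := hnorm _ hgood1 (hsum σ)
  refine ⟨_, _, ?_, hn0, hn1, 2 * N * m, he0, he1, ?_⟩
  · intro heq
    have hx : (0 : ℕ) < N := by omega
    have h1 := congrFun heq (ix ((⟨0, hx⟩, true) : Ltr N) (pair_TE (a := 1) (by decide) false))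
    simp only [cw_ix] at h1
    rw [vv_TE (by decide)] at h1
    have h2 := mul_left_cancel₀ hkpos.ne' h1
    simp at h2
    linarith
  · intro w hw hsy hw1 h' hh'
    exact ent_lower hN2 hmin w hw hsy hw1 hh'

end Pool.Agent.Lib.MP_422011_al
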