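import Pool.Agent.Lib.MP_422011_al.Defs

/-!
# Weighted word lengths: basic facts

All statements are for a group `G`, a finite family of generators `u : ι → G` (as a monoid) and
positive weights.
-/

namespace Pool.Agent.Lib.MP_422011_al

variable {G : Type*} [Group G] {ι : Type*}

theorem wcost_nil (w : ι → ℝ) : wcost w [] = 0 := by simp [wcost]

theorem wcost_cons (w : ι → ℝ) (i : ι) (l : List ι) : wcost w (i :: l) = w i + wcost w l := by
  simp [wcost]

theorem wcost_append (w : ι → ℝ) (l m : List ι) : wcost w (l ++ m) = wcost w l + wcost w m := by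
  simp [wcost]

theorem wval_nil (u : ι → G) : wval u [] = 1 := by simp [wval]

theorem wval_cons (u : ι → G) (i : ι) (l : List ι) : wval u (i :: l) = u i * wval u l := by
  simp [wval]

theorem wval_append (u : ι → G) (l m : List ι) : wval u (l ++ m) = wval u l * wval u m := by
  simp [wval]

theorem wcost_nonneg {w : ι → ℝ} (hw : ∀ i, 0 ≤ w i) (l : List ι) : 0 ≤ wcost w l := by
  unfold wcost
  apply List.sum_nonneg
  intro x hx
  obtain ⟨i, _, rfl⟩ := List.mem_map.1 hx
  exact hw i

theorem wcost_mono {w w' : ι → ℝ} (h : ∀ i, w i ≤ w' i) (l : List ι) :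
    wcost w l ≤ wcost w' l := by
  induction l with
  | nil => simp [wcost]
  | cons i l ih => rw [wcost_cons, wcost_cons]; linarith [h i]

theorem wcost_smul (w : ι → ℝ) (c : ℝ) (l : List ι) :
    wcost (fun i => c * w i) l = c * wcost w l := by
  induction l with
  | nil => simp [wcost]
  | cons i l ih => rw [wcost_cons, wcost_cons, ih]; ring

theorem wlen_le {u : ι → G} {w : ι → ℝ} (hw : ∀ i, 0 ≤ w i) {l : List ι} {g : G}
    (h : wval u l = g) : wlen u w g ≤ wcost w l := by
  refine csInf_le ⟨0, ?_⟩ ⟨l, h, rfl⟩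
  rintro _ ⟨m, _, rfl⟩
  exact wcost_nonneg hw m

theorem wlen_nonneg {u : ι → G} {w : ι → ℝ} (hw : ∀ i, 0 ≤ w i) (g : G) : 0 ≤ wlen u w g := by
  refine Real.sInf_nonneg ?_
  rintro _ ⟨m, _, rfl⟩
  exact wcost_nonneg hw m

/-- Words of bounded cost are finitely many. Proof: the length of a word of cost `≤ R` is at most
`R / min w`, and there are finitely many lists of bounded length over a finite type
(`List.finite_length_le`). -/
theorem finite_words [Finite ι] {w : ι → ℝ} (hw : ∀ i, 0 < w i) (R : ℝ) :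
    {l : List ι | wcost w l ≤ R}.Finite := by
  obtain ⟨c, hc, hcw⟩ : ∃ c : ℝ, 0 < c ∧ ∀ i, c ≤ w i := by
    rcases isEmpty_or_nonempty ι with h | h
    · exact ⟨1, one_pos, fun i => (h.false i).elim⟩
    · obtain ⟨i, hi⟩ := Finite.exists_min w
      exact ⟨w i, hw i, hi⟩
  have key : ∀ l : List ι, c * l.length ≤ wcost w l := by
    intro l
    induction l with
    | nil => simp [wcost]
    | cons i l ih =>
      rw [wcost_cons]; push_cast [List.length_cons]; nlinarith [hcw i]
  obtain ⟨n, hn⟩ := exists_nat_gt (R / c)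
  refine (List.finite_length_le ι n).subset ?_
  intro l hl
  have h1 := key l
  have h2 : wcost w l ≤ R := hl
  have h3 : (l.length : ℝ) ≤ R / c := by
    rw [le_div_iff₀ hc]; linarith
  have : (l.length : ℝ) ≤ n := by linarith
  exact_mod_cast this

theorem exists_min [Finite ι] {u : ι → G} {w : ι → ℝ} (hu : Gens u) (hw : ∀ i, 0 < w i) (g : G) :
    ∃ l, wval u l = g ∧ wcost w l = wlen u w g := by
  obtain ⟨l0, h0⟩ := hu g
  have hfin : ({l : List ι | wcost w l ≤ wcost w l0} ∩ {l | wval u l = g}).Finite :=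
    (finite_words hw _).inter_of_left _
  obtain ⟨l, ⟨hl1, hl2⟩, hmin⟩ := hfin.exists_minimalFor (wcost w) _ ⟨l0, le_refl (wcost w l0), h0⟩
  refine ⟨l, hl2, le_antisymm ?_ (wlen_le (fun i => (hw i).le) hl2)⟩
  refine le_csInf ⟨_, l0, h0, rfl⟩ ?_
  rintro _ ⟨m, hm, rfl⟩
  rcases le_total (wcost w m) (wcost w l0) with h | h
  · rcases le_total (wcost w m) (wcost w l) with h' | h'
    · exact hmin ⟨h, hm⟩ h'
    · exact h'
  · exact le_trans hl1 h

theorem wlen_mul_le [Finite ι] {u : ι → G} {w : ι → ℝ} (hu : Gens u) (hw : ∀ i, 0 < w i)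
    (g h : G) : wlen u w (g * h) ≤ wlen u w g + wlen u w h := by
  obtain ⟨l, hl, hl'⟩ := exists_min hu hw g
  obtain ⟨m, hm, hm'⟩ := exists_min hu hw h
  rw [← hl', ← hm', ← wcost_append]
  exact wlen_le (fun i => (hw i).le) (by rw [wval_append, hl, hm])

theorem finite_ball [Finite ι] {u : ι → G} {w : ι → ℝ} (hu : Gens u) (hw : ∀ i, 0 < w i) (R : ℝ) :
    {g : G | wlen u w g ≤ R}.Finite := by
  refine ((finite_words hw R).image (wval u)).subset ?_
  intro g hg
  obtain ⟨l, hl, hl'⟩ := exists_min hu hw g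
  exact ⟨l, by simpa [hl'] using hg, hl⟩

theorem wlen_smul [Finite ι] {u : ι → G} {w : ι → ℝ} (hu : Gens u) (hw : ∀ i, 0 < w i) {c : ℝ}
    (hc : 0 < c) (g : G) : wlen u (fun i => c * w i) g = c * wlen u w g := by
  have hcw : ∀ i, 0 < c * w i := fun i => mul_pos hc (hw i)
  obtain ⟨l, hl, hl'⟩ := exists_min hu hw g
  obtain ⟨m, hm, hm'⟩ := exists_min hu hcw g
  apply le_antisymm
  · rw [← hl', ← wcost_smul]
    exact wlen_le (fun i => (hcw i).le) hl
  · rw [← hm', wcost_smul]
    exact mul_le_mul_of_nonneg_left (wlen_le (fun i => (hw i).le) hm) hc.le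

theorem conv_smul [Finite ι] {u : ι → G} {w : ι → ℝ} (hu : Gens u) (hw : ∀ i, 0 < w i) {c : ℝ}
    (hc : 0 < c) (s : ℝ) : Conv u (fun i => c * w i) s ↔ Conv u w (c * s) := by
  unfold Conv
  have : (fun g : G => Real.exp (-(s * wlen u (fun i => c * w i) g))) =
      fun g : G => Real.exp (-(c * s * wlen u w g)) := by
    funext g
    rw [wlen_smul hu hw hc]
    ring_nf
  rw [this]

theorem conv_mono {u : ι → G} {w : ι → ℝ} (hw : ∀ i, 0 ≤ w i) {s s' : ℝ} (h : s ≤ s')
    (hs : Conv u w s) : Conv u w s' := by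
  refine Summable.of_nonneg_of_le (fun g => (Real.exp_pos _).le) (fun g => ?_) hs
  apply Real.exp_le_exp.2
  have := mul_le_mul_of_nonneg_right h (wlen_nonneg (u := u) hw g)
  linarith

/-- Comparison: if `wlen w ≤ wlen w' + C` then convergence for `w` gives convergence for `w'`. -/
theorem conv_of_le {u : ι → G} {w w' : ι → ℝ} {C : ℝ} (hC : ∀ g, wlen u w g ≤ wlen u w' g + C)
    {s : ℝ} (hs : 0 ≤ s) (h : Conv u w s) : Conv u w' s := by
  have h2 : Summable fun g : G => Real.exp (s * C) * Real.exp (-(s * wlen u w g)) :=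
    Summable.mul_left _ h
  refine Summable.of_nonneg_of_le (fun g => (Real.exp_pos _).le) (fun g => ?_) h2
  rw [← Real.exp_add]
  apply Real.exp_le_exp.2
  have := mul_le_mul_of_nonneg_left (hC g) hs
  linarith

/-- If `(1 - e) w' ≤ w` pointwise then the same holds for the lengths. -/
theorem wlen_mono [Finite ι] {u : ι → G} {w w' : ι → ℝ} (hu : Gens u) (hw : ∀ i, 0 < w i)
    (hw' : ∀ i, 0 < w' i) (h : ∀ i, w i ≤ w' i) (g : G) : wlen u w g ≤ wlen u w' g := by
  obtain ⟨l, hl, hl'⟩ := exists_min hu hw' g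
  rw [← hl']
  exact (wlen_le (fun i => (hw i).le) hl).trans (wcost_mono h l)

end Pool.Agent.Lib.MP_422011_al
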