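import Pool.Agent.Lib.MP_422011_al.Gen

/-!
# The concrete generating family
-/

namespace Pool.Agent.Lib.MP_422011_al

variable {N : ℕ}

theorem xx_linv (x : Ltr N) : xx (linv x) = (xx x)⁻¹ := by
  simp [xx, linv, FreeGroup.inv_mk, FreeGroup.invRev]

theorem mem_PP {a b : ℤ} : (a, b) ∈ PP ↔
    (a ∈ DD ∧ b ∈ DD) ∨ (a ∈ TT ∧ b ∈ EE) ∨ (a ∈ EE ∧ b ∈ TT) := by
  simp only [PP, Finset.mem_union, Finset.mem_product]

theorem pair_swap {a b : ℤ} (h : (a, b) ∈ PP) : (b, a) ∈ PP := by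
  rw [mem_PP] at h ⊢
  tauto

theorem TT_sub_DD {a : ℤ} (h : a ∈ TT) : a ∈ DD := by
  have : TT ⊆ DD := by decide
  exact this h

theorem ee_mem (i : Bool) : ee i ∈ EE := by cases i <;> decide

theorem ee_not_mem (i : Bool) : ee i ∉ DD := by cases i <;> decide

theorem mem_EE {a : ℤ} : a ∈ EE ↔ ∃ i, a = ee i := by
  constructor
  · intro h
    simp only [EE, Finset.mem_insert, Finset.mem_singleton] at h
    rcases h with h | h
    · exact ⟨false, h⟩
    · exact ⟨true, h⟩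
  · rintro ⟨i, rfl⟩
    exact ee_mem i

theorem pair_DD {a b : ℤ} (ha : a ∈ DD) (hb : b ∈ DD) : (a, b) ∈ PP :=
  mem_PP.2 (Or.inl ⟨ha, hb⟩)

theorem pair_TE {a : ℤ} (ha : a ∈ TT) (i : Bool) : (a, ee i) ∈ PP :=
  mem_PP.2 (Or.inr (Or.inl ⟨ha, ee_mem i⟩))

theorem pair_ET {b : ℤ} (i : Bool) (hb : b ∈ TT) : (ee i, b) ∈ PP :=
  mem_PP.2 (Or.inr (Or.inr ⟨ee_mem i, hb⟩))

/-- the index of the inverse generator -/
def iinv (i : Idx N) : Idx N := (linv i.1, ⟨(i.2.1.2, i.2.1.1), pair_swap i.2.2⟩)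

theorem gen_iinv (i : Idx N) : gen (iinv i) = (gen i)⁻¹ := by
  simp only [gen, iinv, xx_linv]
  group

/-- the index with given letter and pair -/
def ix (x : Ltr N) {a b : ℤ} (h : (a, b) ∈ PP) : Idx N := (x, ⟨(a, b), h⟩)

theorem gen_ix (x : Ltr N) {a b : ℤ} (h : (a, b) ∈ PP) :
    gen (ix x h) = zz ^ a * xx x * zz ^ (-b) := rfl

theorem cw_ix (θ : ℤ × ℤ → ℝ) (x : Ltr N) {a b : ℤ} (h : (a, b) ∈ PP) :
    cw θ (ix x h) = θ (a, b) := rfl

/-- Removing the letter: the product of two consecutive generators. -/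
theorem gen_mul (x y : Ltr N) {a b c d : ℤ} (h : (a, b) ∈ PP) (h' : (c, d) ∈ PP) :
    gen (ix x h) * gen (ix y h') = zz ^ a * xx x * zz ^ (c - b) * xx y * zz ^ (-d) := by
  rw [gen_ix, gen_ix]
  group

theorem cw_pos {θ : ℤ × ℤ → ℝ} (hθ : ∀ p ∈ PP, 0 < θ p) (i : Idx N) : 0 < cw θ i := hθ _ i.2.2

theorem cw_nonneg {θ : ℤ × ℤ → ℝ} (hθ : ∀ p ∈ PP, 0 < θ p) (i : Idx N) : 0 ≤ cw θ i :=
  (cw_pos hθ i).le

/-- The family generates. Proof: the set of products of words is a submonoid, closed under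
inverses (`gen_iinv`), it contains `xx (i, true) = gen` with the pair `(0,0)`, and
`zz = gen (x, (1,0)) * gen (linv x, (0,0))`; `FreeGroup.induction_on`. -/
theorem gens_gen (hN : 1 ≤ N) : Gens (gen (N := N)) := by
  have hmul : ∀ g h : FG N, (∃ l, wval gen l = g) → (∃ l, wval gen l = h) →
      ∃ l, wval gen l = g * h := by
    rintro _ _ ⟨l, rfl⟩ ⟨m, rfl⟩
    exact ⟨l ++ m, wval_append _ _ _⟩
  have hinv : ∀ g : FG N, (∃ l, wval gen l = g) → ∃ l, wval gen l = g⁻¹ := by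
    rintro _ ⟨l, rfl⟩
    induction l with
    | nil => exact ⟨[], by simp [wval]⟩
    | cons i l ih =>
      rw [wval_cons, mul_inv_rev]
      refine hmul _ _ ih ⟨[iinv i], ?_⟩
      rw [wval_cons, wval_nil, gen_iinv, mul_one]
  have h00 : ((0 : ℤ), (0 : ℤ)) ∈ PP := pair_DD (by decide) (by decide)
  have h10 : ((1 : ℤ), (0 : ℤ)) ∈ PP := pair_DD (by decide) (by decide)
  have hx : ∀ x : Ltr N, ∃ l, wval gen l = xx x := by
    intro x
    refine ⟨[ix x h00], ?_⟩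
    rw [wval_cons, wval_nil, gen_ix]
    simp
  have hz : ∃ l, wval gen l = (zz : FG N) := by
    refine ⟨[ix (⟨0, hN⟩, true) h10, ix (linv (⟨0, hN⟩, true)) h00], ?_⟩
    rw [wval_cons, wval_cons, wval_nil, gen_ix, gen_ix, xx_linv]
    simp
  have hof : ∀ o : Option (Fin N), ∃ l, wval gen l = (FreeGroup.of o : FG N) := by
    intro o
    cases o with
    | none => exact hz
    | some i => exact hx (i, true)
  intro g
  induction g using FreeGroup.induction_on with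
  | C1 => exact ⟨[], wval_nil _⟩
  | of x => exact hof x
  | inv_of x h => exact hinv _ (hof x)
  | mul x y hx hy => exact hmul _ _ hx hy

end Pool.Agent.Lib.MP_422011_al
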