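import Pool.Agent.Lib.MP_422011_al.Grp

/-!
# JOB Hyp (about 150 lines): free groups are hyperbolic and not virtually cyclic

`FreeGroup.norm g = g.toWord.length`.
-/

namespace Pool.Agent.Lib.MP_422011_al

variable {α : Type*} [DecidableEq α]

/-- length of the longest common prefix of two lists -/
def lcp {β : Type*} [DecidableEq β] : List β → List β → ℕ
  | a :: l, b :: m => if a = b then lcp l m + 1 else 0
  | _, _ => 0

/-- Ultrametric inequality for common prefixes (induction). -/
theorem lcp_ultra {β : Type*} [DecidableEq β] (l m n : List β) :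
    min (lcp l m) (lcp m n) ≤ lcp l n := by
  induction l generalizing m n with
  | nil => simp [lcp]
  | cons a l ih =>
    cases m with
    | nil => simp [lcp]
    | cons b m =>
      cases n with
      | nil => simp [lcp]
      | cons c n =>
        by_cases h1 : a = b
        · by_cases h2 : b = c
          · subst h1 h2
            simp only [lcp, if_true]
            have := ih m n
            omega
          · simp [lcp, h2]
        · simp [lcp, h1]

theorem Hyp_red_inv {l : List (α × Bool)} (hl : FreeGroup.IsReduced l) :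
    FreeGroup.IsReduced (FreeGroup.invRev l) := by
  rw [FreeGroup.isReduced_iff_reduce_eq, FreeGroup.reduce_invRev, hl.reduce_eq]

theorem Hyp_norm_mk {l : List (α × Bool)} (hl : FreeGroup.IsReduced l) :
    (FreeGroup.mk l).norm = l.length := by
  rw [FreeGroup.norm, FreeGroup.toWord_mk, hl.reduce_eq]

omit [DecidableEq α] in
theorem Hyp_tail {a : α × Bool} {l : List (α × Bool)} (hl : FreeGroup.IsReduced (a :: l)) :
    FreeGroup.IsReduced l :=
  List.IsChain.of_cons hl

theorem Hyp_aux (l m : List (α × Bool)) (hl : FreeGroup.IsReduced l)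
    (hm : FreeGroup.IsReduced m) :
    ((FreeGroup.mk l)⁻¹ * FreeGroup.mk m).norm + 2 * lcp l m = l.length + m.length := by
  induction l generalizing m with
  | nil =>
    have h : ((FreeGroup.mk [])⁻¹ * FreeGroup.mk m : FreeGroup α) = FreeGroup.mk m := by
      rw [← FreeGroup.one_eq_mk, inv_one, one_mul]
    rw [h, Hyp_norm_mk hm]
    simp [lcp]
  | cons a l ih =>
    cases m with
    | nil =>
      have h : ((FreeGroup.mk (a :: l))⁻¹ * FreeGroup.mk [] : FreeGroup α) =
          (FreeGroup.mk (a :: l))⁻¹ := by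
        rw [← FreeGroup.one_eq_mk, mul_one]
      rw [h, FreeGroup.norm_inv_eq, Hyp_norm_mk hl]
      simp [lcp]
    | cons b m =>
      by_cases hab : a = b
      · subst hab
        have h1 : ∀ n : List (α × Bool), (FreeGroup.mk (a :: n) : FreeGroup α) =
            FreeGroup.mk [a] * FreeGroup.mk n := by
          intro n
          rw [FreeGroup.mul_mk, List.singleton_append]
        have h2 : ((FreeGroup.mk (a :: l))⁻¹ * FreeGroup.mk (a :: m) : FreeGroup α) =
            (FreeGroup.mk l)⁻¹ * FreeGroup.mk m := by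
          rw [h1 l, h1 m]
          group
        rw [h2]
        have := ih m (Hyp_tail hl) (Hyp_tail hm)
        simp only [lcp, if_true, List.length_cons]
        omega
      · have h1 : FreeGroup.invRev (a :: l) = FreeGroup.invRev l ++ [(a.1, !a.2)] := by
          simp [FreeGroup.invRev]
        have h2 : FreeGroup.IsReduced (FreeGroup.invRev l ++ [(a.1, !a.2)] ++ (b :: m)) := by
          refine FreeGroup.IsReduced.append_overlap ?_ ?_ (by simp)
          · rw [← h1]
            exact Hyp_red_inv hl
          · rw [List.singleton_append, FreeGroup.isReduced_cons_cons]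
            refine ⟨fun h => ?_, hm⟩
            by_contra h3
            apply hab
            refine Prod.ext h ?_
            revert h3
            cases a.2 <;> cases b.2 <;> simp
        have h3 : ((FreeGroup.mk (a :: l))⁻¹ * FreeGroup.mk (b :: m) : FreeGroup α) =
            FreeGroup.mk (FreeGroup.invRev l ++ [(a.1, !a.2)] ++ (b :: m)) := by
          rw [FreeGroup.inv_mk, h1, FreeGroup.mul_mk]
        rw [h3, Hyp_norm_mk h2]
        simp only [lcp, hab, if_false, List.length_append, FreeGroup.invRev_length,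
          List.length_cons, List.length_nil]
        omega

/-- The norm of `g⁻¹ h` by common prefixes: `|g⁻¹ h| = |g| + |h| - 2 lcp`.

Proof. Prove for reduced words `l`, `m` (`FreeGroup.IsReduced`) by induction on `l`:
`(mk l)⁻¹ * mk m` has norm `l.length + m.length - 2 * lcp l m`, i.e.
`norm + 2 * lcp l m = l.length + m.length`. If `l = a :: l'`, `m = a :: m'`, then the first letters
cancel (`(mk (a :: l'))⁻¹ * mk (a :: m') = (mk l')⁻¹ * mk m'`). If one of them is empty, trivial
(`FreeGroup.norm_inv_eq`). If the first letters differ, the word `invRev l ++ m` is reduced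
(`FreeGroup.IsReduced` as `List.IsChain`, `List.isChain_append`, the junction is
`(a.1, !a.2), (b.1, b.2)` with `a ≠ b`), so its norm is its length. -/
theorem norm_lcp (g h : FreeGroup α) :
    (g⁻¹ * h).norm + 2 * lcp g.toWord h.toWord = g.norm + h.norm := by
  have h1 := Hyp_aux g.toWord h.toWord FreeGroup.isReduced_toWord FreeGroup.isReduced_toWord
  rw [FreeGroup.mk_toWord, FreeGroup.mk_toWord] at h1
  exact h1

/-- The four point condition with constant `0`.

Proof. By left invariance (replace `x, y, z, t` by `t⁻¹ x, t⁻¹ y, t⁻¹ z, 1`) and `norm_lcp`, with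
`A = lcp x y`, `B = lcp z y`, `C = lcp x z` the claim is a consequence of `lcp_ultra`
(`lcp` is symmetric): `|x⁻¹ y| + |z| ≤ max (|x⁻¹ z| + |y|) (|y⁻¹ z| + |x|)` means
`-A ≤ max (-C) (-B)`, i.e. `min B C ≤ A`. -/
theorem four_point (x y z t : FreeGroup α) :
    ((x⁻¹ * y).norm + (z⁻¹ * t).norm : ℕ) ≤
      max ((x⁻¹ * z).norm + (y⁻¹ * t).norm) ((x⁻¹ * t).norm + (y⁻¹ * z).norm) := by
  have h1 : x⁻¹ * y = (t⁻¹ * x)⁻¹ * (t⁻¹ * y) := by group
  have h2 : x⁻¹ * z = (t⁻¹ * x)⁻¹ * (t⁻¹ * z) := by group
  have h3 : (y⁻¹ * z).norm = ((t⁻¹ * z)⁻¹ * (t⁻¹ * y)).norm := by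
    rw [← FreeGroup.norm_inv_eq (x := y⁻¹ * z)]
    congr 1
    group
  have h4 : (z⁻¹ * t).norm = (t⁻¹ * z).norm := by
    rw [← FreeGroup.norm_inv_eq]
    congr 1
    group
  have h5 : (y⁻¹ * t).norm = (t⁻¹ * y).norm := by
    rw [← FreeGroup.norm_inv_eq]
    congr 1
    group
  have h6 : (x⁻¹ * t).norm = (t⁻¹ * x).norm := by
    rw [← FreeGroup.norm_inv_eq]
    congr 1
    group
  rw [h1, h2, h3, h4, h5, h6]
  have e1 := norm_lcp (t⁻¹ * x) (t⁻¹ * y)
  have e2 := norm_lcp (t⁻¹ * x) (t⁻¹ * z)
  have e3 := norm_lcp (t⁻¹ * z) (t⁻¹ * y)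
  have e4 := lcp_ultra (t⁻¹ * x).toWord (t⁻¹ * z).toWord (t⁻¹ * y).toWord
  rw [le_max_iff]
  omega

omit [DecidableEq α] in
theorem Hyp_pos_red (l : List (α × Bool)) (hl : ∀ p ∈ l, p.2 = true) :
    FreeGroup.IsReduced l := by
  induction l with
  | nil => exact FreeGroup.IsReduced.nil
  | cons a l ih =>
    cases l with
    | nil => exact FreeGroup.IsReduced.singleton
    | cons b l =>
      rw [FreeGroup.isReduced_cons_cons]
      refine ⟨fun _ => ?_, ih fun p hp => hl p (List.mem_cons_of_mem _ hp)⟩
      rw [hl a (by simp), hl b (by simp)]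

/-- The free group of rank at least two is not virtually cyclic.

Proof. Let `H` be cyclic of finite index, `a ≠ b` two free generators. Some powers `a^m`, `b^n`,
`m, n > 0`, lie in `H` (`Subgroup.exists_pow_mem_of_index_ne_zero` or similar); `H` is
commutative, so `a^m b^n = b^n a^m`; but the words `a…a b…b` and `b…b a…a` are reduced and distinct
(`FreeGroup.toWord`, `IsReduced`), or map the free group to a concrete group in which `a^m`, `b^n`
never commute. -/
theorem not_virt_cyclic {a b : α} (hab : a ≠ b) (H : Subgroup (FreeGroup α)) (hH : H.FiniteIndex)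
    (hc : IsCyclic H) : False := by
  have hi : H.index ≠ 0 := hH.index_ne_zero
  obtain ⟨m, hm, _, hma⟩ := Subgroup.exists_pow_mem_of_index_ne_zero hi (FreeGroup.of a)
  obtain ⟨n, hn, _, hnb⟩ := Subgroup.exists_pow_mem_of_index_ne_zero hi (FreeGroup.of b)
  have hcomm : (FreeGroup.of a) ^ m * (FreeGroup.of b) ^ n =
      (FreeGroup.of b) ^ n * (FreeGroup.of a) ^ m := by
    have h1 := (IsCyclic.isMulCommutative (α := H)).is_comm.comm ⟨_, hma⟩ ⟨_, hnb⟩
    exact congrArg Subtype.val h1
  have h2 := congrArg FreeGroup.toWord hcomm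
  rw [FreeGroup.toWord_mul, FreeGroup.toWord_mul, FreeGroup.toWord_of_pow,
    FreeGroup.toWord_of_pow, (Hyp_pos_red _ ?_).reduce_eq, (Hyp_pos_red _ ?_).reduce_eq] at h2
  · obtain ⟨m, rfl⟩ := Nat.exists_eq_succ_of_ne_zero hm.ne'
    obtain ⟨n, rfl⟩ := Nat.exists_eq_succ_of_ne_zero hn.ne'
    rw [List.replicate_succ, List.replicate_succ, List.cons_append, List.cons_append] at h2
    have h3 := (List.cons.inj h2).1
    exact hab (Prod.ext_iff.1 h3).1
  · intro p hp
    rcases List.mem_append.1 hp with h | h
    · rw [List.eq_of_mem_replicate h]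
    · rw [List.eq_of_mem_replicate h]
  · intro p hp
    rcases List.mem_append.1 hp with h | h
    · rw [List.eq_of_mem_replicate h]
    · rw [List.eq_of_mem_replicate h]

end Pool.Agent.Lib.MP_422011_al
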