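import Pool.Agent.Lib.MP_422011_al.NF

/-!
# JOB Inj (about 40 lines): the generators are distinct

Proof. Suppose `z^a x z^(-b) = z^a' x' z^(-b')`, i.e. `z^(a-a') * (xx x * z^(-b)) = xx x' * z^(-b')`.
The word of `z^n` contains only the letters `z^(±1)`, so an element `xx x * z^n` is in `WW N` and its
first letter is `x`. If `a ≠ a'` then `head_zpow_mul` shows that the left side starts
with `none`, a contradiction. So `a = a'`; comparing first letters `x = x'`; cancel `xx x`;
`z^(-b) = z^(-b')` gives `b = b'` (homomorphism to the integers).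
-/

namespace Pool.Agent.Lib.MP_422011_al

variable {N : ℕ}

theorem inj_letters (n : ℤ) : ∀ p ∈ (zz ^ n : FG N).toWord, p.1 = none := by
  have h : ∀ n : ℕ, ∀ p ∈ (zz ^ n : FG N).toWord, p.1 = none := by
    intro n p hp
    rw [zz, FreeGroup.toWord_of_pow] at hp
    rw [List.eq_of_mem_replicate hp]
  rcases Int.eq_nat_or_neg n with ⟨k, rfl | rfl⟩
  · rw [zpow_natCast]
    exact h k
  · rw [zpow_neg, zpow_natCast, FreeGroup.toWord_inv]
    intro p hp
    unfold FreeGroup.invRev at hp
    rw [List.mem_reverse, List.mem_map] at hp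
    obtain ⟨q, hq, rfl⟩ := hp
    exact h k q hq

theorem inj_head (x : Ltr N) (n : ℤ) :
    (xx x * zz ^ n).toWord.head? = some (some x.1, x.2) := by
  have h : (zz ^ n : FG N).toWord.head? ≠ some (some x.1, !x.2) := by
    intro h
    have h1 := inj_letters n _ (List.mem_of_head? h)
    cases h1
  have h2 := toWord_cons_mul (some x.1, x.2) (zz ^ n) h
  rw [xx, h2]
  rfl

theorem inj_zpow {a b : ℤ} (h : (zz ^ a : FG N) = zz ^ b) : a = b := by
  have h1 := congrArg (FreeGroup.lift (fun _ : Option (Fin N) => Multiplicative.ofAdd (1 : ℤ))) h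
  rw [map_zpow, map_zpow, zz, FreeGroup.lift_apply_of, ← ofAdd_zsmul, ← ofAdd_zsmul] at h1
  have h2 := Multiplicative.ofAdd.injective h1
  simpa using h2

theorem gen_injective : Function.Injective (gen (N := N)) := by
  rintro ⟨x, ⟨⟨a, b⟩, hp⟩⟩ ⟨x', ⟨⟨a', b'⟩, hp'⟩⟩ h
  simp only [gen] at h
  have h1 : zz ^ (a - a') * (xx x * zz ^ (-b)) = xx x' * zz ^ (-b') := by
    have h2 : zz ^ (a - a') * (xx x * zz ^ (-b)) = zz ^ (-a') * (zz ^ a * xx x * zz ^ (-b)) := by
      rw [sub_eq_neg_add, zpow_add]
      group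
    rw [h2, h]
    group
  have ha : a = a' := by
    by_contra hne
    have h3 := head_zpow_mul (g := xx x * zz ^ (-b)) ⟨x, inj_head x _⟩ (sub_ne_zero.2 hne)
    rw [h1, inj_head x'] at h3
    simp at h3
  subst ha
  rw [sub_self, zpow_zero, one_mul] at h1
  have hx : x = x' := by
    have h4 := inj_head x (-b)
    rw [h1, inj_head x'] at h4
    simp only [Option.some.injEq, Prod.mk.injEq] at h4
    exact Prod.ext h4.1.symm h4.2.symm
  subst hx
  have h5 := inj_zpow (mul_left_cancel h1)
  have hb : b = b' := by omega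
  subst hb
  rfl

end Pool.Agent.Lib.MP_422011_al
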