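import Pool.Agent.Lib.MP_422011_al.Grp

/-!
# JOB Junc (about 120 lines): minimal words have only good junctions
-/

namespace Pool.Agent.Lib.MP_422011_al

variable {N : ℕ}

/-- the region of class weights in which minimal words are good -/
def Region (θ : ℤ × ℤ → ℝ) (c : ℝ) (g : Bool → ℝ) (η : ℝ) : Prop :=
  (∀ a ∈ DD, ∀ b ∈ DD, |θ (a, b) - c| ≤ η) ∧ (∀ i, ∀ y ∈ TT, |θ (y, ee i) - g i| ≤ η) ∧
    ∀ i, c + 4 * η < g i

/-- good junctions: right context `b` of a piece, left context `a` of the next piece -/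
def GJ (b a : ℤ) : Prop := (b ∈ DD ∧ a ∈ DD) ∨ ∃ i, b = ee i ∧ a = ee (!i)

/-- good words -/
def GW (l : List (Idx N)) : Prop := l.IsChain fun i j => GJ i.2.1.2 j.2.1.1

/-- (C2) `d - e_i` is a difference of two elements of `D` (`decide`, or `decide +kernel`). -/
theorem c2 (i : Bool) {d : ℤ} (hd : d ∈ DD) : ∃ b ∈ DD, ∃ a ∈ DD, a - b = d - ee i := by
  have h : ∀ i : Bool, ∀ d ∈ DD, ∃ b ∈ DD, ∃ a ∈ DD, a - b = d - ee i := by decide +kernel
  exact h i d hd

/-- (C3) `y - e_i` is a difference `a - b` with `a ∈ T`, `b ∈ D`. -/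
theorem c3 (i : Bool) {y : ℤ} (hy : y ∈ TT) : ∃ b ∈ DD, ∃ a ∈ TT, a - b = y - ee i := by
  have h : ∀ i : Bool, ∀ y ∈ TT, ∃ b ∈ DD, ∃ a ∈ TT, a - b = y - ee i := by decide +kernel
  exact h i y hy

private theorem not_DD_of_EE {a : ℤ} (h : a ∈ EE) : a ∉ DD := by
  obtain ⟨i, rfl⟩ := mem_EE.1 h
  exact ee_not_mem i

/-- Repairing a bad junction. `(a, b)` and `(a', b')` are the pairs of two consecutive pieces and
the junction `(b, a')` is bad. Then there are `b~, a~` with `a~ - b~ = a' - b`, admissible pairs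
`(a, b~)`, `(a~, b')` and strictly smaller total cost.

Proof (`mem_PP`, `mem_EE`). Write `g i > c + 4 η`.
* `b = ee i` (so `a ∈ T`), `a' ∈ D`, `b' ∈ D`: `c2`; old cost `≥ (g i - η) + (c - η)`, new
  `≤ 2 (c + η)`.
* `b = ee i`, `a' ∈ D`, `b' = ee j` (so `a' ∈ T`): `c3` for `y = a'`: `b~ ∈ D`, `a~ ∈ T`; old
  `≥ (g i - η) + (g j - η)`, new `≤ (c + η) + (g j + η)`.
* `b = ee i`, `a' = ee i`: `b~ = a~ = 1 ∈ T` (`a ∈ T`, `b' ∈ T`): old `≥ 2 (g i - η)`, new
  `≤ 2 (c + η)`.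
* `b ∈ D`, `a' = ee i` (so `b' ∈ T`): mirror images of the first two cases (use the symmetry of
  `θ`, and `c2`, `c3` with the roles of `a~, b~` exchanged: `b - ee i = a1 - b1` gives
  `ee i - b = b1 - a1`).
* `η ≥ 0` follows from `|θ (1, 1) - c| ≤ η`. -/
theorem repair {θ : ℤ × ℤ → ℝ} (hsym : Sym θ) {c : ℝ} {g : Bool → ℝ} {η : ℝ}
    (hR : Region θ c g η) {a b a' b' : ℤ} (h : (a, b) ∈ PP) (h' : (a', b') ∈ PP)
    (hbad : ¬ GJ b a') :
    ∃ b1 a1, (a, b1) ∈ PP ∧ (a1, b') ∈ PP ∧ a1 - b1 = a' - b ∧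
      θ (a, b1) + θ (a1, b') < θ (a, b) + θ (a', b') := by
  obtain ⟨hD, hT, hg⟩ := hR
  have hη : 0 ≤ η := (abs_nonneg _).trans (hD 1 (by decide) 1 (by decide))
  have uD : ∀ x ∈ DD, ∀ y ∈ DD, θ (x, y) ≤ c + η := fun x hx y hy => by
    have := (abs_le.1 (hD x hx y hy)).2
    linarith
  have lD : ∀ x ∈ DD, ∀ y ∈ DD, c - η ≤ θ (x, y) := fun x hx y hy => by
    have := (abs_le.1 (hD x hx y hy)).1
    linarith
  have uT : ∀ i, ∀ y ∈ TT, θ (y, ee i) ≤ g i + η := fun i y hy => by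
    have := (abs_le.1 (hT i y hy)).2
    linarith
  have lT : ∀ i, ∀ y ∈ TT, g i - η ≤ θ (y, ee i) := fun i y hy => by
    have := (abs_le.1 (hT i y hy)).1
    linarith
  have hb : b ∈ DD ∨ b ∈ EE := by
    rcases mem_PP.1 h with h | h | h
    · exact Or.inl h.2
    · exact Or.inr h.2
    · exact Or.inl (TT_sub_DD h.2)
  have ha' : a' ∈ DD ∨ a' ∈ EE := by
    rcases mem_PP.1 h' with h | h | h
    · exact Or.inl h.1
    · exact Or.inl (TT_sub_DD h.1)
    · exact Or.inr h.1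
  rcases hb with hb | hb
  · have ha'D : a' ∉ DD := fun hd => hbad (Or.inl ⟨hb, hd⟩)
    have ha'E : a' ∈ EE := ha'.resolve_left ha'D
    have hb' : b' ∈ TT := by
      rcases mem_PP.1 h' with h | h | h
      · exact absurd h.1 ha'D
      · exact absurd (TT_sub_DD h.1) ha'D
      · exact h.2
    obtain ⟨i, rfl⟩ := mem_EE.1 ha'E
    have e3 := hsym (ee i) b'
    have l3 := lT i b' hb'
    have hgi := hg i
    rcases mem_PP.1 h with ⟨h1, h2⟩ | ⟨h1, h2⟩ | ⟨h1, h2⟩
    · obtain ⟨b0, hb0, a0, ha0, he⟩ := c2 i hb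
      refine ⟨a0, b0, pair_DD h1 ha0, pair_DD hb0 (TT_sub_DD hb'), by linarith, ?_⟩
      have u1 := uD a h1 a0 ha0
      have u2 := uD b0 hb0 b' (TT_sub_DD hb')
      have l1 := lD a h1 b h2
      rw [e3]
      linarith
    · exact absurd hb (not_DD_of_EE h2)
    · obtain ⟨j, rfl⟩ := mem_EE.1 h1
      obtain ⟨b0, hb0, a0, ha0, he⟩ := c3 i h2
      refine ⟨a0, b0, pair_ET j ha0, pair_DD hb0 (TT_sub_DD hb'), by linarith, ?_⟩
      have u1 := uT j a0 ha0
      have u2 := uD b0 hb0 b' (TT_sub_DD hb')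
      have l1 := lT j b h2
      rw [e3, hsym (ee j) a0, hsym (ee j) b]
      linarith
  · have hbD : b ∉ DD := not_DD_of_EE hb
    have ha : a ∈ TT := by
      rcases mem_PP.1 h with h | h | h
      · exact absurd h.2 hbD
      · exact h.1
      · exact absurd (TT_sub_DD h.2) hbD
    obtain ⟨i, rfl⟩ := mem_EE.1 hb
    have l1 := lT i a ha
    have hgi := hg i
    have haD := TT_sub_DD ha
    rcases mem_PP.1 h' with ⟨h1, h2⟩ | ⟨h1, h2⟩ | ⟨h1, h2⟩
    · obtain ⟨b0, hb0, a0, ha0, he⟩ := c2 i h1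
      refine ⟨b0, a0, pair_DD haD hb0, pair_DD ha0 h2, he, ?_⟩
      have u1 := uD a haD b0 hb0
      have u2 := uD a0 ha0 b' h2
      have l2 := lD a' h1 b' h2
      linarith
    · obtain ⟨j, rfl⟩ := mem_EE.1 h2
      obtain ⟨b0, hb0, a0, ha0, he⟩ := c3 i h1
      refine ⟨b0, a0, pair_DD haD hb0, pair_TE ha0 j, he, ?_⟩
      have u1 := uD a haD b0 hb0
      have u2 := uT j a0 ha0
      have l2 := lT j a' h1
      linarith
    · obtain ⟨j, rfl⟩ := mem_EE.1 h1
      have hj : j = i := by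
        by_contra hne
        refine hbad (Or.inr ⟨i, rfl, ?_⟩)
        have : j = !i := by cases i <;> cases j <;> simp_all
        rw [this]
      subst hj
      have h1D : (1 : ℤ) ∈ DD := by decide
      refine ⟨1, 1, pair_DD haD h1D, pair_DD h1D (TT_sub_DD h2), by ring, ?_⟩
      have u1 := uD a haD 1 h1D
      have u2 := uD 1 h1D b' (TT_sub_DD h2)
      have l2 := lT j b' h2
      rw [hsym (ee j) b']
      linarith

/-- Minimal words are good.

Proof. If `l` is not good there is a splitting `l = l1 ++ i :: j :: l2` with a bad junction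
(`List.isChain_iff_forall_rel_of_append_cons_cons`). Replace the pairs of `i` and `j` by
those of `repair`, keeping the letters (`gen_mul`: the product of the two generators only depends on
the difference `a' - b`); the new word spells the same element and is strictly cheaper
(`wcost_append`, `wcost_cons`), contradicting `wlen_le`. -/
theorem min_good {θ : ℤ × ℤ → ℝ} (hsym : Sym θ) (hθ : ∀ p ∈ PP, 0 < θ p) {c : ℝ} {g : Bool → ℝ}
    {η : ℝ} (hR : Region θ c g η) (l : List (Idx N))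
    (hl : wcost (cw θ) l = wlen gen (cw θ) (wval gen l)) : GW l := by
  unfold GW
  rw [List.isChain_iff_forall_rel_of_append_cons_cons]
  rintro ⟨x, ⟨⟨a, b⟩, h⟩⟩ ⟨y, ⟨⟨a', b'⟩, h'⟩⟩ l1 l2 rfl
  by_contra hbad
  obtain ⟨b1, a1, hp, hp', he, hc⟩ := repair hsym hR h h' hbad
  have hval : wval gen (l1 ++ ix x hp :: ix y hp' :: l2)
      = wval gen (l1 ++ (x, ⟨(a, b), h⟩) :: (y, ⟨(a', b'), h'⟩) :: l2) := by
    simp only [wval_append, wval_cons, ← mul_assoc]
    have e1 : gen (ix x hp) * gen (ix y hp') = gen ((x, ⟨(a, b), h⟩) : Idx N) * gen ((y, ⟨(a', b'), h'⟩) : Idx N) := by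
      rw [gen_mul]
      have := gen_mul x y h h'
      unfold ix at this
      rw [this, he]
    rw [mul_assoc (wval gen l1), e1, ← mul_assoc]
  have h1 := wlen_le (u := gen) (fun i => cw_nonneg hθ i) hval
  rw [← hl] at h1
  simp only [wcost_append, wcost_cons, cw_ix] at h1
  simp only [cw] at h1
  linarith

end Pool.Agent.Lib.MP_422011_al
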