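import Pool.Agent.Lib.MP_422011_al.Junc

/-!
# JOB Net (about 100 lines): the flat direction
-/

namespace Pool.Agent.Lib.MP_422011_al

variable {N : ℕ}

/-- the flat direction -/
noncomputable def vv (p : ℤ × ℤ) : ℝ :=
  if p.1 = 3 ∨ p.2 = 3 then 1 else if p.1 = 22 ∨ p.2 = 22 then -1 else 0

theorem vv_sym : Sym vv := by
  intro a b
  simp only [vv]
  simp only [or_comm]

/-- `8` pairs contain `3` and `8` pairs contain `22`. -/
theorem sum_vv : ∑ p ∈ PP, vv p = 0 := by
  have h1 : ∀ p : ℤ × ℤ, vv p = ((if p.1 = 3 ∨ p.2 = 3 then 1 else if p.1 = 22 ∨ p.2 = 22 then -1 else 0 : ℤ) : ℝ) := by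
    intro p
    unfold vv
    split_ifs <;> simp
  have h2 : ∑ p ∈ PP, (if p.1 = 3 ∨ p.2 = 3 then 1 else if p.1 = 22 ∨ p.2 = 22 then -1 else 0 : ℤ) = 0 := by
    decide +kernel
  rw [Finset.sum_congr rfl (fun p _ => h1 p), ← Int.cast_sum, h2, Int.cast_zero]

private theorem net_DD : ∀ a ∈ DD, a ≠ 3 ∧ a ≠ 22 := by decide

theorem vv_DD {a b : ℤ} (ha : a ∈ DD) (hb : b ∈ DD) : vv (a, b) = 0 := by
  have h1 := net_DD a ha
  have h2 := net_DD b hb
  unfold vv
  rw [if_neg (by simp [h1.1, h2.1]), if_neg (by simp [h1.2, h2.2])]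

theorem vv_TE {y : ℤ} (hy : y ∈ TT) (i : Bool) : vv (y, ee i) = if i then -1 else 1 := by
  have h1 := net_DD y (TT_sub_DD hy)
  cases i
  · simp [vv, ee]
  · simp [vv, ee, h1.1]

private theorem net_aux (l : List (Idx N)) : ∀ i : Idx N, GW (i :: l) →
    (i.2.1.1 ∈ DD → |wcost (cw vv) (i :: l)| ≤ 1) ∧
      ∀ k : Bool, i.2.1.1 = ee k → |wcost (cw vv) (i :: l) - (if k then -1 else 1)| ≤ 1 := by
  induction l with
  | nil =>
    rintro ⟨x, ⟨⟨a, b⟩, hp⟩⟩ _
    have e : wcost (cw vv) [((x, ⟨(a, b), hp⟩) : Idx N)] = vv (a, b) := by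
      rw [wcost_cons, wcost_nil, add_zero]
      rfl
    rw [e]
    have hp2 := mem_PP.1 hp
    constructor
    · intro ha
      rcases hp2 with ⟨h1, h2⟩ | ⟨h1, h2⟩ | ⟨h1, h2⟩
      · rw [vv_DD h1 h2]; simp
      · obtain ⟨k, rfl⟩ := mem_EE.1 h2
        rw [vv_TE h1]
        cases k <;> simp
      · obtain ⟨k, rfl⟩ := mem_EE.1 h1
        exact absurd ha (ee_not_mem k)
    · intro k hk
      change a = ee k at hk
      subst hk
      rcases hp2 with ⟨h1, h2⟩ | ⟨h1, h2⟩ | ⟨h1, h2⟩
      · exact absurd h1 (ee_not_mem k)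
      · exact absurd (TT_sub_DD h1) (ee_not_mem k)
      · rw [vv_sym, vv_TE h2, sub_self]
        simp
  | cons j l ih =>
    rintro ⟨x, ⟨⟨a, b⟩, hp⟩⟩ hG
    have hG' := hG
    unfold GW at hG'
    rw [List.isChain_cons_cons] at hG'
    obtain ⟨hJ, hG2⟩ := hG'
    have hJ' : GJ b j.2.1.1 := hJ
    obtain ⟨ihD, ihE⟩ := ih j hG2
    have e : wcost (cw vv) (((x, ⟨(a, b), hp⟩) : Idx N) :: j :: l) = vv (a, b) + wcost (cw vv) (j :: l) := by
      rw [wcost_cons]
      rfl
    rw [e]
    have hp2 := mem_PP.1 hp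
    have hD : b ∈ DD → j.2.1.1 ∈ DD := by
      intro hb
      rcases hJ' with ⟨_, h2⟩ | ⟨i, h2, _⟩
      · exact h2
      · rw [h2] at hb
        exact absurd hb (ee_not_mem i)
    constructor
    · intro ha
      change a ∈ DD at ha
      rcases hp2 with ⟨h1, h2⟩ | ⟨h1, h2⟩ | ⟨h1, h2⟩
      · rw [vv_DD h1 h2, zero_add]
        exact ihD (hD h2)
      · obtain ⟨k, rfl⟩ := mem_EE.1 h2
        have h3 : j.2.1.1 = ee (!k) := by
          rcases hJ' with ⟨h3, _⟩ | ⟨i, h3, h4⟩
          · exact absurd h3 (ee_not_mem k)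
          · have : k = i := by
              cases k <;> cases i <;> simp [ee] at h3 ⊢
            rw [this]
            exact h4
        have h4 := ihE (!k) h3
        rw [vv_TE h1]
        have h5 : (if k then (-1 : ℝ) else 1) + wcost (cw vv) (j :: l) = wcost (cw vv) (j :: l) - (if (!k) then -1 else 1) := by
          cases k <;> simp <;> ring
        rw [h5]
        exact h4
      · obtain ⟨k, rfl⟩ := mem_EE.1 h1
        exact absurd ha (ee_not_mem k)
    · intro k hk
      change a = ee k at hk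
      subst hk
      rcases hp2 with ⟨h1, h2⟩ | ⟨h1, h2⟩ | ⟨h1, h2⟩
      · exact absurd h1 (ee_not_mem k)
      · exact absurd (TT_sub_DD h1) (ee_not_mem k)
      · rw [vv_sym, vv_TE h2, add_sub_cancel_left]
        exact ihD (hD (TT_sub_DD h2))

/-- Along a good word the contributions of the two contexts of an exceptional junction cancel; only
the two ends remain.

Proof. Induction on `l` of the statement: for a good word `i :: l` with left context `a` of `i`:
if `a ∈ DD` then `|wcost (cw vv) (i :: l)| ≤ 1`; if `a = ee k` then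
`|wcost (cw vv) (i :: l) - σ k| ≤ 1` where `σ false = 1`, `σ true = -1`. Induction step: let the
pair of `i` be `(a, b)`. `a, b ∈ D`: `vv = 0`, the next left context is in `D`. `a ∈ T`, `b = ee k`:
`vv = σ k`, and the next left context (if any) is `ee (!k)`, `σ k + σ (!k) = 0`.
`a = ee k`, `b ∈ T`: `vv = σ k`, the next left context is in `D` (a good junction with `b ∈ D`;
`ee_not_mem` excludes the other alternative). -/
theorem net_le (l : List (Idx N)) (h : GW l) : |wcost (cw vv) l| ≤ 2 := by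
  cases l with
  | nil => rw [wcost_nil]; simp
  | cons i l =>
    obtain ⟨h1, h2⟩ := net_aux l i h
    have hp : (i.2.1.1, i.2.1.2) ∈ PP := i.2.2
    have hcase : i.2.1.1 ∈ DD ∨ ∃ k, i.2.1.1 = ee k := by
      rcases mem_PP.1 hp with ⟨h3, _⟩ | ⟨h3, _⟩ | ⟨h3, _⟩
      · exact Or.inl h3
      · exact Or.inl (TT_sub_DD h3)
      · exact Or.inr (mem_EE.1 h3)
    rcases hcase with h3 | ⟨k, h3⟩
    · exact (h1 h3).trans (by norm_num)
    · have h4 := h2 k h3
      rw [abs_le] at h4 ⊢
      cases k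
      · simp only [Bool.false_eq_true, if_false] at h4
        constructor <;> linarith [h4.1, h4.2]
      · simp only [if_true] at h4
        constructor <;> linarith [h4.1, h4.2]

/-- Changing the weight in the flat direction changes the length by at most `2 |t|`.

Proof. Take a minimal word `l` of `g` for `θ` (`exists_min`, `gens_gen`); it is good by `min_good`;
its cost for `θ'` is the cost for `θ` plus `t * wcost (cw vv) l` (induction on `l`, all indices have
their pair in `PP`); `net_le`, `wlen_le`. -/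
theorem flat (hN : 1 ≤ N) {θ θ' : ℤ × ℤ → ℝ} (hsym : Sym θ) (hθ : ∀ p ∈ PP, 0 < θ p)
    (hθ' : ∀ p ∈ PP, 0 < θ' p) {c : ℝ} {g : Bool → ℝ} {η : ℝ} (hR : Region θ c g η) (t : ℝ)
    (ht : ∀ p ∈ PP, θ' p = θ p + t * vv p) (x : FG N) :
    wlen gen (cw θ') x ≤ wlen gen (cw θ) x + 2 * |t| := by
  obtain ⟨l, hl, hl'⟩ := exists_min (gens_gen hN) (cw_pos hθ) x
  have hG : GW l := min_good hsym hθ hR l (by rw [hl, hl'])
  have hcost : ∀ m : List (Idx N), wcost (cw θ') m = wcost (cw θ) m + t * wcost (cw vv) m := by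
    intro m
    induction m with
    | nil => simp [wcost]
    | cons i m ih =>
      rw [wcost_cons, wcost_cons, wcost_cons, ih]
      have h1 : cw θ' i = cw θ i + t * cw vv i := ht _ i.2.2
      rw [h1]
      ring
  have h1 := wlen_le (u := gen) (cw_nonneg hθ') hl
  rw [hcost l, hl'] at h1
  have h2 : t * wcost (cw vv) l ≤ 2 * |t| := by
    calc t * wcost (cw vv) l ≤ |t * wcost (cw vv) l| := le_abs_self _
      _ = |t| * |wcost (cw vv) l| := abs_mul _ _
      _ ≤ |t| * 2 := mul_le_mul_of_nonneg_left (net_le l hG) (abs_nonneg _)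
      _ = 2 * |t| := mul_comm _ _
  linarith

/-- If `θ` is in the region and `θ'` differs from `θ` in the flat direction and is good, then `θ` is
good (`flat` and `conv_of_le` with the roles: `Conv θ' s → Conv θ s`). -/
theorem good_flat (hN : 1 ≤ N) {θ θ' : ℤ × ℤ → ℝ} (hsym : Sym θ) (hθ : ∀ p ∈ PP, 0 < θ p)
    {c : ℝ} {g : Bool → ℝ} {η : ℝ} (hR : Region θ c g η) (t : ℝ)
    (ht : ∀ p ∈ PP, θ' p = θ p + t * vv p) (h : Good N θ') : Good N θ := by
  obtain ⟨_, h2, h3⟩ := h
  refine ⟨hsym, hθ, fun s hs => ?_⟩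
  exact conv_of_le (fun x => flat hN hsym hθ h2 hR t ht x) (by linarith) (h3 s hs)

end Pool.Agent.Lib.MP_422011_al
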