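import Pool.Agent.Lib.MP_422011_al.Cpl
import Pool.Agent.Lib.MP_422011_al.Junc

/-!
# JOB Reg (about 80 lines): from the exponents to the region
-/

namespace Pool.Agent.Lib.MP_422011_al

/-- `exp x - 1 - x ≥ x^2 / 4` for `|x| ≤ 1` and `≥ 1/4` for `|x| ≥ 1`. So if
`exp x - 1 - x ≤ η^2 / 8`, `0 < η ≤ 1`, then `|x| ≤ η`. (Any correct proof; e.g.
`Real.quadratic_le_exp_of_nonneg` for `x ≥ 0`; for `x < 0` use `exp x = 1 / exp (-x)` and
`exp (-x) ≤ ..`, or monotonicity/convexity: the function `exp x - 1 - x` is decreasing on `x ≤ 0`, and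
`Real.exp_bound'`-type bounds at `x = -η`.) -/
theorem exp_small {x η : ℝ} (hη : 0 < η) (hη1 : η ≤ 1) (h : Real.exp x - 1 - x ≤ η ^ 2 / 8) :
    |x| ≤ η := by
  rw [abs_le]
  constructor
  · by_contra hc
    push Not at hc
    set y : ℝ := -x with hy
    have hyη : η < y := by linarith
    have hx : x = -y := by linarith
    rw [hx] at h
    rcases le_or_gt y 1 with h1 | h1
    · have hb := Real.exp_bound' (x := y) (by linarith) h1 (n := 2) (by norm_num)
      norm_num [Finset.sum_range_succ, Nat.factorial] at hb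
      have hb2 : Real.exp y ≤ 1 + y + 3 / 4 * y ^ 2 := by linarith
      have hpos : 0 < Real.exp (-y) := Real.exp_pos _
      have hprod : Real.exp (-y) * Real.exp y = 1 := by
        rw [← Real.exp_add]; simp
      have hge : 1 ≤ Real.exp (-y) * (1 + y + 3 / 4 * y ^ 2) := by
        calc (1 : ℝ) = Real.exp (-y) * Real.exp y := hprod.symm
          _ ≤ _ := mul_le_mul_of_nonneg_left hb2 hpos.le
      have hlt : Real.exp (-y) ≤ 1 - y + η ^ 2 / 8 := by linarith
      have hq : 0 < 1 + y + 3 / 4 * y ^ 2 := by nlinarith [sq_nonneg y]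
      have h2 : (1 - y + η ^ 2 / 8) < 1 - y + y ^ 2 / 8 := by nlinarith
      have h3 : 1 < (1 - y + y ^ 2 / 8) * (1 + y + 3 / 4 * y ^ 2) := by
        calc (1 : ℝ) ≤ Real.exp (-y) * (1 + y + 3 / 4 * y ^ 2) := hge
          _ < _ := mul_lt_mul_of_pos_right (lt_of_le_of_lt hlt h2) hq
      have hy0 : 0 < y := by linarith
      have h4 : (1 - y + y ^ 2 / 8) * (1 + y + 3 / 4 * y ^ 2)
          = 1 - y ^ 2 * (1 / 8 + 5 / 8 * y - 3 / 32 * y ^ 2) := by ring
      have h5 : 0 ≤ 1 / 8 + 5 / 8 * y - 3 / 32 * y ^ 2 := by nlinarith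
      have h6 : 0 ≤ y ^ 2 * (1 / 8 + 5 / 8 * y - 3 / 32 * y ^ 2) := mul_nonneg (sq_nonneg _) h5
      linarith
    · have he : (1 / 3 : ℝ) < Real.exp (-1) := by
        have := Real.exp_neg_one_gt_d9
        linarith
      have he1 : Real.exp (-1) < 1 := by
        have := Real.exp_neg_one_lt_d9
        linarith
      have h2 : Real.exp (-1) * (1 - (y - 1)) ≤ Real.exp (-y) := by
        have h3 := Real.add_one_le_exp (-(y - 1))
        have h4 : Real.exp (-y) = Real.exp (-1) * Real.exp (-(y - 1)) := by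
          rw [← Real.exp_add]; congr 1; ring
        rw [h4]
        apply mul_le_mul_of_nonneg_left _ (Real.exp_pos _).le
        linarith
      have h5 : η ^ 2 ≤ 1 := by nlinarith
      nlinarith
  · by_contra hc
    push Not at hc
    have h1 := Real.quadratic_le_exp_of_nonneg (x := x) (by linarith)
    nlinarith

/-- From approximate transition equations to the shape of the weight. Here `t (a, b)` stands for
`s * θ (a, b)`.

Proof. `D × D`: `hS` for `(a, x)` and `(x, a)` with `t (a, x) = t (x, a)`: subtracting,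
`|2 (V none x - V none a)| ≤ 2 η`; so `|t (a, x) - (c0 + L)| ≤ 2 η`.
`E`: put `u i y = t (y, ee i) = t (ee i, y)`. `hE i j a y`:
`|u i a + u (!i) y + V_i a - V_j y - 2 g0 - 2 L| ≤ η` (`V_i = V (some i)`; the sign is irrelevant).
From `i`, `j`, fixed `y`, two values `a, a'`: `|(u i + V_i) a - (u i + V_i) a'| ≤ 2 η`.
From `!i`, `j := i`, fixed `a`, two values `y, y'`: `|(u i - V_i) y - (u i - V_i) y'| ≤ 2 η`.
Adding: `|u i y - u i y'| ≤ 2 η`. Take `g i = u i 1`. With `i = j = false`, `a = y = 1`: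
`|u false 1 + u true 1 - 2 g0 - 2 L| ≤ η`. -/
theorem reg_of {t : ℤ × ℤ → ℝ} (hsym : Sym t) {c0 g0 L η : ℝ} {V : Blk → ℤ → ℝ}
    (hS : ∀ a ∈ DD, ∀ x ∈ DD, |-t (a, x) + L + V none x - V none a + c0| ≤ η)
    (hE : ∀ i j : Bool, ∀ a ∈ TT, ∀ y ∈ TT,
      |-(t (a, ee i) + t (ee (!i), y)) + 2 * L + V (some j) y - V (some i) a + 2 * g0| ≤ η) :
    ∃ g : Bool → ℝ, (∀ a ∈ DD, ∀ b ∈ DD, |t (a, b) - (c0 + L)| ≤ 2 * η) ∧
      (∀ i, ∀ y ∈ TT, |t (y, ee i) - g i| ≤ 2 * η) ∧
      2 * (g0 + L) - η ≤ g false + g true := by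
  have h1T : (1 : ℤ) ∈ TT := by decide
  have h0 : 0 ≤ η := by
    have h1D : (1 : ℤ) ∈ DD := by decide
    exact le_trans (abs_nonneg _) (hS 1 h1D 1 h1D)
  refine ⟨fun i => t (1, ee i), ?_, ?_, ?_⟩
  · intro a ha b hb
    have e1 := abs_le.1 (hS a ha b hb)
    have e2 := abs_le.1 (hS b hb a ha)
    have e3 := hsym a b
    rw [abs_le]
    constructor <;> linarith [e1.1, e1.2, e2.1, e2.2]
  · intro i y hy
    have e1 := abs_le.1 (hE i i y hy 1 h1T)
    have e2 := abs_le.1 (hE i i 1 h1T 1 h1T)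
    have e3 := abs_le.1 (hE (!i) i 1 h1T y hy)
    have e4 := abs_le.1 (hE (!i) i 1 h1T 1 h1T)
    simp only [Bool.not_not] at e3 e4
    have s1 := hsym y (ee i)
    have s2 := hsym 1 (ee i)
    simp only [abs_le]
    constructor <;> linarith [e1.1, e1.2, e2.1, e2.2, e3.1, e3.2, e4.1, e4.2]
  · have e1 := abs_le.1 (hE false false 1 h1T 1 h1T)
    simp only [Bool.not_false] at e1
    have s1 := hsym 1 (ee true)
    simp only
    linarith [e1.1, e1.2]

end Pool.Agent.Lib.MP_422011_al
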