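import Pool.Agent.Lib.MP_422011_al.Cpl

/-!
# JOB Stab (about 150 lines): the averaged inequality

Facts on the coupling matrices: `cpl_F2S`, `cpl_F2E`, `cpl_F3`, `cpl_F5`, `MM_nonneg`, `qq_pos`.
`DD.card = 16`, `TT.card = 4` (`rfl` or `decide`).
-/

namespace Pool.Agent.Lib.MP_422011_al

/-- the exponent of a transition -/
noncomputable def AA (θ : ℤ × ℤ → ℝ) (s L : ℝ) (V : Blk → ℤ → ℝ) (r β : ℝ)
    (b : Blk) (a : ℤ) (b' : Blk) (y x : ℤ) : ℝ :=
  -(s * bcost θ b a y) + nb b * L + V b' x - V b a - Real.log (qq r β b b')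

/-- conditional mass of an exit context -/
private noncomputable def stab_kk : Blk → ℝ
  | none => 1 / 16
  | some _ => 1 / 4

private theorem stab_F2 {r β : ℝ} (h : Par r β) (b : Blk) {y : ℤ} (hy : y ∈ ctx b) :
    ∑ b' : Blk, ∑ x ∈ ctx b', MM r β b b' y x = stab_kk b := by
  cases b with
  | none => exact cpl_F2S h hy
  | some i => exact cpl_F2E h i hy

private theorem stab_cardD : DD.card = 16 := by decide
private theorem stab_cardT : TT.card = 4 := by decide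

private theorem stab_card_kk (b : Blk) : ((ctx b).card : ℝ) * stab_kk b = 1 := by
  cases b with
  | none =>
    change (DD.card : ℝ) * (1 / 16) = 1
    rw [stab_cardD]; norm_num
  | some i =>
    change (TT.card : ℝ) * (1 / 4) = 1
    rw [stab_cardT]; norm_num

private theorem stab_card_pc (b : Blk) : ((ctx b).card : ℝ) * pc b = pb b := by
  cases b with
  | none =>
    change (DD.card : ℝ) * (1 / 16) = 1
    rw [stab_cardD]; norm_num
  | some i =>
    change (TT.card : ℝ) * (1 / 256) = 1 / 64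
    rw [stab_cardT]; norm_num

private theorem stab_swap (b : Blk) (f : Blk → ℤ → ℤ → ℝ) :
    ∑ b' : Blk, ∑ y ∈ ctx b, ∑ x ∈ ctx b', f b' y x = ∑ y ∈ ctx b, ∑ b' : Blk, ∑ x ∈ ctx b', f b' y x :=
  Finset.sum_comm

/-- The total mass is `33/32`: `16 * (1/16) + 2 * 4 * (1/256)`, each inner sum is `1`
(`cpl_F2S`, `cpl_F2E` summed over `y`). -/
theorem sum_one {r β : ℝ} (h : Par r β) (b : Blk) :
    ∑ b' : Blk, ∑ y ∈ ctx b, ∑ x ∈ ctx b', MM r β b b' y x = 1 := by
  rw [stab_swap, Finset.sum_congr rfl fun y hy => stab_F2 h b hy, Finset.sum_const, nsmul_eq_mul]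
  exact stab_card_kk b

private theorem stab_inner {r β : ℝ} (h : Par r β) (b : Blk) (c : ℤ → ℝ) :
    ∑ b' : Blk, ∑ y ∈ ctx b, ∑ x ∈ ctx b', pc b * MM r β b b' y x * c y =
      pc b * stab_kk b * ∑ y ∈ ctx b, c y := by
  rw [stab_swap b fun b' y x => pc b * MM r β b b' y x * c y, Finset.mul_sum]
  refine Finset.sum_congr rfl fun y hy => ?_
  rw [← stab_F2 h b hy, Finset.mul_sum, Finset.sum_mul]
  refine Finset.sum_congr rfl fun b' _ => ?_
  rw [Finset.mul_sum, Finset.sum_mul]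

private theorem stab_PP (θ : ℤ × ℤ → ℝ) :
    ∑ p ∈ PP, θ p = (∑ a ∈ DD, ∑ y ∈ DD, θ (a, y)) + ∑ i : Bool, ((∑ a ∈ TT, θ (a, ee i)) + ∑ y ∈ TT, θ (ee i, y)) := by
  unfold PP
  rw [Finset.sum_union (by decide +kernel), Finset.sum_union (by decide +kernel), Finset.sum_product, Finset.sum_product,
    Finset.sum_product_right, Fintype.sum_bool]
  have e : ∀ f : ℤ → ℝ, ∑ x ∈ EE, f x = f 3 + f 22 := fun f => Finset.sum_pair (by norm_num)
  rw [Finset.sum_congr rfl fun x _ => e fun y => θ (x, y), Finset.sum_add_distrib]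
  rw [Finset.sum_congr rfl fun x _ => e fun y => θ (y, x), Finset.sum_add_distrib]
  simp only [ee, if_true, Bool.false_eq_true, if_false]
  ring

/-- The mean cost. Proof: exchange the sums over `b'` and `y`; by (F2) the sum over `b', x` is
`1/16` (`none`) or `1/4` (`some i`), so the left side is
`(1/256) (∑ a ∈ DD, ∑ y ∈ DD, θ (a, y)) + ∑ i, (1/1024) ∑ a ∈ TT, ∑ y ∈ TT, (θ (a, ee i) + θ (ee (!i), y))`
`= (1/256) (∑∑ θ (a, y) + ∑ i, (∑ a ∈ TT, θ (a, ee i) + ∑ y ∈ TT, θ (ee (!i), y)))`, and the sum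
over `PP` splits accordingly (`PP` is a disjoint union of three products:
`Finset.sum_union`, `Finset.sum_product`, `EE = {3, 22}`; disjointness by
`ee`-elements not being in `DD`; `decide +kernel` if needed). -/
theorem sum_cost {r β : ℝ} (h : Par r β) (θ : ℤ × ℤ → ℝ) :
    ∑ b : Blk, ∑ a ∈ ctx b, ∑ b' : Blk, ∑ y ∈ ctx b, ∑ x ∈ ctx b',
      pc b * MM r β b b' y x * bcost θ b a y = (∑ p ∈ PP, θ p) / 256 := by
  have e1 : ∀ b : Blk, ∑ a ∈ ctx b, ∑ b' : Blk, ∑ y ∈ ctx b, ∑ x ∈ ctx b',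
      pc b * MM r β b b' y x * bcost θ b a y = pc b * stab_kk b * ∑ a ∈ ctx b, ∑ y ∈ ctx b, bcost θ b a y := by
    intro b
    rw [Finset.mul_sum]
    exact Finset.sum_congr rfl fun a _ => stab_inner h b fun y => bcost θ b a y
  rw [Finset.sum_congr rfl fun b _ => e1 b, Fintype.sum_option, Fintype.sum_bool, stab_PP, Fintype.sum_bool]
  have e2 : ∀ i : Bool, ∑ a ∈ ctx (some i), ∑ y ∈ ctx (some i), bcost θ (some i) a y =
      4 * (∑ a ∈ TT, θ (a, ee i)) + 4 * ∑ y ∈ TT, θ (ee (!i), y) := by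
    intro i
    change ∑ a ∈ TT, ∑ y ∈ TT, (θ (a, ee i) + θ (ee (!i), y)) = _
    simp only [Finset.sum_add_distrib, Finset.sum_const, stab_cardT, nsmul_eq_mul, ← Finset.mul_sum]
    norm_num
  rw [e2, e2]
  change (1 / 16 : ℝ) * (1 / 16) * ∑ a ∈ DD, ∑ y ∈ DD, θ (a, y) + ((1 / 256 : ℝ) * (1 / 4) * _ + (1 / 256 : ℝ) * (1 / 4) * _) = _
  simp only [Bool.not_true, Bool.not_false]
  ring

private theorem stab_V1 {r β : ℝ} (h : Par r β) (V : Blk → ℤ → ℝ) :
    ∑ b : Blk, ∑ a ∈ ctx b, ∑ b' : Blk, ∑ y ∈ ctx b, ∑ x ∈ ctx b',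
      pc b * MM r β b b' y x * V b' x = ∑ b : Blk, ∑ a ∈ ctx b, pc b * V b a := by
  have e1 : ∀ b : Blk, ∑ a ∈ ctx b, ∑ b' : Blk, ∑ y ∈ ctx b, ∑ x ∈ ctx b', pc b * MM r β b b' y x * V b' x =
      ∑ b' : Blk, ∑ x ∈ ctx b', pb b * (∑ y ∈ ctx b, MM r β b b' y x) * V b' x := by
    intro b
    rw [Finset.sum_const, nsmul_eq_mul, Finset.mul_sum]
    refine Finset.sum_congr rfl fun b' _ => ?_
    rw [Finset.sum_comm, Finset.mul_sum]
    refine Finset.sum_congr rfl fun x _ => ?_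
    rw [← stab_card_pc, Finset.mul_sum, Finset.mul_sum, Finset.sum_mul]
    refine Finset.sum_congr rfl fun y _ => ?_
    ring
  rw [Finset.sum_congr rfl fun b _ => e1 b, Finset.sum_comm]
  refine Finset.sum_congr rfl fun b' _ => ?_
  rw [Finset.sum_comm]
  refine Finset.sum_congr rfl fun x hx => ?_
  rw [← Finset.sum_mul, cpl_F3 h b' hx]

private theorem stab_V2 {r β : ℝ} (h : Par r β) (c : Blk → ℤ → ℝ) :
    ∑ b : Blk, ∑ a ∈ ctx b, ∑ b' : Blk, ∑ y ∈ ctx b, ∑ x ∈ ctx b',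
      pc b * MM r β b b' y x * c b a = ∑ b : Blk, ∑ a ∈ ctx b, pc b * c b a := by
  refine Finset.sum_congr rfl fun b _ => Finset.sum_congr rfl fun a _ => ?_
  have e := sum_one h b
  calc ∑ b' : Blk, ∑ y ∈ ctx b, ∑ x ∈ ctx b', pc b * MM r β b b' y x * c b a
      = (∑ b' : Blk, ∑ y ∈ ctx b, ∑ x ∈ ctx b', MM r β b b' y x) * (pc b * c b a) := by
        simp only [Finset.sum_mul]
        refine Finset.sum_congr rfl fun b' _ => Finset.sum_congr rfl fun y _ => Finset.sum_congr rfl fun x _ => ?_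
        ring
    _ = pc b * c b a := by rw [e, one_mul]

/-- The potential telescopes: by (F3) (`pb b = (ctx b).card * pc b`) and `sum_one`. -/
theorem sum_pot {r β : ℝ} (h : Par r β) (V : Blk → ℤ → ℝ) :
    ∑ b : Blk, ∑ a ∈ ctx b, ∑ b' : Blk, ∑ y ∈ ctx b, ∑ x ∈ ctx b',
      pc b * MM r β b b' y x * (V b' x - V b a) = 0 := by
  simp only [mul_sub, Finset.sum_sub_distrib]
  rw [stab_V1 h V, stab_V2 h V, sub_self]

private theorem stab_nb {r β : ℝ} (h : Par r β) :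
    ∑ b : Blk, ∑ a ∈ ctx b, ∑ b' : Blk, ∑ y ∈ ctx b, ∑ x ∈ ctx b',
      pc b * MM r β b b' y x * nb b = 17 / 16 := by
  rw [stab_V2 h fun b _ => nb b]
  have e : ∀ b : Blk, ∑ a ∈ ctx b, pc b * nb b = pb b * nb b := by
    intro b
    rw [Finset.sum_const, nsmul_eq_mul, ← mul_assoc, stab_card_pc]
  rw [Finset.sum_congr rfl fun b _ => e b, Fintype.sum_option, Fintype.sum_bool]
  change (1 : ℝ) * 1 + (1 / 64 * 2 + 1 / 64 * 2) = 17 / 16
  norm_num

private theorem stab_log {r β : ℝ} (h : Par r β) :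
    ∑ b : Blk, ∑ a ∈ ctx b, ∑ b' : Blk, ∑ y ∈ ctx b, ∑ x ∈ ctx b',
      pc b * MM r β b b' y x * Real.log (qq r β b b') = -(cc0 r β + gg0 β / 16) := by
  rw [← cpl_F5 h, ← Finset.sum_neg_distrib]
  refine Finset.sum_congr rfl fun b _ => ?_
  rw [Finset.sum_const, nsmul_eq_mul, ← stab_card_pc]
  simp only [Finset.mul_sum, ← Finset.sum_neg_distrib]
  refine Finset.sum_congr rfl fun b' _ => Finset.sum_congr rfl fun y _ => Finset.sum_congr rfl fun x _ => ?_
  ring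

/-- The mean exponent: `sum_cost`, `sum_pot`, `cpl_F5` (again `∑ a ∈ ctx b, pc b = pb b`), and
`∑ pc b * MM * nb b = 1 + 2 * 2 / 64 = 17/16`. -/
theorem sum_AA {r β : ℝ} (h : Par r β) (θ : ℤ × ℤ → ℝ) (s L : ℝ) (V : Blk → ℤ → ℝ) :
    ∑ b : Blk, ∑ a ∈ ctx b, ∑ b' : Blk, ∑ y ∈ ctx b, ∑ x ∈ ctx b',
      pc b * MM r β b b' y x * AA θ s L V r β b a b' y x =
    -(s * (∑ p ∈ PP, θ p) / 256) + 17 / 16 * L + cc0 r β + gg0 β / 16 := by
  have e : ∀ (b : Blk) (a : ℤ) (b' : Blk) (y x : ℤ), pc b * MM r β b b' y x * AA θ s L V r β b a b' y x =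
      -s * (pc b * MM r β b b' y x * bcost θ b a y) + L * (pc b * MM r β b b' y x * nb b) +
        pc b * MM r β b b' y x * (V b' x - V b a) - pc b * MM r β b b' y x * Real.log (qq r β b b') := by
    intro b a b' y x
    unfold AA
    ring
  simp only [e, Finset.sum_add_distrib, Finset.sum_sub_distrib, ← Finset.mul_sum]
  rw [sum_cost h, stab_nb h, sum_pot h, stab_log h]
  ring

private theorem stab_pc_pos (b : Blk) : 0 < pc b := by
  cases b <;> simp only [pc] <;> norm_num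

/-- The averaged inequality.

Proof. `MM * exp (AA) = (MM / qq) * exp (...)` (`Real.exp_sub`, `Real.exp_log`, `qq_pos`), so `hdc`
gives `∑ MM * exp (AA) ≤ 1 = ∑ MM` for every state. Multiply by `pc b ≥ 0` and sum:
`∑ pc * MM * (exp AA - 1 - AA) ≤ - ∑ pc * MM * AA ≤ gap` by `sum_AA` and `hgap`. All terms are
nonnegative (`Real.add_one_le_exp`), so each single term is `≤ gap`
(`Finset.single_le_sum` five times). -/
theorem stab {r β : ℝ} (h : Par r β) (θ : ℤ × ℤ → ℝ) (s L : ℝ) (V : Blk → ℤ → ℝ)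
    (hdc : ∀ b : Blk, ∀ a ∈ ctx b, ∑ b' : Blk, ∑ y ∈ ctx b, ∑ x ∈ ctx b',
      MM r β b b' y x / qq r β b b' *
        Real.exp (-(s * bcost θ b a y) + nb b * L + V b' x - V b a) ≤ 1)
    {gap : ℝ} (hgap : s * (∑ p ∈ PP, θ p) / 256 ≤
      17 / 16 * L + cc0 r β + gg0 β / 16 + gap)
    (b : Blk) {a : ℤ} (ha : a ∈ ctx b) (b' : Blk) {y x : ℤ} (hy : y ∈ ctx b) (hx : x ∈ ctx b') :
    pc b * MM r β b b' y x * (Real.exp (AA θ s L V r β b a b' y x) - 1 -
      AA θ s L V r β b a b' y x) ≤ gap := by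
  have e1 : ∀ (b : Blk) (a : ℤ) (b' : Blk) (y x : ℤ), MM r β b b' y x * Real.exp (AA θ s L V r β b a b' y x) =
      MM r β b b' y x / qq r β b b' * Real.exp (-(s * bcost θ b a y) + nb b * L + V b' x - V b a) := by
    intro b a b' y x
    unfold AA
    rw [Real.exp_sub _ (Real.log (qq r β b b')), Real.exp_log (qq_pos h b b')]
    ring
  have e2 : ∀ b : Blk, ∀ a ∈ ctx b, ∑ b' : Blk, ∑ y ∈ ctx b, ∑ x ∈ ctx b',
      pc b * MM r β b b' y x * (Real.exp (AA θ s L V r β b a b' y x) - 1) ≤ 0 := by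
    intro b a ha
    have h1 := hdc b a ha
    simp only [← e1] at h1
    have h2 : ∑ b' : Blk, ∑ y ∈ ctx b, ∑ x ∈ ctx b',
      pc b * MM r β b b' y x * (Real.exp (AA θ s L V r β b a b' y x) - 1) =
        pc b * ((∑ b' : Blk, ∑ y ∈ ctx b, ∑ x ∈ ctx b', MM r β b b' y x * Real.exp (AA θ s L V r β b a b' y x)) -
          ∑ b' : Blk, ∑ y ∈ ctx b, ∑ x ∈ ctx b', MM r β b b' y x) := by
      simp only [← Finset.sum_sub_distrib, Finset.mul_sum]
      refine Finset.sum_congr rfl fun b' _ => Finset.sum_congr rfl fun y _ => Finset.sum_congr rfl fun x _ => ?_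
      ring
    rw [h2, sum_one h b]
    exact mul_nonpos_of_nonneg_of_nonpos (stab_pc_pos b).le (by linarith)
  have e3 : ∑ b : Blk, ∑ a ∈ ctx b, ∑ b' : Blk, ∑ y ∈ ctx b, ∑ x ∈ ctx b',
      pc b * MM r β b b' y x * (Real.exp (AA θ s L V r β b a b' y x) - 1) ≤ 0 :=
    Finset.sum_nonpos fun b _ => Finset.sum_nonpos fun a ha => e2 b a ha
  have e4 : ∑ b : Blk, ∑ a ∈ ctx b, ∑ b' : Blk, ∑ y ∈ ctx b, ∑ x ∈ ctx b',
      pc b * MM r β b b' y x * (Real.exp (AA θ s L V r β b a b' y x) - 1 - AA θ s L V r β b a b' y x) ≤ gap := by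
    have h1 := sum_AA h θ s L V
    simp only [mul_sub _ (_ - (1 : ℝ)) _, Finset.sum_sub_distrib]
    simp only [mul_sub, Finset.sum_sub_distrib] at e3 ⊢
    linarith
  have e5 : ∀ (b : Blk) (a : ℤ) (b' : Blk) (y x : ℤ), 0 ≤
      pc b * MM r β b b' y x * (Real.exp (AA θ s L V r β b a b' y x) - 1 - AA θ s L V r β b a b' y x) := by
    intro b a b' y x
    have h1 := Real.add_one_le_exp (AA θ s L V r β b a b' y x)
    exact mul_nonneg (mul_nonneg (stab_pc_pos b).le (MM_nonneg h b b' y x)) (by linarith)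
  refine le_trans ?_ e4
  refine le_trans ?_ (Finset.single_le_sum (f := fun b : Blk => ∑ a ∈ ctx b, ∑ b' : Blk, ∑ y ∈ ctx b, ∑ x ∈ ctx b',
      pc b * MM r β b b' y x * (Real.exp (AA θ s L V r β b a b' y x) - 1 - AA θ s L V r β b a b' y x))
      (fun b _ => Finset.sum_nonneg fun a _ => Finset.sum_nonneg fun b' _ => Finset.sum_nonneg fun y _ =>
        Finset.sum_nonneg fun x _ => e5 b a b' y x) (Finset.mem_univ b))
  refine le_trans ?_ (Finset.single_le_sum (f := fun a : ℤ => ∑ b' : Blk, ∑ y ∈ ctx b, ∑ x ∈ ctx b',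
      pc b * MM r β b b' y x * (Real.exp (AA θ s L V r β b a b' y x) - 1 - AA θ s L V r β b a b' y x))
      (fun a _ => Finset.sum_nonneg fun b' _ => Finset.sum_nonneg fun y _ =>
        Finset.sum_nonneg fun x _ => e5 b a b' y x) ha)
  refine le_trans ?_ (Finset.single_le_sum (f := fun b' : Blk => ∑ y ∈ ctx b, ∑ x ∈ ctx b',
      pc b * MM r β b b' y x * (Real.exp (AA θ s L V r β b a b' y x) - 1 - AA θ s L V r β b a b' y x))
      (fun b' _ => Finset.sum_nonneg fun y _ =>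
        Finset.sum_nonneg fun x _ => e5 b a b' y x) (Finset.mem_univ b'))
  refine le_trans ?_ (Finset.single_le_sum (f := fun y : ℤ => ∑ x ∈ ctx b',
      pc b * MM r β b b' y x * (Real.exp (AA θ s L V r β b a b' y x) - 1 - AA θ s L V r β b a b' y x))
      (fun y _ => Finset.sum_nonneg fun x _ => e5 b a b' y x) hy)
  exact Finset.single_le_sum (f := fun x : ℤ =>
      pc b * MM r β b b' y x * (Real.exp (AA θ s L V r β b a b' y x) - 1 - AA θ s L V r β b a b' y x))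
      (fun x _ => e5 b a b' y x) hx

end Pool.Agent.Lib.MP_422011_al
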