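import Pool.Agent.Lib.MP_422011_al.AutoW

/-!
# JOB Up (about 120 lines): the reference weight is good
-/

open scoped ENNReal

namespace Pool.Agent.Lib.MP_422011_al

variable {N : ℕ}

/-- The two-valued weight is in the region with `η = 0` if `c < g` (`ee_not_mem`). -/
theorem th0_region {c g : ℝ} (h : c < g) : Region (th0 c g) c (fun _ => g) 0 := by
  refine ⟨fun a ha b hb => ?_, fun i y _ => ?_, fun _ => by simpa using h⟩
  · simp [th0, ha, hb]
  · simp [th0, ee_not_mem i]

/-- `256` pairs in `D × D` and `16` others. -/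
theorem sum_th0 (c g : ℝ) : ∑ p ∈ PP, th0 c g p = 256 * c + 16 * g := by
  have h1 : (PP.filter (fun p => p.1 ∈ DD ∧ p.2 ∈ DD)).card = 256 := by decide +kernel
  have h2 : (PP.filter (fun p => ¬ (p.1 ∈ DD ∧ p.2 ∈ DD))).card = 16 := by decide +kernel
  simp only [th0]
  rw [Finset.sum_ite, Finset.sum_const, Finset.sum_const, h1, h2]
  simp

theorem Up_sym (c g : ℝ) : Sym (th0 c g) := by
  intro a b
  simp only [th0, and_comm]

theorem Up_pos {c g : ℝ} (hc : 0 < c) (hg : 0 < g) (p : ℤ × ℤ) : 0 < th0 c g p := by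
  unfold th0
  split_ifs
  · exact hc
  · exact hg

theorem Up_ff_le (p : Blk → ℝ≥0∞) (b : Blk) (x : FG N) {m n : ℕ} (h : m ≤ n) :
    ff p m b x ≤ ff p n b x := by
  induction n, h using Nat.le_induction with
  | base => exact le_rfl
  | succ k _ ih => exact ih.trans (ff_mono p b x k)

/-- the translations used: `1` or a generator -/
def UpH (N : ℕ) (o : Option (Idx N)) : FG N := o.elim 1 gen

open Classical in
/-- the majorant of one element -/
noncomputable def UpG (p : Blk → ℝ≥0∞) (n : ℕ) (x : FG N) : ℝ≥0∞ :=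
  ∑ o : Option (Idx N), ((if x = UpH N o then 1 else 0) +
    ∑ b : Blk, ∑ a ∈ DD, ff p n b (zz ^ (-a) * ((UpH N o)⁻¹ * x)))

theorem UpG_ge1 (p : Blk → ℝ≥0∞) (n : ℕ) (o : Option (Idx N)) : 1 ≤ UpG p n (UpH N o) := by
  classical
  unfold UpG
  refine le_trans ?_ (Finset.single_le_sum (f := fun o' : Option (Idx N) =>
    ((if UpH N o = UpH N o' then (1 : ℝ≥0∞) else 0) +
    ∑ b : Blk, ∑ a ∈ DD, ff p n b (zz ^ (-a) * ((UpH N o')⁻¹ * UpH N o))))
    (fun _ _ => zero_le) (Finset.mem_univ o))
  simp

theorem UpG_ge2 (p : Blk → ℝ≥0∞) (n : ℕ) (o : Option (Idx N)) (b : Blk) {a : ℤ} (ha : a ∈ DD)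
    (x : FG N) : ff p n b (zz ^ (-a) * ((UpH N o)⁻¹ * x)) ≤ UpG p n x := by
  classical
  unfold UpG
  refine le_trans ?_ (Finset.single_le_sum (f := fun o' : Option (Idx N) =>
    ((if x = UpH N o' then (1 : ℝ≥0∞) else 0) +
    ∑ b : Blk, ∑ a ∈ DD, ff p n b (zz ^ (-a) * ((UpH N o')⁻¹ * x))))
    (fun _ _ => zero_le) (Finset.mem_univ o))
  refine le_trans ?_ le_add_self
  refine le_trans ?_ (Finset.single_le_sum (f := fun b : Blk =>
    ∑ a ∈ DD, ff p n b (zz ^ (-a) * ((UpH N o)⁻¹ * x)))
    (fun _ _ => zero_le) (Finset.mem_univ b))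
  exact Finset.single_le_sum (f := fun a : ℤ => ff p n b (zz ^ (-a) * ((UpH N o)⁻¹ * x)))
    (fun _ _ => zero_le) ha

theorem UpG_tsum (p : Blk → ℝ≥0∞) {C : ℝ≥0∞} (hC : ∀ n b, ∑' g : FG N, ff p n b g ≤ C) (n : ℕ) :
    ∑' x : FG N, UpG p n x ≤ Fintype.card (Option (Idx N)) * (1 + 3 * (16 * C)) := by
  classical
  unfold UpG
  rw [Summable.tsum_finsetSum (fun _ _ => ENNReal.summable)]
  have h : ∀ o : Option (Idx N), ∑' x : FG N, ((if x = UpH N o then (1 : ℝ≥0∞) else 0) +
      ∑ b : Blk, ∑ a ∈ DD, ff p n b (zz ^ (-a) * ((UpH N o)⁻¹ * x))) ≤ 1 + 3 * (16 * C) := by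
    intro o
    rw [ENNReal.tsum_add]
    refine add_le_add ?_ ?_
    · rw [tsum_ite_eq]
    · rw [Summable.tsum_finsetSum (fun _ _ => ENNReal.summable)]
      have hb : ∀ b : Blk, ∑' x : FG N, ∑ a ∈ DD, ff p n b (zz ^ (-a) * ((UpH N o)⁻¹ * x))
          ≤ 16 * C := by
        intro b
        rw [Summable.tsum_finsetSum (fun _ _ => ENNReal.summable)]
        have ha : ∀ a ∈ DD, ∑' x : FG N, ff p n b (zz ^ (-a) * ((UpH N o)⁻¹ * x)) ≤ C := by
          intro a _
          have := Equiv.tsum_eq (Equiv.mulLeft (zz ^ (-a) * (UpH N o)⁻¹)) (fun x => ff p n b x)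
          simp only [Equiv.coe_mulLeft, mul_assoc] at this
          rw [this]
          exact hC n b
        refine (Finset.sum_le_sum ha).trans ?_
        rw [Finset.sum_const, nsmul_eq_mul]
        have : DD.card = 16 := by decide
        rw [this]
        simp
      refine (Finset.sum_le_sum (fun b _ => hb b)).trans ?_
      rw [Finset.sum_const, nsmul_eq_mul]
      have : (Finset.univ : Finset Blk).card = 3 := by decide
      rw [this]
      simp
  refine (Finset.sum_le_sum (fun o _ => h o)).trans ?_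
  rw [Finset.sum_const, nsmul_eq_mul, Finset.card_univ]

/-- the bound for one good word -/
theorem Up_word {c g s : ℝ} (hc : 0 < c) (hg : 0 < g) (hs : 0 ≤ s) (w : List (Idx N))
    (hG : GW w) {n : ℕ} (hn : w.length ≤ n) :
    ENNReal.ofReal (Real.exp (-(s * wcost (cw (th0 c g)) w))) ≤
      UpG (fun b => ENNReal.ofReal (Real.exp (-(s * b.elim c fun _ => 2 * g)))) n (wval gen w) := by
  have hpos : ∀ i : Idx N, 0 ≤ cw (th0 c g) i := fun i => (Up_pos hc hg _).le
  have hle1 : ∀ w : List (Idx N), ENNReal.ofReal (Real.exp (-(s * wcost (cw (th0 c g)) w))) ≤ 1 := by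
    intro w
    rw [← ENNReal.ofReal_one]
    refine ENNReal.ofReal_le_ofReal (Real.exp_le_one_iff.2 ?_)
    have := mul_nonneg hs (wcost_nonneg hpos w)
    linarith
  cases w with
  | nil =>
    refine (hle1 _).trans ?_
    have : wval gen ([] : List (Idx N)) = UpH N none := by simp [wval_nil, UpH]
    rw [this]
    exact UpG_ge1 _ _ _
  | cons i l =>
    by_cases hi : i.2.1.1 ∈ DD
    · obtain ⟨b, _, hb⟩ := ff_word hc.le hg.le hs i l hG hi
      refine hb.trans ((Up_ff_le _ _ _ hn).trans ?_)
      have := UpG_ge2 (fun b => ENNReal.ofReal (Real.exp (-(s * b.elim c fun _ => 2 * g)))) n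
        none b hi (wval gen (i :: l))
      simpa [UpH] using this
    · have hPP : (i.2.1.1, i.2.1.2) ∈ PP := i.2.2
      have hbT : i.2.1.2 ∈ TT := by
        rcases mem_PP.1 hPP with h | h | h
        · exact absurd h.1 hi
        · exact absurd (TT_sub_DD h.1) hi
        · exact h.2
      cases l with
      | nil =>
        refine (hle1 _).trans ?_
        have : wval gen [i] = UpH N (some i) := by simp [wval_cons, wval_nil, UpH]
        rw [this]
        exact UpG_ge1 _ _ _
      | cons j l' =>
        have hch : GJ i.2.1.2 j.2.1.1 ∧ GW (j :: l') := by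
          unfold GW at hG ⊢
          rw [List.isChain_cons_cons] at hG
          exact hG
        have hj : j.2.1.1 ∈ DD := by
          rcases hch.1 with h | ⟨k, h, _⟩
          · exact h.2
          · exact absurd (h ▸ TT_sub_DD hbT) (ee_not_mem k)
        obtain ⟨b, _, hb⟩ := ff_word hc.le hg.le hs j l' hch.2 hj
        have h1 : ENNReal.ofReal (Real.exp (-(s * wcost (cw (th0 c g)) (i :: j :: l')))) ≤
            ENNReal.ofReal (Real.exp (-(s * wcost (cw (th0 c g)) (j :: l')))) := by
          refine ENNReal.ofReal_le_ofReal (Real.exp_le_exp.2 ?_)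
          rw [wcost_cons _ i]
          have := mul_nonneg hs (hpos i)
          linarith
        have hn' : l'.length + 1 ≤ n := by
          simp only [List.length_cons] at hn
          omega
        refine h1.trans (hb.trans ((Up_ff_le _ _ _ hn').trans ?_))
        have := UpG_ge2 (fun b => ENNReal.ofReal (Real.exp (-(s * b.elim c fun _ => 2 * g)))) n
          (some i) b hj (wval gen (i :: j :: l'))
        have hv : (UpH N (some i))⁻¹ * wval gen (i :: j :: l') = wval gen (j :: l') := by
          rw [wval_cons gen i]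
          simp [UpH]
        rw [hv] at this
        exact this

/-- The reference weight is good.

Proof. Let `s > 1`, `P none = exp (-(s c))`, `P (some i) = exp (-(s (2 g)))`,
`lam = exp (-((s - 1) c)) < 1`: `exp (-(s c)) = exp (-c) * lam`, `exp (-(2 s g)) ≤ exp (-(2 g)) * lam`.
`ff_bound` gives `C`. For every finite set `F` of group elements choose minimal words
(`exists_min`), let `n` be larger than all their lengths. They are good (`min_good`, `th0_region`).
For a minimal word `w ≠ []` of `x`:
* first left context `a ∈ D`: `ff_word` and `ff_mono`: `exp (-(s wlen x)) ≤ ff p n b (zz^(-a) * x)`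
  for some `b`;
* first left context `ee i`: `w = j :: w'`; `w' = []` and `x = gen j`, or `w'` has its first left
  context `a ∈ D`, and `exp (-(s wlen x)) ≤ exp (-(s cost w')) ≤ ff p n b (zz^(-a) * ((gen j)⁻¹ * x))`.
So with the finite set `Q = {1} ∪ range gen` in all cases
`ofReal (exp (-(s wlen x))) ≤ Q.indicator 1 x + ∑ h ∈ Q, ∑ b, ∑ a ∈ DD, ff p n b (zz^(-a) * (h⁻¹ * x))`.
Summing over all `x` (`tsum`), translation invariance: `≤ |Q| + |Q| * 3 * 16 * C`, a finite bound
independent of `F` and `n`, so the family is summable (`ENNReal` sums of a finite subset are bounded by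
the constant: `summable_of_sum_le` after conversion to reals). -/
theorem th0_good (hN : 1 ≤ N) {c g : ℝ} (hc : 0 < c) (hcg : c < g) (φ : Blk → ℝ)
    (hφ : ∀ b, 0 < φ b)
    (hS : 2 * N * Real.exp (-c) * (51 * φ none + 48 * (φ (some false) + φ (some true))) ≤ φ none)
    (hE : ∀ i, (2 * N) ^ 2 * Real.exp (-(2 * g)) *
      (48 * φ none + 13 * (φ (some false) + φ (some true))) ≤ φ (some i)) :
    Good N (th0 c g) := by
  have hg : 0 < g := hc.trans hcg
  refine ⟨Up_sym c g, fun p _ => Up_pos hc hg p, fun s hs => ?_⟩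
  have hs0 : 0 ≤ s := by linarith
  set P : Blk → ℝ := fun b => Real.exp (-(s * b.elim c fun _ => 2 * g)) with hPdef
  set lam : ℝ := Real.exp (-((s - 1) * c)) with hlam
  have hl0 : 0 ≤ lam := (Real.exp_pos _).le
  have hl1 : lam < 1 := by
    rw [hlam, Real.exp_lt_one_iff]
    have := mul_pos (by linarith : 0 < s - 1) hc
    linarith
  have hPn : P none = Real.exp (-c) * lam := by
    rw [hlam, ← Real.exp_add]
    have h : -(s * c) = -c + -((s - 1) * c) := by ring
    rw [← h]
    rfl
  have hPs : ∀ i, P (some i) ≤ Real.exp (-(2 * g)) * lam := by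
    intro i
    rw [hPdef, hlam, ← Real.exp_add]
    refine Real.exp_le_exp.2 ?_
    simp only [Option.elim]
    have h1 : (s - 1) * c ≤ (s - 1) * (2 * g) :=
      mul_le_mul_of_nonneg_left (by linarith) (by linarith)
    linarith
  have hN0 : (0 : ℝ) ≤ N := Nat.cast_nonneg N
  have hφ0 : 0 ≤ 51 * φ none + 48 * (φ (some false) + φ (some true)) := by
    have := hφ none
    have := hφ (some false)
    have := hφ (some true)
    positivity
  have hφ1 : 0 ≤ 48 * φ none + 13 * (φ (some false) + φ (some true)) := by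
    have := hφ none
    have := hφ (some false)
    have := hφ (some true)
    positivity
  obtain ⟨C, hC, hCb⟩ := ff_bound (N := N) P φ (fun b => (Real.exp_pos _).le) hφ hl0 hl1
    (by
      rw [hPn]
      have := mul_le_mul_of_nonneg_left hS hl0
      linarith)
    (by
      intro i
      have h1 := mul_le_mul_of_nonneg_left (hE i) hl0
      have h2 : (2 * (N : ℝ)) ^ 2 * P (some i) *
          (48 * φ none + 13 * (φ (some false) + φ (some true))) ≤
          (2 * (N : ℝ)) ^ 2 * (Real.exp (-(2 * g)) * lam) *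
          (48 * φ none + 13 * (φ (some false) + φ (some true))) := by
        refine mul_le_mul_of_nonneg_right ?_ hφ1
        exact mul_le_mul_of_nonneg_left (hPs i) (by positivity)
      refine h2.trans ?_
      linarith)
  set K : ℝ≥0∞ := Fintype.card (Option (Idx N)) * (1 + 3 * (16 * C)) with hK
  have hKtop : K ≠ ⊤ := by
    rw [hK]
    refine ENNReal.mul_ne_top (ENNReal.natCast_ne_top _) ?_
    refine ENNReal.add_ne_top.2 ⟨ENNReal.one_ne_top, ?_⟩
    exact ENNReal.mul_ne_top (by simp) (ENNReal.mul_ne_top (by simp) hC)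
  have hcwpos : ∀ i : Idx N, 0 < cw (th0 c g) i := fun i => Up_pos hc hg _
  have hmin : ∀ x : FG N, ∃ l : List (Idx N), wval gen l = x ∧
      wcost (cw (th0 c g)) l = wlen gen (cw (th0 c g)) x :=
    fun x => exists_min (gens_gen hN) hcwpos x
  choose w hw1 hw2 using hmin
  unfold Conv
  refine summable_of_sum_le (c := K.toReal) (fun x => (Real.exp_pos _).le) (fun F => ?_)
  rw [← ENNReal.ofReal_le_iff_le_toReal hKtop,
    ENNReal.ofReal_sum_of_nonneg (fun x _ => (Real.exp_pos _).le)]
  set n := F.sup (fun x => (w x).length) with hn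
  have hx : ∀ x ∈ F, ENNReal.ofReal (Real.exp (-(s * wlen gen (cw (th0 c g)) x))) ≤
      UpG (fun b => ENNReal.ofReal (P b)) n x := by
    intro x hxF
    have hgood : GW (w x) := by
      refine min_good (Up_sym c g) (fun p _ => Up_pos hc hg p) (th0_region hcg) (w x) ?_
      rw [hw1, hw2]
    have hlen : (w x).length ≤ n := Finset.le_sup (f := fun x => (w x).length) hxF
    have := Up_word hc hg hs0 (w x) hgood hlen
    rw [hw1, hw2] at this
    exact this
  refine (Finset.sum_le_sum hx).trans ?_
  exact (ENNReal.sum_le_tsum F).trans (UpG_tsum (fun b => ENNReal.ofReal (P b)) hCb n)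

end Pool.Agent.Lib.MP_422011_al
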