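import Pool.Agent.Lib.MP_422011_al.DC
import Pool.Agent.Lib.MP_422011_al.Cpt
import Pool.Agent.Lib.MP_422011_al.Net
import Pool.Agent.Lib.MP_422011_al.Up
import Pool.Agent.Lib.MP_422011_al.Stab
import Pool.Agent.Lib.MP_422011_al.Reg

/-!
# The minimiser lies in the good region
-/

namespace Pool.Agent.Lib.MP_422011_al

variable {N : ℕ}

/-- the reference weight is good -/
theorem ref_good (hN : 2 ≤ N) {r β : ℝ} (h : Par r β) :
    Good N (th0 (Real.log (2 * N) + cc0 r β) (Real.log (2 * N) + gg0 β)) := by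
  have hN' : (0 : ℝ) < 2 * N := by positivity
  have hN1 : (1 : ℝ) ≤ 2 * N := by
    have : (2 : ℝ) ≤ N := by exact_mod_cast hN
    linarith
  have hlog : 0 ≤ Real.log (2 * N) := Real.log_nonneg hN1
  have hb := h.beta_pos
  have hr : 0 < r := by linarith [h.h1]
  have hc0 := cc0_pos h
  have hgap := cpl_gap h
  have ha : (0 : ℝ) < 32 * β * r ^ 2 := by positivity
  refine th0_good (by omega) (by linarith) (by linarith)
    (fun b => b.elim (64 * r) fun _ => 1) ?_ ?_ ?_
  · intro b
    cases b with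
    | none => simpa using hr
    | some i => simp
  · have e : Real.exp (-(Real.log (2 * N) + cc0 r β)) = 32 * β * r ^ 2 / (2 * N) := by
      rw [cc0, ← sub_eq_add_neg, neg_sub, Real.exp_sub, Real.exp_log ha, Real.exp_log hN']
    rw [e]
    simp only [Option.elim]
    have : 2 * (N : ℝ) * (32 * β * r ^ 2 / (2 * N)) = 32 * β * r ^ 2 := by
      field_simp
    rw [this]
    have e1 := h.e1
    nlinarith [e1]
  · intro i
    have e : Real.exp (-(2 * (Real.log (2 * N) + gg0 β))) = β / 2 / (2 * N) ^ 2 := by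
      have : -(2 * (Real.log (2 * N) + gg0 β)) = Real.log (β / 2) - 2 * Real.log (2 * N) := by
        rw [gg0]; ring
      rw [this, Real.exp_sub, Real.exp_log (by positivity)]
      congr 1
      rw [two_mul, Real.exp_add, Real.exp_log hN']
      ring
    rw [e]
    simp only [Option.elim]
    have : (2 * (N : ℝ)) ^ 2 * (β / 2 / (2 * N) ^ 2) = β / 2 := by
      field_simp
    rw [this]
    have h4 := h.h4
    nlinarith [h4]

/-- the minimiser has the right shape -/
theorem key_shape (hN : 10 ^ 14 ≤ N) {r β : ℝ} (h : Par r β) {θ : ℤ × ℤ → ℝ} (hg : Good N θ)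
    (hsum : ∑ p ∈ PP, θ p ≤
      ∑ p ∈ PP, th0 (Real.log (2 * N) + cc0 r β) (Real.log (2 * N) + gg0 β) p) :
    ∃ (c : ℝ) (g : Bool → ℝ) (η : ℝ), (∀ a ∈ DD, ∀ b ∈ DD, |θ (a, b) - c| ≤ η) ∧
      (∀ i, ∀ y ∈ TT, |θ (y, ee i) - g i| ≤ η) ∧ 2 * c + 8 * η < g false + g true := by
  obtain ⟨hsym, hpos, hconv⟩ := hg
  have hN2 : 2 ≤ N := le_trans (by norm_num) hN
  have hNr : (10 : ℝ) ^ 14 ≤ N := by exact_mod_cast hN
  have hn1 : (0 : ℝ) < 2 * N - 1 := by linarith
  have hn0 : (0 : ℝ) < 2 * N := by linarith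
  set S := ∑ p ∈ PP, θ p with hS
  have hSpos : 0 < S := Finset.sum_pos hpos ⟨(0, 0), pair_DD (by decide) (by decide)⟩
  set L := Real.log (2 * N - 1) with hL
  set δ := Real.log (2 * N) - L with hδ
  have hδpos : 0 < δ := by
    rw [hδ, hL]
    have := Real.log_lt_log hn1 (show (2 * N - 1 : ℝ) < 2 * N by linarith)
    linarith
  have hδle : δ ≤ 1 / (2 * N - 1) := by
    rw [hδ, hL, ← Real.log_div hn0.ne' hn1.ne']
    have h1 := Real.log_le_sub_one_of_pos (div_pos hn0 hn1)
    have h2 : (2 * N : ℝ) / (2 * N - 1) - 1 = 1 / (2 * N - 1) := by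
      field_simp; ring
    linarith
  -- choose s
  set s := 1 + 256 * (17 / 16 * δ) / S with hs
  have hs1 : 1 < s := by
    rw [hs]
    have : 0 < 256 * (17 / 16 * δ) / S :=
      div_pos (mul_pos (by norm_num) (mul_pos (by norm_num) hδpos)) hSpos
    linarith
  have hsS : s * S / 256 = S / 256 + 17 / 16 * δ := by
    rw [hs]; field_simp
  obtain ⟨V, hV⟩ := dc (N := N) hN2 hpos (s := s) (by linarith) (hconv s hs1)
  have hdc : ∀ b : Blk, ∀ a ∈ ctx b, ∑ b' : Blk, ∑ y ∈ ctx b, ∑ x ∈ ctx b',
      MM r β b b' y x / qq r β b b' *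
        Real.exp (-(s * bcost θ b a y) + nb b * L + V b' x - V b a) ≤ 1 := by
    intro b a ha
    refine hV b a ha (fun b' y x => MM r β b b' y x / qq r β b b') ?_ ?_
    · intro b' y _ x _
      exact div_nonneg (MM_nonneg h b b' y x) (qq_pos h b b').le
    · intro b' d
      have h1 := cpl_F1 h b b' d
      have h2 := qq_pos h b b'
      have h3 : ∑ y ∈ ctx b, ∑ x ∈ ctx b',
          (if x - y = d then MM r β b b' y x / qq r β b b' else 0) =
          (∑ y ∈ ctx b, ∑ x ∈ ctx b', (if x - y = d then MM r β b b' y x else 0)) /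
            qq r β b b' := by
        rw [Finset.sum_div]
        refine Finset.sum_congr rfl fun y _ => ?_
        rw [Finset.sum_div]
        refine Finset.sum_congr rfl fun x _ => ?_
        split_ifs <;> simp
      rw [h3, div_le_one h2]
      exact h1
  have hgap : s * (∑ p ∈ PP, θ p) / 256 ≤
      17 / 16 * L + cc0 r β + gg0 β / 16 + 17 / 8 * δ := by
    rw [← hS, hsS]
    rw [sum_th0] at hsum
    have : Real.log (2 * N) = L + δ := by rw [hδ]; ring
    rw [this] at hsum
    linarith
  have hst := stab h θ s L V hdc hgap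
  have hsmall : ∀ {κ x : ℝ}, 1 / 3072000 ≤ κ → κ * (Real.exp x - 1 - x) ≤ 17 / 8 * δ →
      |x| ≤ 1 / 1000 := by
    intro κ x hκ hx
    have hx0 : 0 ≤ Real.exp x - 1 - x := by linarith [Real.add_one_le_exp x]
    refine exp_small (by norm_num) (by norm_num) ?_
    have h1 : 1 / 3072000 * (Real.exp x - 1 - x) ≤ 17 / 8 * δ :=
      (mul_le_mul_of_nonneg_right hκ hx0).trans hx
    have h2 : δ ≤ 1 / 10 ^ 14 := by
      refine hδle.trans ?_
      apply one_div_le_one_div_of_le (by positivity)
      linarith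
    norm_num at h2 ⊢
    linarith
  have hSS : ∀ a ∈ DD, ∀ x ∈ DD,
      |-(s * θ (a, x)) + L + V none x - V none a + cc0 r β| ≤ 1 / 1000 := by
    intro a ha x hx
    have h1 := hst none ha none (y := x) (x := x) hx hx
    have h2 := hsmall (κ := pc none * MM r β none none x x) (by
      have := cpl_F4S h hx
      simp only [pc]
      linarith) h1
    have h3 : AA θ s L V r β none a none x x =
        -(s * θ (a, x)) + L + V none x - V none a + cc0 r β := by
      simp only [AA, bcost, nb, qq, cc0]; ring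
    rwa [h3] at h2
  have hEE : ∀ i j : Bool, ∀ a ∈ TT, ∀ y ∈ TT,
      |-(s * θ (a, ee i) + s * θ (ee (!i), y)) + 2 * L + V (some j) y - V (some i) a +
        2 * gg0 β| ≤ 1 / 1000 := by
    intro i j a ha y hy
    have h1 := hst (some i) ha (some j) (y := y) (x := y) hy hy
    have h2 := hsmall (κ := pc (some i) * MM r β (some i) (some j) y y) (by
      have := cpl_F4E h i j y
      simp only [pc]
      linarith) h1
    have h3 : AA θ s L V r β (some i) a (some j) y y =
        -(s * θ (a, ee i) + s * θ (ee (!i), y)) + 2 * L + V (some j) y - V (some i) a +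
        2 * gg0 β := by
      simp only [AA, bcost, nb, qq, gg0]; ring
    rwa [h3] at h2
  obtain ⟨g, hg1, hg2, hg3⟩ := reg_of (t := fun p => s * θ p) (c0 := cc0 r β) (g0 := gg0 β)
    (L := L) (η := 1 / 1000) (V := V) (fun a b => by simp only [hsym a b]) hSS hEE
  have hs0 : 0 < s := by linarith
  refine ⟨(cc0 r β + L) / s, fun i => g i / s, 2 * (1 / 1000) / s, ?_, ?_, ?_⟩
  · intro a ha b hb
    have h1 := hg1 a ha b hb
    have h2 : θ (a, b) - (cc0 r β + L) / s = (s * θ (a, b) - (cc0 r β + L)) / s := by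
      field_simp
    rw [h2, abs_div, abs_of_pos hs0]
    exact div_le_div_of_nonneg_right h1 hs0.le
  · intro i y hy
    have h1 := hg2 i y hy
    have h2 : θ (y, ee i) - g i / s = (s * θ (y, ee i) - g i) / s := by
      field_simp
    rw [h2, abs_div, abs_of_pos hs0]
    exact div_le_div_of_nonneg_right h1 hs0.le
  · have h1 := cpl_gap h
    have h2 : 2 * ((cc0 r β + L) / s) + 8 * (2 * (1 / 1000) / s) =
        (2 * (cc0 r β + L) + 8 * (2 * (1 / 1000))) / s := by ring
    rw [h2, ← add_div]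
    apply div_lt_div_of_pos_right _ hs0
    linarith

end Pool.Agent.Lib.MP_422011_al
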