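import Pool.Agent.Lib.MP_422011_al.Grp

/-!
# JOB NF (about 100 lines): first letters and the decomposition `x z^δ g'`

`g.toWord.head?` is the first letter of the reduced word of `g`. Useful:
`FreeGroup.reduce.cons`, `FreeGroup.toWord_mk`, `FreeGroup.mk_toWord`, `FreeGroup.reduce_toWord`,
`FreeGroup.mul_mk`.
-/

namespace Pool.Agent.Lib.MP_422011_al

variable {N : ℕ}

/-- elements whose reduced word starts with a letter different from `z^(±1)` -/
def WW (N : ℕ) : Set (FG N) :=
  {g | ∃ x : Ltr N, g.toWord.head? = some (some x.1, x.2)}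

/-- `x z^δ g` is a reduced product (for `g ∈ WW N`) -/
def Cp (x : Ltr N) (δ : ℤ) (g : FG N) : Prop :=
  δ ≠ 0 ∨ g.toWord.head? ≠ some (some x.1, !x.2)

/-- Multiplying by a letter which does not cancel. Proof: `mk [p] * g = mk (p :: g.toWord)`, and
`reduce (p :: g.toWord)` is computed by `FreeGroup.reduce.cons` and `FreeGroup.reduce_toWord`;
case split on `g.toWord`. -/
theorem toWord_cons_mul (p : Option (Fin N) × Bool) (g : FG N)
    (h : g.toWord.head? ≠ some (p.1, !p.2)) :
    (FreeGroup.mk [p] * g).toWord = p :: g.toWord := by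
  have h1 : FreeGroup.mk [p] * g = FreeGroup.mk (p :: g.toWord) := by
    conv_lhs => rw [← FreeGroup.mk_toWord (x := g)]
    rw [FreeGroup.mul_mk, List.singleton_append]
  rw [h1, FreeGroup.toWord_mk, FreeGroup.reduce.cons, FreeGroup.reduce_toWord]
  cases hw : g.toWord with
  | nil => rfl
  | cons q t =>
    rw [hw, List.head?_cons] at h
    have hne : ¬ (p.1 = q.1 ∧ p.2 = !q.2) := by
      rintro ⟨ha, hb⟩
      apply h
      rw [Option.some.injEq]
      refine Prod.ext ha.symm ?_
      simp [hb]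
    simp only [if_neg hne]

/-- Natural powers of a signed `z` in front of an element of `WW`. -/
private theorem head_npow_mul {g : FG N} (hg : g ∈ WW N) (c : Bool) (n : ℕ) :
    ((FreeGroup.mk [(none, c)] : FG N) ^ (n + 1) * g).toWord.head? = some (none, c) := by
  induction n with
  | zero =>
    obtain ⟨x, hx⟩ := hg
    rw [zero_add, pow_one, toWord_cons_mul, List.head?_cons]
    rw [hx]
    simp
  | succ n ih =>
    rw [pow_succ', mul_assoc, toWord_cons_mul, List.head?_cons]
    rw [ih]
    cases c <;> simp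

/-- The word of `z^δ g` for `g` starting with a letter and `δ ≠ 0` starts with `z^(sign δ)`. -/
theorem head_zpow_mul {g : FG N} (hg : g ∈ WW N) {δ : ℤ} (hδ : δ ≠ 0) :
    (zz ^ δ * g).toWord.head? = some (none, decide (0 < δ)) := by
  rcases lt_or_gt_of_ne hδ with h | h
  · obtain ⟨n, hn⟩ : ∃ n : ℕ, δ = -((n : ℤ) + 1) := ⟨(-δ - 1).toNat, by omega⟩
    have hz : (zz : FG N) ^ δ = (FreeGroup.mk [(none, false)] : FG N) ^ (n + 1) := by
      rw [hn, zpow_neg, ← inv_zpow]
      have : (zz : FG N)⁻¹ = FreeGroup.mk [(none, false)] := by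
        simp [zz, FreeGroup.of, FreeGroup.inv_mk, FreeGroup.invRev]
      rw [this]
      exact_mod_cast rfl
    rw [hz, head_npow_mul hg false n]
    have : ¬ (0 < δ) := by omega
    simp [this]
  · obtain ⟨n, hn⟩ : ∃ n : ℕ, δ = (n : ℤ) + 1 := ⟨(δ - 1).toNat, by omega⟩
    have hz : (zz : FG N) ^ δ = (FreeGroup.mk [(none, true)] : FG N) ^ (n + 1) := by
      rw [hn]
      exact_mod_cast rfl
    rw [hz, head_npow_mul hg true n]
    simp [h]

/-- The product `x z^δ g` starts with `x`. Proof: by `head_zpow_mul` (or `Cp` if `δ = 0`)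
`z^δ g` does not start with `x⁻¹`; `toWord_cons_mul`. -/
theorem head_step {x : Ltr N} {δ : ℤ} {g : FG N} (hg : g ∈ WW N) (h : Cp x δ g) :
    (xx x * zz ^ δ * g).toWord.head? = some (some x.1, x.2) := by
  rw [mul_assoc, xx, toWord_cons_mul, List.head?_cons]
  by_cases hδ : δ = 0
  · subst hδ
    rcases h with h | h
    · exact absurd rfl h
    · simpa using h
  · rw [head_zpow_mul hg hδ]
    simp

theorem ww_step {x : Ltr N} {δ : ℤ} {g : FG N} (hg : g ∈ WW N) (h : Cp x δ g) :
    xx x * zz ^ δ * g ∈ WW N := ⟨x, head_step hg h⟩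

/-- Uniqueness of the decomposition. Proof: the first letters give `x = x'` (`head_step`), cancel
`xx x`; then `z^(δ-δ') g = g'`; if `δ ≠ δ'` this contradicts `head_zpow_mul` and `g' ∈ WW`;
so `δ = δ'` and `g = g'`. -/
theorem ww_inj {x x' : Ltr N} {δ δ' : ℤ} {g g' : FG N} (hg : g ∈ WW N) (hg' : g' ∈ WW N)
    (h : Cp x δ g) (h' : Cp x' δ' g') (he : xx x * zz ^ δ * g = xx x' * zz ^ δ' * g') :
    x = x' ∧ δ = δ' ∧ g = g' := by
  have h1 := head_step hg h
  have h2 := head_step hg' h'
  rw [he, h2] at h1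
  have hx : x = x' := by
    simp only [Option.some.injEq, Prod.mk.injEq] at h1
    exact Prod.ext h1.1.symm h1.2.symm
  subst hx
  have h3 : zz ^ δ * g = zz ^ δ' * g' := by
    rw [mul_assoc, mul_assoc] at he
    exact mul_left_cancel he
  have h4 : zz ^ (δ - δ') * g = g' := by
    have : zz ^ (δ - δ') * g = zz ^ (-δ') * (zz ^ δ * g) := by group
    rw [this, h3]
    group
  by_cases hd : δ - δ' = 0
  · rw [hd] at h4
    refine ⟨rfl, by omega, by simpa using h4⟩
  · exfalso
    have h5 := head_zpow_mul hg hd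
    rw [h4] at h5
    obtain ⟨y, hy⟩ := hg'
    rw [hy] at h5
    simp at h5

/-- A single letter is in `WW`. -/
theorem xx_mem_WW (x : Ltr N) : xx x ∈ WW N := by
  refine ⟨x, ?_⟩
  have h : (xx x : FG N) = FreeGroup.mk [(some x.1, x.2)] * 1 := by rw [mul_one, xx]
  rw [h, toWord_cons_mul, List.head?_cons]
  simp

end Pool.Agent.Lib.MP_422011_al
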