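import Pool.Agent.Lib.MP_422011_al.NF

/-!
# JOB One (about 120 lines): partition functions of sets of elements and the one step inequality
-/

open scoped ENNReal

namespace Pool.Agent.Lib.MP_422011_al

variable {N : ℕ}

/-- the partition function of a set `A` of elements, seen from the context `a` -/
noncomputable def pf (θ : ℤ × ℤ → ℝ) (s : ℝ) (A : Set (FG N)) (a : ℤ) : ℝ≥0∞ :=
  ∑' g : FG N, A.indicator
    (fun g => ENNReal.ofReal (Real.exp (-(s * wlen gen (cw θ) (zz ^ a * g))))) g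

/-- all reduced products `x z^δ g'`, `g' ∈ A` -/
def XX (δ : ℤ) (A : Set (FG N)) : Set (FG N) :=
  {g | ∃ x g', g' ∈ A ∧ Cp x δ g' ∧ g = xx x * zz ^ δ * g'}

theorem XX_sub {δ : ℤ} {A : Set (FG N)} (hA : A ⊆ WW N) : XX δ A ⊆ WW N := by
  rintro _ ⟨x, g', h1, h2, rfl⟩
  exact ww_step (hA h1) h2

/-- Disjointness (from `ww_inj`). -/
theorem XX_disj {δ δ' : ℤ} {A A' : Set (FG N)} (hA : A ⊆ WW N) (hA' : A' ⊆ WW N)
    (h : δ ≠ δ' ∨ Disjoint A A') : Disjoint (XX δ A) (XX δ' A') := by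
  rw [Set.disjoint_left]
  rintro _ ⟨x, g, h1, h2, rfl⟩ ⟨x', g', h1', h2', he⟩
  obtain ⟨_, h4, h5⟩ := ww_inj (hA h1) (hA' h1') h2 h2' he
  rcases h with h | h
  · exact h h4
  · exact (Set.disjoint_left.1 h) h1 (h5 ▸ h1')

theorem pf_mono {θ : ℤ × ℤ → ℝ} {s : ℝ} {A B : Set (FG N)} (h : A ⊆ B) (a : ℤ) :
    pf θ s A a ≤ pf θ s B a :=
  ENNReal.tsum_le_tsum fun g => Set.indicator_le_indicator_of_subset h (fun _ => zero_le) g

/-- Finite additivity (only `≤` is needed). Proof: exchange the finite sum with `tsum`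
(`ENNReal.summable.tsum_finsetSum` or `tsum_finsetSum`), and pointwise at most one indicator is
nonzero by pairwise disjointness, and it is bounded by the indicator of `B`. -/
theorem pf_sum_le {θ : ℤ × ℤ → ℝ} {s : ℝ} {κ : Type*} (t : Finset κ) (A : κ → Set (FG N))
    (B : Set (FG N)) (hAB : ∀ k ∈ t, A k ⊆ B)
    (hd : ∀ k ∈ t, ∀ l ∈ t, k ≠ l → Disjoint (A k) (A l)) (a : ℤ) :
    ∑ k ∈ t, pf θ s (A k) a ≤ pf θ s B a := by
  unfold pf
  rw [← Summable.tsum_finsetSum (fun _ _ => ENNReal.summable)]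
  refine ENNReal.tsum_le_tsum fun g => ?_
  by_cases hg : ∃ k ∈ t, g ∈ A k
  · obtain ⟨k, hk, hgk⟩ := hg
    rw [Finset.sum_eq_single_of_mem k hk]
    · exact Set.indicator_le_indicator_of_subset (hAB k hk) (fun _ => zero_le) g
    · intro l hl hlk
      refine Set.indicator_of_notMem ?_ _
      intro hgl
      exact (Set.disjoint_left.1 (hd l hl k hk hlk)) hgl hgk
  · push Not at hg
    rw [Finset.sum_eq_zero]
    · exact zero_le
    · intro k hk
      exact Set.indicator_of_notMem (hg k hk) _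

/-- The partition functions are finite. Proof: `A.indicator f ≤ f`, and
`g ↦ exp (-(s * wlen (zz^a * g)))` is summable: it is `Conv` composed with the bijection
`Equiv.mulLeft (zz ^ a)`; `ENNReal.tsum_coe_ne_top_iff_summable` or
`Summable.tsum_ofReal_ne_top`/`ENNReal.ofReal_tsum_of_nonneg`. -/
theorem pf_lt_top {θ : ℤ × ℤ → ℝ} {s : ℝ} (h : Conv (gen (N := N)) (cw θ) s) (A : Set (FG N))
    (a : ℤ) : pf θ s A a ≠ ⊤ := by
  have h1 : Summable fun g : FG N => Real.exp (-(s * wlen gen (cw θ) (zz ^ a * g))) :=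
    (Equiv.mulLeft (zz ^ a : FG N)).summable_iff.2 h
  have h2 : ∑' g : FG N, ENNReal.ofReal (Real.exp (-(s * wlen gen (cw θ) (zz ^ a * g)))) ≠ ⊤ :=
    h1.tsum_ofReal_ne_top
  refine ne_top_of_le_ne_top h2 ?_
  exact ENNReal.tsum_le_tsum fun g => Set.indicator_le_self _ _ g

/-- The partition function of a nonempty set is positive (one term is). -/
theorem pf_pos {θ : ℤ × ℤ → ℝ} {s : ℝ} {A : Set (FG N)} (hA : A.Nonempty) (a : ℤ) :
    pf θ s A a ≠ 0 := by
  obtain ⟨g, hg⟩ := hA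
  have h1 := ENNReal.le_tsum (f := fun g : FG N => A.indicator
    (fun g => ENNReal.ofReal (Real.exp (-(s * wlen gen (cw θ) (zz ^ a * g))))) g) g
  have h2 : A.indicator (fun g : FG N =>
      ENNReal.ofReal (Real.exp (-(s * wlen gen (cw θ) (zz ^ a * g))))) g ≠ 0 := by
    rw [Set.indicator_of_mem hg]
    exact (ENNReal.ofReal_pos.2 (Real.exp_pos _)).ne'
  intro h3
  apply h2
  have h4 : A.indicator (fun g : FG N =>
      ENNReal.ofReal (Real.exp (-(s * wlen gen (cw θ) (zz ^ a * g))))) g ≤ 0 := h3 ▸ h1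
  exact le_antisymm h4 zero_le

/-- The length estimate behind the one step inequality. -/
private theorem wlen_step (hN : 1 ≤ N) {θ : ℤ × ℤ → ℝ} (hθ : ∀ p ∈ PP, 0 < θ p)
    {a b : ℤ} (hab : (a, b) ∈ PP) (δ : ℤ) (x : Ltr N) (g : FG N) :
    wlen gen (cw θ) (zz ^ a * (xx x * zz ^ δ * g)) ≤
      θ (a, b) + wlen gen (cw θ) (zz ^ (b + δ) * g) := by
  have h1 : zz ^ a * (xx x * zz ^ δ * g) = gen (ix x hab) * (zz ^ (b + δ) * g) := by
    rw [gen_ix]
    group
  rw [h1]
  refine (wlen_mul_le (gens_gen hN) (cw_pos hθ) _ _).trans ?_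
  have h2 : wlen gen (cw θ) (gen (ix x hab)) ≤ θ (a, b) := by
    have h3 := wlen_le (cw_nonneg hθ) (u := gen (N := N)) (l := [ix x hab])
      (g := gen (ix x hab)) (by rw [wval_cons, wval_nil, mul_one])
    rw [wcost_cons, wcost_nil, cw_ix, add_zero] at h3
    exact h3
  linarith

open Classical in
/-- At least `2 N - 1` letters are compatible with a given element. -/
private theorem card_cp (δ : ℤ) (g : FG N) :
    2 * (N : ℝ) - 1 ≤ ((Finset.univ.filter fun x : Ltr N => Cp x δ g).card : ℝ) := by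
  have h1 := Finset.card_filter_add_card_filter_not (s := (Finset.univ : Finset (Ltr N)))
    (fun x : Ltr N => Cp x δ g)
  have h2 : (Finset.univ.filter fun x : Ltr N => ¬ Cp x δ g).card ≤ 1 := by
    rw [Finset.card_le_one]
    intro x hx y hy
    rw [Finset.mem_filter] at hx hy
    have hx' := hx.2
    have hy' := hy.2
    unfold Cp at hx' hy'
    push Not at hx' hy'
    have h3 := hx'.2.symm.trans hy'.2
    simp only [Option.some.injEq, Prod.mk.injEq, Bool.not_inj_iff] at h3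
    exact Prod.ext h3.1 h3.2
  have h4 : (Finset.univ : Finset (Ltr N)).card = N * 2 := by
    simp [Fintype.card_prod]
  rw [h4] at h1
  have h5 : 2 * N ≤ (Finset.univ.filter fun x : Ltr N => Cp x δ g).card + 1 := by omega
  have h6 : 2 * (N : ℝ) ≤ ((Finset.univ.filter fun x : Ltr N => Cp x δ g).card : ℝ) + 1 := by
    exact_mod_cast h5
  linarith

/-- The one step inequality.

Proof. Consider the pairs `(x, g') : Ltr N × FG N` with `g' ∈ A` and `Cp x δ g'`. The map
`(x, g') ↦ xx x * zz ^ δ * g'` is injective on them (`ww_inj`) with values in `XX δ A`, so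
`∑' x g', 1[g' ∈ A ∧ Cp x δ g'] F (xx x * zz^δ * g') ≤ pf θ s (XX δ A) a` with
`F g = ofReal (exp (-(s * wlen (zz^a * g))))` (e.g. `tsum` over the subtype of such pairs,
`ENNReal.tsum_comp_le_tsum_of_injective` into the subtype of `XX δ A`; `tsum_subtype`).
Since `zz^a * (xx x * zz^δ * g') = gen (ix x hab) * (zz^(b+δ) * g')`,
`wlen_mul_le` and `wlen_le` (for the one-letter word) give
`wlen (zz^a * (xx x * zz^δ * g')) ≤ θ (a, b) + wlen (zz^(b+δ) * g')`, hence
`F (..) ≥ ofReal (exp (-(s θ(a,b)))) * ofReal (exp (-(s wlen (zz^(b+δ) g'))))` (`s ≥ 0`).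
For each `g'` there are at least `2 N - 1` letters `x` with `Cp x δ g'`: all `x` except possibly the
one with `(some x.1, !x.2)` the first letter of `g'` (`Finset.card_erase_of_mem`,
`Fintype.card (Ltr N) = N * 2`). -/
theorem one_step (hN : 1 ≤ N) {θ : ℤ × ℤ → ℝ} (hθ : ∀ p ∈ PP, 0 < θ p) {s : ℝ} (hs : 0 ≤ s)
    {A : Set (FG N)} (hA : A ⊆ WW N) {a b : ℤ} (hab : (a, b) ∈ PP) (δ : ℤ) :
    ENNReal.ofReal ((2 * N - 1) * Real.exp (-(s * θ (a, b)))) * pf θ s A (b + δ) ≤
      pf θ s (XX δ A) a := by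
  classical
  set F : FG N → ℝ≥0∞ := fun g =>
    ENNReal.ofReal (Real.exp (-(s * wlen gen (cw θ) (zz ^ a * g)))) with hF
  set G : FG N → ℝ≥0∞ := fun g =>
    ENNReal.ofReal (Real.exp (-(s * wlen gen (cw θ) (zz ^ (b + δ) * g)))) with hG
  set c : ℝ≥0∞ := ENNReal.ofReal (Real.exp (-(s * θ (a, b)))) with hc
  set S : Set (Ltr N × FG N) := {p | p.2 ∈ A ∧ Cp p.1 δ p.2} with hS
  -- the injection
  have hmem : ∀ p : S, xx p.1.1 * zz ^ δ * p.1.2 ∈ XX δ A := fun p =>
    ⟨p.1.1, p.1.2, p.2.1, p.2.2, rfl⟩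
  have hinj : Function.Injective
      (fun p : S => (⟨xx p.1.1 * zz ^ δ * p.1.2, hmem p⟩ : XX δ A)) := by
    intro p q hpq
    have h1 : xx p.1.1 * zz ^ δ * p.1.2 = xx q.1.1 * zz ^ δ * q.1.2 := congrArg Subtype.val hpq
    obtain ⟨h2, _, h3⟩ := ww_inj (hA p.2.1) (hA q.2.1) p.2.2 q.2.2 h1
    exact Subtype.ext (Prod.ext h2 h3)
  have h1 : ∑' p : S, F (xx p.1.1 * zz ^ δ * p.1.2) ≤ pf θ s (XX δ A) a := by
    have h2 := ENNReal.tsum_comp_le_tsum_of_injective hinj (fun g : XX δ A => F g.1)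
    refine h2.trans (le_of_eq ?_)
    rw [tsum_subtype (XX δ A) F]
    rfl
  refine le_trans ?_ h1
  have h3 : ∑' p : S, c * G p.1.2 ≤ ∑' p : S, F (xx p.1.1 * zz ^ δ * p.1.2) := by
    refine ENNReal.tsum_le_tsum fun p => ?_
    rw [hc, hG, hF]
    simp only
    rw [← ENNReal.ofReal_mul (Real.exp_pos _).le, ← Real.exp_add]
    apply ENNReal.ofReal_le_ofReal
    apply Real.exp_le_exp.2
    have h4 := mul_le_mul_of_nonneg_left (wlen_step hN hθ hab δ p.1.1 p.1.2) hs
    linarith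
  refine le_trans ?_ h3
  have h5 : ∑' p : S, c * G p.1.2 =
      ∑' g : FG N, ∑ x : Ltr N, S.indicator (fun p => c * G p.2) (x, g) := by
    rw [tsum_subtype S (fun p => c * G p.2), ENNReal.tsum_prod', ENNReal.tsum_comm]
    refine tsum_congr fun g => ?_
    rw [tsum_fintype]
  rw [h5]
  unfold pf
  rw [← ENNReal.tsum_mul_left]
  refine ENNReal.tsum_le_tsum fun g => ?_
  by_cases hg : g ∈ A
  · rw [Set.indicator_of_mem hg]
    have h6 : ∑ x : Ltr N, S.indicator (fun p => c * G p.2) (x, g) =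
        ((Finset.univ.filter fun x : Ltr N => Cp x δ g).card : ℝ≥0∞) * (c * G g) := by
      rw [← nsmul_eq_mul, ← Finset.sum_const, Finset.sum_filter]
      refine Finset.sum_congr rfl fun x _ => ?_
      by_cases hx : Cp x δ g
      · rw [if_pos hx, Set.indicator_of_mem (show (x, g) ∈ S from ⟨hg, hx⟩)]
      · rw [if_neg hx, Set.indicator_of_notMem (fun h : (x, g) ∈ S => hx h.2)]
    rw [h6]
    have h7 : ENNReal.ofReal (2 * (N : ℝ) - 1) ≤
        ((Finset.univ.filter fun x : Ltr N => Cp x δ g).card : ℝ≥0∞) := by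
      rw [← ENNReal.ofReal_natCast]
      exact ENNReal.ofReal_le_ofReal (card_cp δ g)
    have hN' : (0 : ℝ) ≤ 2 * (N : ℝ) - 1 := by
      have : (1 : ℝ) ≤ N := by exact_mod_cast hN
      linarith
    rw [ENNReal.ofReal_mul hN', mul_assoc]
    exact mul_le_mul_left h7 _
  · rw [Set.indicator_of_notMem hg, mul_zero]
    exact zero_le

end Pool.Agent.Lib.MP_422011_al
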