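import Pool.Agent.Lib.MP_422011_al.Defs

/-!
# Tables: the coupling matrices
-/

namespace Pool.Agent.Lib.MP_422011_al

/-- position of a context in `D` -/
def posD (a : ℤ) : ℕ := [0, 1, 2, 5, 8, 9, 10, 11, 14, 15, 16, 17, 18, 23, 25, 26].idxOf a

/-- position of a context in `T` -/
def posT (a : ℤ) : ℕ := [1, 5, 23, 25].idxOf a

/-- first table, as a list -/
def lU1 : List (List ℕ) := [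
  [1, 0, 0, 0, 0, 0, 0, 0, 0, 7, 0, 14, 19, 18, 11, 32],
  [0, 1, 0, 0, 0, 1, 0, 2, 3, 0, 3, 11, 3, 32, 25, 21],
  [0, 0, 1, 0, 0, 0, 0, 0, 8, 19, 10, 10, 10, 23, 14, 7],
  [0, 0, 0, 1, 0, 0, 0, 0, 0, 0, 32, 22, 6, 0, 32, 9],
  [0, 0, 0, 0, 1, 1, 1, 0, 3, 0, 22, 17, 30, 6, 8, 13],
  [0, 1, 0, 0, 1, 2, 4, 12, 2, 22, 12, 8, 15, 16, 0, 7],
  [0, 0, 0, 0, 1, 4, 1, 16, 24, 29, 0, 6, 1, 4, 5, 11],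
  [0, 2, 0, 0, 0, 12, 16, 2, 31, 8, 1, 7, 14, 2, 6, 1],
  [0, 3, 8, 0, 3, 2, 24, 31, 8, 8, 14, 1, 0, 0, 0, 0],
  [7, 0, 19, 0, 0, 22, 29, 8, 8, 3, 2, 4, 0, 0, 0, 0],
  [0, 3, 10, 32, 22, 12, 0, 1, 14, 2, 5, 0, 1, 0, 0, 0],
  [14, 11, 10, 22, 17, 8, 6, 7, 1, 4, 0, 1, 1, 0, 0, 0],
  [19, 3, 10, 6, 30, 15, 1, 14, 0, 0, 1, 1, 2, 0, 0, 0],
  [18, 32, 23, 0, 6, 16, 4, 2, 0, 0, 0, 0, 0, 1, 0, 0],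
  [11, 25, 14, 32, 8, 0, 5, 6, 0, 0, 0, 0, 0, 0, 1, 0],
  [32, 21, 7, 9, 13, 7, 11, 1, 0, 0, 0, 0, 0, 0, 0, 1]]

/-- second table, as a list -/
def lU2 : List (List ℕ) := [
  [1, 0, 0, 0, 0, 0, 0, 2, 2, 11, 0, 11, 22, 9, 12, 32],
  [0, 1, 0, 0, 0, 1, 0, 1, 8, 19, 0, 5, 8, 32, 7, 20],
  [0, 0, 1, 0, 1, 0, 3, 0, 7, 7, 1, 7, 20, 24, 23, 25],
  [0, 0, 0, 1, 0, 0, 0, 0, 0, 4, 30, 24, 14, 6, 32, 8],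
  [0, 0, 1, 0, 2, 0, 4, 0, 7, 0, 16, 27, 26, 2, 13, 4],
  [0, 1, 0, 0, 0, 4, 1, 17, 20, 5, 18, 6, 4, 5, 4, 0],
  [0, 0, 3, 0, 4, 1, 2, 18, 17, 2, 11, 12, 5, 3, 4, 3],
  [2, 1, 0, 0, 0, 17, 18, 2, 31, 15, 10, 8, 1, 1, 5, 8],
  [2, 8, 7, 0, 7, 20, 17, 31, 6, 10, 11, 0, 0, 0, 0, 0],
  [11, 19, 7, 4, 0, 5, 2, 15, 10, 6, 3, 0, 1, 1, 1, 0],
  [0, 0, 1, 30, 16, 18, 11, 10, 11, 3, 1, 0, 0, 1, 0, 0],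
  [11, 5, 7, 24, 27, 6, 12, 8, 0, 0, 0, 1, 0, 0, 0, 1],
  [22, 8, 20, 14, 26, 4, 5, 1, 0, 1, 0, 0, 1, 0, 0, 0],
  [9, 32, 24, 6, 2, 5, 3, 1, 0, 1, 1, 0, 0, 1, 0, 0],
  [12, 7, 23, 32, 13, 4, 4, 5, 0, 1, 0, 0, 0, 0, 1, 0],
  [32, 20, 25, 8, 4, 0, 3, 8, 0, 0, 0, 1, 0, 0, 0, 1]]

/-- third table, as a list -/
def lVV : List (List ℕ) := [
  [1, 0, 1, 1],
  [0, 1, 1, 1],
  [0, 1, 1, 0],
  [0, 0, 1, 1],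
  [1, 1, 0, 1],
  [1, 1, 1, 1],
  [1, 1, 1, 1],
  [0, 1, 1, 0],
  [1, 0, 0, 1],
  [1, 1, 1, 1],
  [1, 1, 0, 1],
  [1, 1, 1, 0],
  [1, 0, 1, 1],
  [1, 1, 1, 1],
  [1, 1, 1, 0],
  [1, 1, 0, 1]]

/-- first table -/
def U1 (b a : ℤ) : ℕ := (lU1.getD (posD b) []).getD (posD a) 0

/-- second table -/
def U2 (b a : ℤ) : ℕ := (lU2.getD (posD b) []).getD (posD a) 0

/-- third table -/
def VV (b a : ℤ) : ℕ := (lVV.getD (posD b) []).getD (posT a) 0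

/-- row sums of the third table -/
def rV (b : ℤ) : ℕ := ∑ a ∈ TT, VV b a

theorem U1_sym : ∀ b ∈ DD, ∀ a ∈ DD, U1 b a = U1 a b := by decide +kernel

theorem U2_sym : ∀ b ∈ DD, ∀ a ∈ DD, U2 b a = U2 a b := by decide +kernel

theorem U1_diag : ∀ b ∈ DD, 1 ≤ U1 b b := by decide +kernel

theorem U1_row : ∀ b ∈ DD, ∑ a ∈ DD, U1 b a = 102 := by decide +kernel

theorem U2_row : ∀ b ∈ DD, ∑ a ∈ DD, U2 b a + 17 * rV b = 153 := by decide +kernel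

theorem VV_col : ∀ a ∈ TT, ∑ b ∈ DD, VV b a = 12 := by decide +kernel

theorem diff_range : ∀ b ∈ DD, ∀ a ∈ DD, a - b ∈ Finset.Icc (-26 : ℤ) 26 := by decide +kernel

theorem TT_range : ∀ a ∈ TT, a ∈ DD := by decide +kernel

theorem U1_cls : ∀ δ ∈ Finset.Icc (-26 : ℤ) 26,
    ∑ b ∈ DD, ∑ a ∈ DD, (if a - b = δ then U1 b a else 0) ≤ 32 := by decide +kernel

theorem U2_cls : ∀ δ ∈ Finset.Icc (-26 : ℤ) 26,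
    ∑ b ∈ DD, ∑ a ∈ DD, (if a - b = δ then U2 b a else 0) ≤ 32 := by decide +kernel

theorem VV_cls : ∀ δ ∈ Finset.Icc (-26 : ℤ) 26,
    ∑ b ∈ DD, ∑ a ∈ TT, (if a - b = δ then VV b a else 0) ≤ 1 := by decide +kernel

end Pool.Agent.Lib.MP_422011_al
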